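import Pool.Agent.DM.Defs
import Pool.Agent.ZD.Moll

/-!
# Module APART: the truncated product

PAPER PROOF (compare `Pool/Agent/ZD/Moll.lean` and `Pool/Agent/HDZ/Moll.lean`).
`cz K z I = ∑_{b ∣ I, N b ≤ z} mob b`. If `N I ≤ z` every divisor `b` of `I` has `N b ≤ z`, so `cz K z I = 1` if `I = 1`
and `0` otherwise (`Pool.Hhelper85.CZ.sum_mob`). In general `‖cz K z I‖ ≤` number of divisors of `I` `≤ C₁ (N I)^ε`
(`Pool.ZD.divisors_bound`; see `abs_coef_le` in `ZD/Moll.lean`). `SS ((N I/Y)^2) = 1` if `I = 1` (`Y ≥ 1`: `1/Y² ≤ 1`), and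
`= 0` if `N I ≥ 2 Y` (`4 ≥ 5/2`). So for `z ≤ Y`
`apart = ∑_{z < N I ≤ 2 Y} cz(I) SS(…) χ(I) (N I)^{-s}`. Split into the dyadic blocks `(x, 2x]`, `x = 2^j z ≥ 1`,
`2^j z ≤ 2 Y`, at most `C (1 + log Y) ≤ C_ε Y^{ε}` blocks (restrict the last one to `N I ≤ 2Y`). On one block the
coefficients `cz(I) SS(…) (N I)^{-s} / (C₁ (2x)^ε x^{-re s})` have norm `≤ 1`, so by `LSI`
`∑_χ ‖block‖² ≤ C₁² (2x)^{2ε} x^{-2 re s} A H (Q x)^ε (x + x²/Q) ≤ C A H (Q x)^ε x^{2ε} (x^{1-2σ} + x^{2-2σ}/Q)` for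
`re s ≥ σ` (`x ≥ 1`), which is `≤ C' A H (Q Y)^ε Y^{2ε} (z^{1-2σ} + Y^{2-2σ}/Q)` since `z ≤ x ≤ 2Y`, `1/2 ≤ σ ≤ 1`.
Cauchy-Schwarz over the blocks: multiply by (number of blocks)² `≤ C Y^{ε}`, say.
-/

open scoped NumberField nonZeroDivisors
open NumberField Pool.ZD Pool.HDZ

namespace Pool.DM

namespace APart

section
variable {K : Type} [Field K] [NumberField K]

theorem mem_idl {x : ℝ} {I : (Ideal (𝓞 K))⁰} : I ∈ Pool.DM.idl K x ↔ nm K I ≤ x := by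
  simp [Pool.DM.idl]

theorem norm_cz_le {C ε : ℝ}
    (hdiv : ∀ I : Ideal (𝓞 K), I ≠ ⊥ → {J : Ideal (𝓞 K) | J ∣ I}.Finite ∧
      (({J : Ideal (𝓞 K) | J ∣ I}.ncard : ℕ) : ℝ) ≤ C * (Ideal.absNorm I : ℝ) ^ ε)
    (z : ℝ) (n : (Ideal (𝓞 K))⁰) : ‖cz K z n‖ ≤ C * nm K n ^ ε := by
  classical
  have h0 : (n : Ideal (𝓞 K)) ≠ ⊥ := nonZeroDivisors.ne_zero n.2
  obtain ⟨hf, hb⟩ := hdiv n h0
  refine le_trans ?_ hb
  unfold cz
  set F := (Pool.DM.idl K z).filter (fun b => b ∣ n) with hF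
  have h1 : ‖∑ b ∈ F, ((Pool.Hhelper85.CZ.mob K b : ℤ) : ℂ)‖ ≤ (F.card : ℝ) := by
    calc ‖∑ b ∈ F, ((Pool.Hhelper85.CZ.mob K b : ℤ) : ℂ)‖
        ≤ ∑ b ∈ F, ‖((Pool.Hhelper85.CZ.mob K b : ℤ) : ℂ)‖ := norm_sum_le _ _
      _ ≤ ∑ _b ∈ F, (1 : ℝ) := by
          refine Finset.sum_le_sum fun b _ => ?_
          have h2 : |((Pool.Hhelper85.CZ.mob K b : ℤ) : ℝ)| ≤ 1 := by
            exact_mod_cast Pool.Hhelper85.CZ.abs_mob_le K b
          simpa using h2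
      _ = (F.card : ℝ) := by simp
  refine (le_of_eq ?_).trans (h1.trans ?_)
  · congr 1
  have h2 : F.card ≤ {J : Ideal (𝓞 K) | J ∣ (n : Ideal (𝓞 K))}.ncard := by
    rw [← Set.ncard_coe_finset]
    refine Set.ncard_le_ncard_of_injOn (fun b => ((b : (Ideal (𝓞 K))⁰) : Ideal (𝓞 K))) ?_ ?_ hf
    · intro b hb
      obtain ⟨c, hc⟩ := (Finset.mem_filter.1 (Finset.mem_coe.1 hb)).2
      exact ⟨(c : Ideal (𝓞 K)), by rw [hc]; simp⟩
    · intro b _ c _ hbc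
      exact Subtype.ext hbc
  exact_mod_cast h2

open Classical in
theorem cz_small {z : ℝ} (n : (Ideal (𝓞 K))⁰) (hn : nm K n ≤ z) :
    cz K z n = if n = 1 then 1 else 0 := by
  have hmain : ∑ b ∈ (Pool.DM.idl K z).filter (fun b => b ∣ n),
        Pool.Hhelper85.CZ.mob K b = if n = 1 then 1 else 0 := by
    refine Pool.Hhelper85.CZ.sum_mob K n _ ?_
    intro b
    rw [Finset.mem_filter, mem_idl]
    constructor
    · rintro ⟨-, c, hc⟩
      exact ⟨(c : Ideal (𝓞 K)), by rw [hc]; simp⟩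
    · rintro ⟨c, hc⟩
      have hc0 : c ∈ (Ideal (𝓞 K))⁰ := by
        rw [mem_nonZeroDivisors_iff_ne_zero]
        rintro rfl
        rw [mul_zero] at hc
        exact nonZeroDivisors.ne_zero n.2 hc
      have h1 : n = b * ⟨c, hc0⟩ := Subtype.ext hc
      refine ⟨?_, ⟨⟨c, hc0⟩, h1⟩⟩
      have h2 := nm_mul K b ⟨c, hc0⟩
      rw [← h1] at h2
      have h3 := one_le_nm K b
      have h4 := one_le_nm K ⟨c, hc0⟩
      nlinarith
  unfold cz
  have h5 := congrArg (fun a : ℤ => (a : ℂ)) hmain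
  simp only [Int.cast_sum, Int.cast_ite, Int.cast_one, Int.cast_zero] at h5
  rw [← h5]

/-- The coefficients of the truncated product. -/
noncomputable def bc (z Y : ℝ) (s : ℂ) (I : (Ideal (𝓞 K))⁰) : ℂ :=
  cz K z I * (SS ((nm K I / Y) ^ 2) : ℂ) * (nm K I : ℂ) ^ (-s)

open Classical in
/-- One dyadic block of the coefficients. -/
noncomputable def blk (z Y : ℝ) (s : ℂ) (j : ℕ) (I : (Ideal (𝓞 K))⁰) : ℂ :=
  if 2 ^ j * z < nm K I ∧ nm K I ≤ 2 * (2 ^ j * z) then bc z Y s I else 0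

theorem bc_one {z Y : ℝ} (hz : 1 ≤ z) (hY : 1 ≤ Y) (s : ℂ) :
    bc z Y s (1 : (Ideal (𝓞 K))⁰) = 1 := by
  have h1 : nm K (1 : (Ideal (𝓞 K))⁰) = 1 := Moll.nm_one
  unfold bc
  rw [cz_small 1 (by rw [h1]; exact hz), h1]
  have h2 : (1 / Y) ^ 2 ≤ 3 / 2 := by
    have h3 : 1 / Y ≤ 1 := (div_le_one (by linarith)).2 hY
    have h4 : 0 ≤ 1 / Y := by positivity
    nlinarith
  rw [SS_one h2]
  simp

theorem bc_small {z Y : ℝ} (s : ℂ) {I : (Ideal (𝓞 K))⁰} (hI : I ≠ 1) (hn : nm K I ≤ z) :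
    bc z Y s I = 0 := by
  unfold bc
  rw [cz_small I hn, if_neg hI]
  simp

theorem bc_large {z Y : ℝ} (hY : 0 < Y) (s : ℂ) {I : (Ideal (𝓞 K))⁰} (hn : 2 * Y ≤ nm K I) :
    bc z Y s I = 0 := by
  unfold bc
  have h1 : 2 ≤ nm K I / Y := by rwa [le_div_iff₀ hY]
  rw [SS_zero (by nlinarith)]
  simp

theorem bc_eq {z Y : ℝ} (hz : 1 ≤ z) (hzY : z ≤ Y) (s : ℂ) (I : (Ideal (𝓞 K))⁰) :
    bc z Y s I = (open Classical in if I = 1 then (1 : ℂ) else 0) +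
      ∑ j ∈ Finset.range (Moll.nJ (Y / z)), blk z Y s j I := by
  classical
  have hz0 : 0 < z := by linarith
  have hY0 : 0 < Y := by linarith
  have h2j : ∀ j : ℕ, (1 : ℝ) ≤ 2 ^ j := fun j => one_le_pow₀ (by norm_num)
  by_cases hI : I = 1
  · subst hI
    rw [bc_one hz (hz.trans hzY), if_pos rfl]
    symm
    rw [add_eq_left]
    refine Finset.sum_eq_zero fun j _ => ?_
    unfold blk
    rw [if_neg]
    rintro ⟨h1, -⟩
    rw [Moll.nm_one] at h1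
    nlinarith [h2j j]
  · rw [if_neg hI, zero_add]
    by_cases hb : bc z Y s I = 0
    · rw [hb]
      symm
      refine Finset.sum_eq_zero fun j _ => ?_
      unfold blk
      rw [hb, ite_self]
    · have h1 : z < nm K I := by
        by_contra h
        exact hb (bc_small s hI (not_lt.1 h))
      have h2 : nm K I < 2 * Y := by
        by_contra h
        exact hb (bc_large hY0 s (not_lt.1 h))
      obtain ⟨j, hj, hj1, hj2⟩ := Moll.exists_block (Z := Y / z) hz h1 (by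
        have : 2 * (Y / z) * z = 2 * Y := by field_simp
        rw [this]; exact h2.le)
      rw [Finset.sum_eq_single_of_mem j hj]
      · unfold blk
        rw [if_pos ⟨hj1, hj2⟩]
      · intro i _ hij
        unfold blk
        rw [if_neg]
        rintro ⟨h3, h4⟩
        rcases lt_or_gt_of_ne hij with h | h
        · have h5 : (2 : ℝ) ^ (i + 1) ≤ 2 ^ j := pow_le_pow_right₀ (by norm_num) h
          rw [pow_succ] at h5
          nlinarith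
        · have h5 : (2 : ℝ) ^ (j + 1) ≤ 2 ^ i := pow_le_pow_right₀ (by norm_num) h
          rw [pow_succ] at h5
          nlinarith

theorem apart_eq {z Y : ℝ} (hz : 1 ≤ z) (hzY : z ≤ Y) (s : ℂ) (χ : Mul K) :
    apart K χ z Y s = ∑ j ∈ Finset.range (Moll.nJ (Y / z)), ∑' I, blk z Y s j I * χ I := by
  classical
  have hY0 : 0 < Y := by linarith
  set S := Pool.DM.idl K (2 * Y) with hS
  have hbc : ∀ I ∉ S, bc z Y s I = 0 := by
    intro I hI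
    rw [hS, mem_idl, not_le] at hI
    exact bc_large hY0 s hI.le
  have h1 : ∑' I : (Ideal (𝓞 K))⁰, cz K z I * χ I * (SS ((nm K I / Y) ^ 2) : ℂ) *
      (nm K I : ℂ) ^ (-s) = ∑ I ∈ S, bc z Y s I * χ I := by
    rw [tsum_eq_sum (s := S)]
    · refine Finset.sum_congr rfl fun I _ => ?_
      unfold bc
      ring
    · intro I hI
      have h2 := hbc I hI
      unfold bc at h2
      calc cz K z I * χ I * (SS ((nm K I / Y) ^ 2) : ℂ) * (nm K I : ℂ) ^ (-s)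
          = (cz K z I * (SS ((nm K I / Y) ^ 2) : ℂ) * (nm K I : ℂ) ^ (-s)) * χ I := by ring
        _ = 0 := by rw [h2, zero_mul]
  have h2 : ∀ j, ∑' I, blk z Y s j I * χ I = ∑ I ∈ S, blk z Y s j I * χ I := by
    intro j
    rw [tsum_eq_sum (s := S)]
    intro I hI
    unfold blk
    rw [hbc I hI, ite_self, zero_mul]
  unfold apart
  rw [h1]
  simp_rw [h2]
  rw [Finset.sum_comm, sub_eq_iff_eq_add]
  have h3 : ∀ I ∈ S, bc z Y s I * χ I =
      (∑ j ∈ Finset.range (Moll.nJ (Y / z)), blk z Y s j I * χ I) +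
        (if I = 1 then (1 : ℂ) else 0) * χ I := by
    intro I _
    rw [bc_eq hz hzY, add_mul, Finset.sum_mul, add_comm]
  rw [Finset.sum_congr rfl h3, Finset.sum_add_distrib]
  congr 1
  rw [Finset.sum_eq_single_of_mem (1 : (Ideal (𝓞 K))⁰)]
  · simp
  · rw [hS, mem_idl, Moll.nm_one]
    linarith
  · intro I _ hI
    rw [if_neg hI, zero_mul]

theorem norm_blk_le {C ε σ : ℝ} (hC : 0 ≤ C) (hε : 0 ≤ ε) (hσ : 0 ≤ σ)
    (hdiv : ∀ I : Ideal (𝓞 K), I ≠ ⊥ → {J : Ideal (𝓞 K) | J ∣ I}.Finite ∧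
      (({J : Ideal (𝓞 K) | J ∣ I}.ncard : ℕ) : ℝ) ≤ C * (Ideal.absNorm I : ℝ) ^ ε)
    {z Y : ℝ} (hz : 1 ≤ z) {s : ℂ} (hs : σ ≤ s.re) (j : ℕ) (I : (Ideal (𝓞 K))⁰) :
    ‖blk z Y s j I‖ ≤ C * (2 * (2 ^ j * z)) ^ ε * (2 ^ j * z) ^ (-σ) := by
  classical
  have hx0 : (0 : ℝ) < 2 ^ j * z := by positivity
  unfold blk
  split_ifs with h
  · have hn0 : 0 < nm K I := Moll.nm_pos I
    unfold bc
    rw [norm_mul, norm_mul]
    have h1 : ‖cz K z I‖ ≤ C * (2 * (2 ^ j * z)) ^ ε := by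
      refine (norm_cz_le hdiv z I).trans ?_
      have h3 := h.2
      gcongr
    have h2 : ‖(SS ((nm K I / Y) ^ 2) : ℂ)‖ ≤ 1 := by
      rw [Complex.norm_real, Real.norm_eq_abs, abs_of_nonneg (SS_nonneg _)]
      exact SS_le_one _
    have h3 : ‖(nm K I : ℂ) ^ (-s)‖ ≤ (2 ^ j * z) ^ (-σ) := by
      refine (Moll.norm_w_le (σ := σ) hs I).trans ?_
      exact Real.rpow_le_rpow_of_nonpos hx0 h.1.le (by linarith)
    calc ‖cz K z I‖ * ‖(SS ((nm K I / Y) ^ 2) : ℂ)‖ * ‖(nm K I : ℂ) ^ (-s)‖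
        ≤ C * (2 * (2 ^ j * z)) ^ ε * 1 * (2 ^ j * z) ^ (-σ) := by gcongr
      _ = _ := by ring
  · rw [norm_zero]
    positivity

end

end APart

open APart in
theorem apart_mean (m : ℕ) (ε : ℝ) (hε : 0 < ε) (σ : ℝ) (hσ : 1 / 2 ≤ σ) (hσ' : σ ≤ 1) :
    ∃ C : ℝ, 0 < C ∧
    ∀ (K : Type) [Field K] [NumberField K], Module.finrank ℚ K = m →
    ∀ (F : Finset (Mul K)) (A H Q : ℝ), 0 ≤ A → 0 ≤ H → 1 ≤ Q → LSI K F ε A H Q →
    ∀ z Y : ℝ, 1 ≤ z → z ≤ Y → ∀ s : ℂ, σ ≤ s.re →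
      ∑ χ ∈ F, ‖apart K χ z Y s‖ ^ 2 ≤
        C * (A * H) * (Q * Y) ^ ε * Y ^ (3 * ε) * (z ^ (1 - 2 * σ) + Y ^ (2 - 2 * σ) / Q) := by
  obtain ⟨C₁, hC₁, hdiv⟩ := divisors_bound m ε hε
  have hC₁0 : 0 < C₁ := by linarith
  set C₃ : ℝ := (2 / (ε / 2) + 1) * 2 ^ (ε / 2) with hC₃def
  have hC₃ : 0 < C₃ := by positivity
  refine ⟨C₃ ^ 2 * (C₁ ^ 2 * 4 ^ (2 * ε) * 2 ^ ε * 2), by positivity, ?_⟩
  intro K _ _ hK F A H Q hA hH hQ hLS z Y hz hzY s hs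
  have hz0 : 0 < z := by linarith
  have hY : 1 ≤ Y := by linarith
  have hY0 : 0 < Y := by linarith
  have hQ0 : 0 < Q := by linarith
  have hYz : 1 ≤ Y / z := by rwa [one_le_div hz0]
  set T : ℝ := z ^ (1 - 2 * σ) + Y ^ (2 - 2 * σ) / Q with hT
  have hT0 : 0 ≤ T := by positivity
  set N := Moll.nJ (Y / z) with hN
  -- the number of blocks
  have hJ : (N : ℝ) ^ 2 ≤ C₃ ^ 2 * Y ^ ε := by
    have h1 : (N : ℝ) ≤ C₃ * Y ^ (ε / 2) := by
      have h2 := Moll.log_bound (Y := 2 * (Y / z)) (by linarith) (half_pos hε)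
      have h3 : (N : ℝ) = (Nat.log 2 ⌊2 * (Y / z)⌋₊ : ℝ) + 1 := by
        rw [hN, Moll.nJ]; push_cast; rfl
      rw [h3]
      refine h2.trans ?_
      have h4 : 2 * (Y / z) ≤ 2 * Y := by
        have : Y / z ≤ Y := div_le_self hY0.le hz
        linarith
      calc (2 / (ε / 2) + 1) * (2 * (Y / z)) ^ (ε / 2)
          ≤ (2 / (ε / 2) + 1) * (2 * Y) ^ (ε / 2) := by gcongr
        _ = C₃ * Y ^ (ε / 2) := by
            rw [Real.mul_rpow (by norm_num) hY0.le, hC₃def]; ring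
    calc (N : ℝ) ^ 2 ≤ (C₃ * Y ^ (ε / 2)) ^ 2 := by gcongr
      _ = C₃ ^ 2 * Y ^ ε := by
          rw [mul_pow, Moll.sq_rpow hY0.le]
          congr 2
          ring
  -- one block
  have hblock : ∀ j ∈ Finset.range N, ∑ χ ∈ F, ‖∑' I, blk z Y s j I * χ I‖ ^ 2 ≤
      (C₁ ^ 2 * 4 ^ (2 * ε) * 2 ^ ε * 2) * (A * H) * (Q * Y) ^ ε * Y ^ (2 * ε) * T := by
    intro j hj
    rw [Finset.mem_range] at hj
    have h2j := Moll.pow_le_of_lt_nJ hYz hj
    have h2j1 : (1 : ℝ) ≤ 2 ^ j := one_le_pow₀ (by norm_num)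
    set x := 2 ^ j * z with hx
    have hxz : z ≤ x := by
      rw [hx]; nlinarith
    have hx1 : 1 ≤ x := by linarith
    have hx0 : 0 < x := by linarith
    have hxY : x ≤ 2 * Y := by
      rw [hx]
      calc (2 : ℝ) ^ j * z ≤ 2 * (Y / z) * z := by gcongr
        _ = 2 * Y := by field_simp
    set M : ℝ := C₁ * (2 * x) ^ ε * x ^ (-σ) with hM
    have hM0 : 0 < M := by positivity
    have hb : ∀ I, ‖blk z Y s j I‖ ≤ M := fun I =>
      norm_blk_le hC₁0.le hε.le (by linarith) (hdiv K hK) hz hs j I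
    have h1 := hLS x hx1 (fun I => blk z Y s j I / (M : ℂ))
      (fun I => by
        rw [norm_div, Complex.norm_real, Real.norm_of_nonneg hM0.le, div_le_one hM0]
        exact hb I)
      (fun I hI => by
        have h2 : blk z Y s j I ≠ 0 := by
          intro h
          rw [h, zero_div] at hI
          exact hI rfl
        unfold blk at h2
        by_contra hcon
        rw [if_neg hcon] at h2
        exact h2 rfl)
    have h2 : ∀ χ : Mul K, ∑' I, blk z Y s j I * χ I =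
        (M : ℂ) * ∑' I, blk z Y s j I / (M : ℂ) * χ I := by
      intro χ
      rw [← tsum_mul_left]
      refine tsum_congr fun I => ?_
      have : (M : ℂ) ≠ 0 := by exact_mod_cast hM0.ne'
      field_simp
    have h3 : ∑ χ ∈ F, ‖∑' I, blk z Y s j I * χ I‖ ^ 2 ≤
        M ^ 2 * (A * H * (Q * x) ^ ε * (x + x ^ 2 / Q)) := by
      calc ∑ χ ∈ F, ‖∑' I, blk z Y s j I * χ I‖ ^ 2
          = M ^ 2 * ∑ χ ∈ F, ‖∑' I, blk z Y s j I / (M : ℂ) * χ I‖ ^ 2 := by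
            rw [Finset.mul_sum]
            refine Finset.sum_congr rfl fun χ _ => ?_
            rw [h2 χ, norm_mul, Complex.norm_real, Real.norm_of_nonneg hM0.le, mul_pow]
        _ ≤ _ := by gcongr
    refine h3.trans ?_
    have e0 : M ^ 2 = C₁ ^ 2 * (2 * x) ^ (2 * ε) * x ^ (-(2 * σ)) := by
      rw [hM, mul_pow, mul_pow, Moll.sq_rpow (by positivity), Moll.sq_rpow hx0.le]
      congr 2
      ring
    have e1 : (2 * x) ^ (2 * ε) ≤ 4 ^ (2 * ε) * Y ^ (2 * ε) := by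
      rw [← Real.mul_rpow (by norm_num) hY0.le]
      exact Real.rpow_le_rpow (by positivity) (by linarith) (by positivity)
    have e2 : (Q * x) ^ ε ≤ 2 ^ ε * (Q * Y) ^ ε := by
      rw [← Real.mul_rpow (by norm_num) (by positivity)]
      refine Real.rpow_le_rpow (by positivity) ?_ hε.le
      nlinarith
    have e3 : x ^ (-(2 * σ)) * x ≤ z ^ (1 - 2 * σ) := by
      have h4 : x ^ (-(2 * σ)) * x = x ^ (1 - 2 * σ) := by
        nth_rewrite 2 [← Real.rpow_one x]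
        rw [← Real.rpow_add hx0]
        congr 1
        ring
      rw [h4]
      exact Real.rpow_le_rpow_of_nonpos hz0 hxz (by linarith)
    have e4 : x ^ (-(2 * σ)) * x ^ 2 ≤ 2 * Y ^ (2 - 2 * σ) := by
      have h4 : x ^ (-(2 * σ)) * x ^ 2 = x ^ (2 - 2 * σ) := by
        have h5 : x ^ 2 = x ^ (2 : ℝ) := by norm_cast
        rw [h5, ← Real.rpow_add hx0]
        congr 1
        ring
      rw [h4]
      calc x ^ (2 - 2 * σ) ≤ (2 * Y) ^ (2 - 2 * σ) :=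
            Real.rpow_le_rpow hx0.le hxY (by linarith)
        _ = 2 ^ (2 - 2 * σ) * Y ^ (2 - 2 * σ) := Real.mul_rpow (by norm_num) hY0.le
        _ ≤ 2 ^ (1 : ℝ) * Y ^ (2 - 2 * σ) := by
            gcongr
            · norm_num
            · linarith
        _ = _ := by rw [Real.rpow_one]
    have e5 : x ^ (-(2 * σ)) * (x + x ^ 2 / Q) ≤ 2 * T := by
      have h5 : x ^ (-(2 * σ)) * (x + x ^ 2 / Q) =
          x ^ (-(2 * σ)) * x + x ^ (-(2 * σ)) * x ^ 2 / Q := by ring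
      rw [h5, hT]
      have h6 : x ^ (-(2 * σ)) * x ^ 2 / Q ≤ 2 * Y ^ (2 - 2 * σ) / Q := by gcongr
      have h7 : 0 ≤ z ^ (1 - 2 * σ) := by positivity
      have h8 : 2 * Y ^ (2 - 2 * σ) / Q = 2 * (Y ^ (2 - 2 * σ) / Q) := by ring
      linarith
    calc M ^ 2 * (A * H * (Q * x) ^ ε * (x + x ^ 2 / Q))
        = C₁ ^ 2 * (A * H) * (2 * x) ^ (2 * ε) * (Q * x) ^ ε *
            (x ^ (-(2 * σ)) * (x + x ^ 2 / Q)) := by rw [e0]; ring
      _ ≤ C₁ ^ 2 * (A * H) * (4 ^ (2 * ε) * Y ^ (2 * ε)) * (2 ^ ε * (Q * Y) ^ ε) * (2 * T) := by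
          have h9 : 0 ≤ A * H := mul_nonneg hA hH
          gcongr
      _ = _ := by ring
  -- all blocks
  have hcs : ∀ χ : Mul K, ‖apart K χ z Y s‖ ^ 2 ≤
      (N : ℝ) * ∑ j ∈ Finset.range N, ‖∑' I, blk z Y s j I * χ I‖ ^ 2 := by
    intro χ
    rw [apart_eq hz hzY s χ]
    calc ‖∑ j ∈ Finset.range N, ∑' I, blk z Y s j I * χ I‖ ^ 2
        ≤ (∑ j ∈ Finset.range N, ‖∑' I, blk z Y s j I * χ I‖) ^ 2 := by
          gcongr
          exact norm_sum_le _ _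
      _ ≤ (Finset.range N).card * ∑ j ∈ Finset.range N, ‖∑' I, blk z Y s j I * χ I‖ ^ 2 :=
          sq_sum_le_card_mul_sum_sq
      _ = _ := by rw [Finset.card_range]
  have hAH : 0 ≤ A * H := mul_nonneg hA hH
  calc ∑ χ ∈ F, ‖apart K χ z Y s‖ ^ 2
      ≤ ∑ χ ∈ F, (N : ℝ) * ∑ j ∈ Finset.range N, ‖∑' I, blk z Y s j I * χ I‖ ^ 2 :=
        Finset.sum_le_sum fun χ _ => hcs χ
    _ = (N : ℝ) * ∑ j ∈ Finset.range N, ∑ χ ∈ F, ‖∑' I, blk z Y s j I * χ I‖ ^ 2 := by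
        rw [← Finset.mul_sum, Finset.sum_comm]
    _ ≤ (N : ℝ) * ∑ j ∈ Finset.range N,
        (C₁ ^ 2 * 4 ^ (2 * ε) * 2 ^ ε * 2) * (A * H) * (Q * Y) ^ ε * Y ^ (2 * ε) * T := by
        gcongr with j hj
        exact hblock j hj
    _ = (N : ℝ) ^ 2 * ((C₁ ^ 2 * 4 ^ (2 * ε) * 2 ^ ε * 2) * (A * H) * (Q * Y) ^ ε *
          Y ^ (2 * ε) * T) := by
        rw [Finset.sum_const, Finset.card_range, nsmul_eq_mul]; ring
    _ ≤ (C₃ ^ 2 * Y ^ ε) * ((C₁ ^ 2 * 4 ^ (2 * ε) * 2 ^ ε * 2) * (A * H) * (Q * Y) ^ ε *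
          Y ^ (2 * ε) * T) := by
        gcongr
    _ = C₃ ^ 2 * (C₁ ^ 2 * 4 ^ (2 * ε) * 2 ^ ε * 2) * (A * H) * (Q * Y) ^ ε *
          (Y ^ ε * Y ^ (2 * ε)) * T := by ring
    _ = _ := by
        rw [← Real.rpow_add hY0]
        congr 3
        ring

end Pool.DM
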