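import Pool.Agent.DM.BlockW

/-!
# Module BMEAN: mean square of one block

PAPER PROOF. `BW K χ W Z s = Z^{-s} ∑' I, χ I * g_s ((N I / Z)^2)` with `g_s (v) = W(v) v^{-s/2}`:
`(N I)^{-s} = Z^{-s} (((N I / Z)^2 : ℝ) : ℂ)^{-s/2}` (positive reals; `Complex.ofReal_cpow`, `Complex.mul_cpow_ofReal_nonneg`
or via `Complex.cpow_def` and logarithms). The sums are finite (`W` has support in `[3/2,10]`, `finite_le`). So
`‖BW‖² = Z^{-2 re s} ‖∑' χ I g_s(...)‖²`, and `LSII` with `G = C (1+‖s‖)^k` from `blockW_nice` gives the claim.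
-/

open scoped NumberField nonZeroDivisors
open NumberField Pool.ZD Pool.HDZ

namespace Pool.DM

theorem BW_eq (K : Type) [Field K] [NumberField K] (χ : Mul K) (W : ℝ → ℝ) (Z : ℝ) (hZ : 0 < Z)
    (s : ℂ) : BW K χ W Z s = (Z : ℂ) ^ (-s) *
      ∑' I : (Ideal (𝓞 K))⁰, χ I * ((W ((nm K I / Z) ^ 2) : ℂ) *
        ((((nm K I / Z) ^ 2 : ℝ)) : ℂ) ^ (-s / 2)) := by
  unfold BW
  rw [← tsum_mul_left]
  apply tsum_congr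
  intro I
  have hI : 0 < nm K I := by linarith [one_le_nm K I]
  have hq : 0 < nm K I / Z := div_pos hI hZ
  have e1 : ((((nm K I / Z) ^ 2 : ℝ)) : ℂ) ^ (-s / 2) = ((nm K I / Z : ℝ) : ℂ) ^ (-s) := by
    have h0 : ((nm K I / Z : ℝ) : ℂ) ≠ 0 := by exact_mod_cast hq.ne'
    have h1 : ((((nm K I / Z) ^ 2 : ℝ)) : ℂ) ≠ 0 := by exact_mod_cast (pow_pos hq 2).ne'
    rw [Complex.cpow_def_of_ne_zero h1, Complex.cpow_def_of_ne_zero h0,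
      ← Complex.ofReal_log (pow_pos hq 2).le, ← Complex.ofReal_log hq.le, Real.log_pow]
    congr 1
    push_cast
    ring
  have e2 : (nm K I : ℂ) ^ (-s) = (Z : ℂ) ^ (-s) * ((nm K I / Z : ℝ) : ℂ) ^ (-s) := by
    rw [← Complex.mul_cpow_ofReal_nonneg hZ.le hq.le, ← Complex.ofReal_mul,
      mul_div_cancel₀ _ hZ.ne']
  rw [e1, e2]
  ring

theorem block_mean (W : ℝ → ℝ) (hW : Wt W) (k : ℕ) : ∃ C : ℝ, 0 < C ∧
    ∀ (K : Type) [Field K] [NumberField K] (F : Finset (Mul K)) (ε A H Q : ℝ), 0 ≤ A → 0 ≤ H →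
      1 ≤ Q → LSII K F k ε A H Q → ∀ Z : ℝ, 1 ≤ Z → ∀ s : ℂ, 0 ≤ s.re →
      ∑ χ ∈ F, ‖BW K χ W Z s‖ ^ 2 ≤
        C * (A * H) * (1 + ‖s‖) ^ (2 * k) * (Q * Z) ^ ε * Z ^ (1 - 2 * s.re) := by
  obtain ⟨C₀, hC₀, hnice⟩ := blockW_nice W hW k
  refine ⟨C₀ ^ 2, by positivity, ?_⟩
  intro K _ _ F ε A H Q hA hH hQ hLS Z hZ s hs
  have hZ0 : 0 < Z := by linarith
  have h1 := hLS _ _ (hnice s hs) Z hZ
  have h2 : ∀ χ ∈ F, ‖BW K χ W Z s‖ ^ 2 = Z ^ (-2 * s.re) *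
      ‖∑' I : (Ideal (𝓞 K))⁰, χ I * ((W ((nm K I / Z) ^ 2) : ℂ) *
        ((((nm K I / Z) ^ 2 : ℝ)) : ℂ) ^ (-s / 2))‖ ^ 2 := by
    intro χ _
    rw [BW_eq K χ W Z hZ0 s, norm_mul, mul_pow, Complex.norm_cpow_eq_rpow_re_of_pos hZ0]
    congr 1
    rw [← Real.rpow_natCast, ← Real.rpow_mul hZ0.le]
    congr 1
    simp
    ring
  rw [Finset.sum_congr rfl h2, ← Finset.mul_sum]
  have h3 : Z ^ (-2 * s.re) * ∑ χ ∈ F,
      ‖∑' I : (Ideal (𝓞 K))⁰, χ I * ((W ((nm K I / Z) ^ 2) : ℂ) *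
        ((((nm K I / Z) ^ 2 : ℝ)) : ℂ) ^ (-s / 2))‖ ^ 2 ≤
      Z ^ (-2 * s.re) * (A * H * (C₀ * (1 + ‖s‖) ^ k) ^ 2 * Z * (Q * Z) ^ ε) :=
    mul_le_mul_of_nonneg_left h1 (Real.rpow_nonneg hZ0.le _)
  refine h3.trans (le_of_eq ?_)
  have h4 : Z ^ (1 - 2 * s.re) = Z ^ (-2 * s.re) * Z := by
    rw [show 1 - 2 * s.re = -2 * s.re + 1 by ring, Real.rpow_add hZ0, Real.rpow_one]
  rw [h4, pow_mul' (1 + ‖s‖) 2 k]
  ring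

end Pool.DM
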