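import Pool.Agent.DM.Cont

/-!
# Module BPART: first moment of the tails against the mollifier

PAPER PROOF. Let `re s ≥ σ ≥ 1/2 + ε`. For `b` with `1 < N b ≤ z`, `Y / N b ≥ Y/z ≥ 2`, and by `cont`
`L s - PP K χ (Y / N b) s = ∑_j BW K χ Wd (2^j Y / N b) s` (as `re s > (1+ε)/2`). Sort the `b` by dyadic intervals:
`B = 2^i`, `B < N b ≤ 2B`, `0 ≤ i`, `2^i < z`; put `θ_b = N b / B ∈ (1,2]` and
`Ψ_j(θ) = BW K χ Wd (2^j Y/(B θ)) s = ∑_I χ(I) Wd ((N I B θ/(2^j Y))^2) (N I)^{-s}` for `θ ∈ [1,2]` (a finite sum over a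
fixed finite set of ideals), which is `C¹` with
`Ψ_j'(θ) = (1/θ) BW K χ W1 (2^j Y/(B θ)) s` (`d/dθ Wd (c θ²) = 2 c θ Wd'(cθ²) = (1/θ) W1 (c θ²)`). With
`m_b = mt K χ s b` (restricted to `N b ≤ z`),
`∑_b m_b Ψ_j(θ_b) = Ψ_j(1) ∑_b m_b + ∫_1^2 Ψ_j'(θ) (∑_{b : θ_b > θ} m_b) dθ` (fundamental theorem of calculus).
For fixed `θ`, Cauchy-Schwarz over `χ ∈ F`, `block_mean` (scale `2^j Y/(Bθ) ≥ Y/(2B) ≥ 1`, because `2 B ≤ 2 z ≤ Y`) and
`LSI` for the coefficients `mob b (N b)^{-s} B^{re s} 1[θ_b > θ, N b ≤ z]` (norm `≤ 1`, supported in `(B,2B]`):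
`∑_χ |Ψ_j(1)| |∑ m_b| ≤ (C A H (1+‖s‖)^{2k} (Q 2^j Y/B)^ε (2^j Y/B)^{1-2 re s})^{1/2} (A H (Q B)^ε (B + B²/Q) B^{-2 re s})^{1/2}
 ≤ C' A H (1+‖s‖)^k Q^ε (2^j Y)^{ε/2 + 1/2 - re s} (1 + B/Q)^{1/2}`, and `B ≤ z ≤ Q` makes the last factor `≤ √2`. The same
bound holds for the integrand (`W1` instead of `Wd`, `1/θ ≤ 1`, `(1/θ)`-powers bounded by constants depending on... note
`(2^jY/(Bθ))^{1-2 re s} ≤ (2^jY/B)^{1 - 2 re s} 2^{2 re s - 1}`; to avoid a constant depending on `re s`, use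
`θ_b > θ`, i.e. `N b > B θ`, so that the second factor is `(Bθ)^{-2 re s}` instead of `B^{-2 re s}`). Sum over `j`:
`∑_j 2^{j (ε/2 + 1/2 - re s)} ≤ C_ε` (`re s ≥ 1/2 + ε`), and `Y^{1/2 - re s} ≤ Y^{1/2-σ}`; sum over the at most
`1 + log₂ z ≤ C_ε Y^ε` values of `i`. Interchange of `∑_χ` with `∫` and `∑_j`: norms, `integral_mono`, finite sums.
-/

open scoped NumberField nonZeroDivisors
open NumberField Pool.ZD Pool.HDZ

namespace Pool.DM

namespace BP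

theorem exists_unit (T : ℂ) : ∃ u : ℂ, ‖u‖ ≤ 1 ∧ u * T = (‖T‖ : ℂ) := by
  by_cases hT : T = 0
  · exact ⟨0, by simp, by simp [hT]⟩
  · refine ⟨(‖T‖ : ℂ) / T, ?_, div_mul_cancel₀ _ hT⟩
    rw [norm_div, Complex.norm_real, norm_norm, div_self (norm_ne_zero_iff.2 hT)]

/-- partial summation in a continuous parameter, first moment over a finite family -/
theorem abs_ps {ι β : Type*} (F : Finset ι) (B : Finset β) (Ψ Ψ' : ι → ℝ → ℂ) (m : ι → β → ℂ)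
    (θ : β → ℝ) (hθ : ∀ b ∈ B, 1 < θ b ∧ θ b ≤ 2)
    (hd : ∀ χ ∈ F, ∀ x ∈ Set.Icc (1 : ℝ) 2, HasDerivAt (Ψ χ) (Ψ' χ x) x)
    (R0 R : ℝ) (h0 : ∑ χ ∈ F, ‖Ψ χ 1‖ * ‖∑ b ∈ B, m χ b‖ ≤ R0)
    (h1 : ∀ x ∈ Set.Ico (1 : ℝ) 2,
      ∑ χ ∈ F, ‖Ψ' χ x‖ * ‖∑ b ∈ B.filter (fun b => x < θ b), m χ b‖ ≤ R) :
    ∑ χ ∈ F, ‖∑ b ∈ B, m χ b * Ψ χ (θ b)‖ ≤ R0 + R := by
  classical
  have hu : ∀ χ, ∃ u : ℂ, ‖u‖ ≤ 1 ∧ u * (∑ b ∈ B, m χ b * Ψ χ (θ b)) =
      (‖∑ b ∈ B, m χ b * Ψ χ (θ b)‖ : ℂ) := fun χ => exists_unit _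
  choose u hu1 hu2 using hu
  set Φ : ℝ → ℂ := fun x => ∑ χ ∈ F, u χ * ∑ b ∈ B, m χ b * Ψ χ (min x (θ b)) with hΦ
  set Φ' : ℝ → ℂ := fun x => ∑ χ ∈ F, u χ * ∑ b ∈ B, m χ b *
    (if x < θ b then Ψ' χ x else 0) with hΦ'
  have hder : ∀ χ ∈ F, ∀ b ∈ B, ∀ x ∈ Set.Ico (1 : ℝ) 2,
      HasDerivWithinAt (fun y => Ψ χ (min y (θ b))) (if x < θ b then Ψ' χ x else 0)
        (Set.Ici x) x := by
    intro χ hχ b hb x hx
    by_cases hxb : x < θ b
    · rw [if_pos hxb]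
      have h := (hd χ hχ x ⟨hx.1, hx.2.le⟩)
      refine (h.congr_of_eventuallyEq ?_).hasDerivWithinAt
      filter_upwards [Iio_mem_nhds hxb] with y hy
      rw [min_eq_left (le_of_lt hy)]
    · rw [if_neg hxb]
      push Not at hxb
      refine (hasDerivWithinAt_const x (Set.Ici x) (Ψ χ (θ b))).congr ?_ ?_
      · intro y hy
        rw [min_eq_right (hxb.trans hy)]
      · rw [min_eq_right hxb]
  have hcont : ContinuousOn Φ (Set.Icc 1 2) := by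
    apply continuousOn_finsetSum
    intro χ hχ
    apply ContinuousOn.mul continuousOn_const
    apply continuousOn_finsetSum
    intro b hb
    apply ContinuousOn.mul continuousOn_const
    have hΨ : ContinuousOn (Ψ χ) (Set.Icc 1 2) :=
      fun x hx => (hd χ hχ x hx).continuousAt.continuousWithinAt
    refine hΨ.comp ((continuous_id.min continuous_const).continuousOn) ?_
    intro x hx
    exact ⟨le_min hx.1 (hθ b hb).1.le, (min_le_left _ _).trans hx.2⟩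
  have hderΦ : ∀ x ∈ Set.Ico (1 : ℝ) 2, HasDerivWithinAt Φ (Φ' x) (Set.Ici x) x := by
    intro x hx
    apply HasDerivWithinAt.fun_sum
    intro χ hχ
    apply HasDerivWithinAt.const_mul
    apply HasDerivWithinAt.fun_sum
    intro b hb
    apply HasDerivWithinAt.const_mul
    exact hder χ hχ b hb x hx
  have hbd : ∀ x ∈ Set.Ico (1 : ℝ) 2, ‖Φ' x‖ ≤ R := by
    intro x hx
    refine (norm_sum_le _ _).trans ((Finset.sum_le_sum fun χ _ => ?_).trans (h1 x hx))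
    have h2 : ∑ b ∈ B, m χ b * (if x < θ b then Ψ' χ x else 0) =
        (∑ b ∈ B.filter (fun b => x < θ b), m χ b) * Ψ' χ x := by
      rw [Finset.sum_filter, Finset.sum_mul]
      apply Finset.sum_congr rfl
      intro b _
      by_cases h : x < θ b <;> simp [h]
    rw [h2, norm_mul, norm_mul]
    calc ‖u χ‖ * (‖∑ b ∈ B.filter (fun b => x < θ b), m χ b‖ * ‖Ψ' χ x‖)
        ≤ 1 * (‖∑ b ∈ B.filter (fun b => x < θ b), m χ b‖ * ‖Ψ' χ x‖) :=
          mul_le_mul_of_nonneg_right (hu1 χ) (by positivity)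
      _ = _ := by ring
  have hmv := norm_image_sub_le_of_norm_deriv_right_le_segment hcont hderΦ hbd 2
    ⟨by norm_num, le_rfl⟩
  have hΦ1 : ‖Φ 1‖ ≤ R0 := by
    refine (norm_sum_le _ _).trans ((Finset.sum_le_sum fun χ _ => ?_).trans h0)
    have h2 : ∑ b ∈ B, m χ b * Ψ χ (min 1 (θ b)) = (∑ b ∈ B, m χ b) * Ψ χ 1 := by
      rw [Finset.sum_mul]
      apply Finset.sum_congr rfl
      intro b hb
      rw [min_eq_left (hθ b hb).1.le]
    rw [h2, norm_mul, norm_mul]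
    calc ‖u χ‖ * (‖∑ b ∈ B, m χ b‖ * ‖Ψ χ 1‖) ≤ 1 * (‖∑ b ∈ B, m χ b‖ * ‖Ψ χ 1‖) :=
          mul_le_mul_of_nonneg_right (hu1 χ) (by positivity)
      _ = _ := by ring
  have hΦ2 : Φ 2 = ((∑ χ ∈ F, ‖∑ b ∈ B, m χ b * Ψ χ (θ b)‖ : ℝ) : ℂ) := by
    rw [Complex.ofReal_sum]
    apply Finset.sum_congr rfl
    intro χ _
    rw [← hu2 χ]
    congr 1
    apply Finset.sum_congr rfl
    intro b hb
    rw [min_eq_right (hθ b hb).2]
  have h3 : ‖Φ 2‖ = ∑ χ ∈ F, ‖∑ b ∈ B, m χ b * Ψ χ (θ b)‖ := by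
    rw [hΦ2, Complex.norm_real, Real.norm_eq_abs, abs_of_nonneg]
    exact Finset.sum_nonneg fun _ _ => norm_nonneg _
  rw [← h3]
  have h4 : ‖Φ 2‖ ≤ ‖Φ 1‖ + ‖Φ 2 - Φ 1‖ := by
    have := norm_add_le (Φ 1) (Φ 2 - Φ 1)
    simpa using this
  linarith

variable (K : Type) [Field K] [NumberField K]

theorem nm_posP (I : (Ideal (𝓞 K))⁰) : 0 < nm K I := lt_of_lt_of_le zero_lt_one (one_le_nm K I)

theorem norm_nm_cpow (I : (Ideal (𝓞 K))⁰) (s : ℂ) : ‖(nm K I : ℂ) ^ (-s)‖ = (nm K I) ^ (-s.re) := by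
  rw [Complex.norm_cpow_eq_rpow_re_of_pos (nm_posP K I)]
  simp

/-- the large sieve applied to a piece of the mollifier -/
theorem S_mean (F : Finset (Mul K)) (ε A H Q : ℝ) (hL : LSI K F ε A H Q) (x : ℝ) (hx : 1 ≤ x)
    (w : ℝ) (hw : 0 < w) (s : ℂ) (hs : 0 ≤ s.re) (B : Finset (Ideal (𝓞 K))⁰)
    (hB : ∀ b ∈ B, x < nm K b ∧ nm K b ≤ 2 * x ∧ w ≤ nm K b) :
    ∑ χ ∈ F, ‖∑ b ∈ B, mt K χ s b‖ ^ 2 ≤
      w ^ (-(2 * s.re)) * (A * H * (Q * x) ^ ε * (x + x ^ 2 / Q)) := by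
  classical
  set c : (Ideal (𝓞 K))⁰ → ℂ := fun I => if I ∈ B then
    (Pool.Hhelper85.CZ.mob K I : ℂ) * (nm K I : ℂ) ^ (-s) * ((w ^ s.re : ℝ) : ℂ) else 0 with hc
  have hc1 : ∀ I, ‖c I‖ ≤ 1 := by
    intro I
    by_cases hI : I ∈ B
    · simp only [hc, if_pos hI]
      rw [norm_mul, norm_mul, norm_nm_cpow, Complex.norm_real, Real.norm_eq_abs,
        abs_of_pos (Real.rpow_pos_of_pos hw _)]
      have h1 : ‖(Pool.Hhelper85.CZ.mob K I : ℂ)‖ ≤ 1 := by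
        have := Pool.Hhelper85.CZ.abs_mob_le K I
        rw [Complex.norm_intCast]
        exact_mod_cast this
      have h2 : (nm K I) ^ (-s.re) * w ^ s.re ≤ 1 := by
        rw [Real.rpow_neg (nm_posP K I).le, inv_mul_le_iff₀ (Real.rpow_pos_of_pos (nm_posP K I) _),
          mul_one]
        exact Real.rpow_le_rpow hw.le (hB I hI).2.2 hs
      calc ‖(Pool.Hhelper85.CZ.mob K I : ℂ)‖ * nm K I ^ (-s.re) * w ^ s.re
          = ‖(Pool.Hhelper85.CZ.mob K I : ℂ)‖ * (nm K I ^ (-s.re) * w ^ s.re) := by ring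
        _ ≤ 1 * 1 := by
            apply mul_le_mul h1 h2 _ zero_le_one
            exact mul_nonneg (Real.rpow_nonneg (nm_posP K I).le _) (Real.rpow_nonneg hw.le _)
        _ = 1 := one_mul 1
    · simp [hc, hI]
  have hc2 : ∀ I, c I ≠ 0 → x < nm K I ∧ nm K I ≤ 2 * x := by
    intro I hI
    have : I ∈ B := by
      by_contra h
      exact hI (by simp [hc, h])
    exact ⟨(hB I this).1, (hB I this).2.1⟩
  have h := hL x hx c hc1 hc2
  have hterm : ∀ χ : Mul K, ∑' I, c I * χ I = ((w ^ s.re : ℝ) : ℂ) * ∑ b ∈ B, mt K χ s b := by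
    intro χ
    rw [tsum_eq_sum (s := B), Finset.mul_sum]
    · apply Finset.sum_congr rfl
      intro b hb
      simp only [hc, if_pos hb, mt]
      ring
    · intro b hb
      simp [hc, hb]
  have hwp : 0 < w ^ s.re := Real.rpow_pos_of_pos hw _
  have hsq : ∀ χ : Mul K, ‖∑' I, c I * χ I‖ ^ 2 = (w ^ s.re) ^ 2 * ‖∑ b ∈ B, mt K χ s b‖ ^ 2 := by
    intro χ
    rw [hterm, norm_mul, Complex.norm_real, Real.norm_eq_abs, abs_of_pos hwp, mul_pow]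
  simp only [hsq] at h
  rw [← Finset.mul_sum] at h
  have hw2 : w ^ (-(2 * s.re)) = ((w ^ s.re) ^ 2)⁻¹ := by
    rw [Real.rpow_neg hw.le, mul_comm, Real.rpow_mul hw.le]
    norm_num
  rw [hw2, ← div_eq_inv_mul, le_div_iff₀ (by positivity), mul_comm]
  exact h

/-- the blocks are finite sums over a fixed finite set -/
theorem BW_eq_sum (χ : Mul K) {W : ℝ → ℝ} (hW : Wt W) {Z X : ℝ} (hZ : 0 < Z) (hX : 4 * Z ≤ X)
    (s : ℂ) : BW K χ W Z s = ∑ I ∈ (finite_le K X).toFinset,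
      χ I * (W ((nm K I / Z) ^ 2) : ℂ) * (nm K I : ℂ) ^ (-s) := by
  unfold BW
  apply tsum_eq_sum
  intro I hI
  rw [Set.Finite.mem_toFinset, Set.mem_ofPred_eq, not_le] at hI
  have h1 : W ((nm K I / Z) ^ 2) = 0 := by
    apply hW.2
    right
    have h2 : (4 : ℝ) ≤ nm K I / Z := by
      rw [le_div_iff₀ hZ]
      linarith
    nlinarith
  rw [h1]
  simp

theorem wd_deriv (c x : ℝ) (hx : x ≠ 0) :
    HasDerivAt (fun y : ℝ => Wd (c * y ^ 2)) (x⁻¹ * W1 (c * x ^ 2)) x := by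
  have h1 : HasDerivAt Wd (deriv Wd (c * x ^ 2)) (c * x ^ 2) :=
    ((wd_wt.1.differentiable (by norm_num)) _).hasDerivAt
  have h2 : HasDerivAt (fun y : ℝ => c * y ^ 2) (c * (2 * x)) x := by
    have := (hasDerivAt_pow 2 x).const_mul c
    simpa using this
  have h3 := h1.comp x h2
  refine h3.congr_deriv ?_
  unfold W1
  field_simp

/-- the derivative of a block with respect to the scale -/
theorem psi_deriv (χ : Mul K) (X : ℝ) (hX : 0 < X) (s : ℂ) (x : ℝ) (hx : 1 ≤ x) :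
    HasDerivAt (fun θ : ℝ => BW K χ Wd (X / θ) s) (((x⁻¹ : ℝ) : ℂ) * BW K χ W1 (X / x) s) x := by
  have hx0 : (0 : ℝ) < x := by linarith
  have h1 : ∀ θ : ℝ, 1 / 2 < θ → BW K χ Wd (X / θ) s = ∑ I ∈ (finite_le K (8 * X)).toFinset,
      χ I * (Wd ((nm K I / X) ^ 2 * θ ^ 2) : ℂ) * (nm K I : ℂ) ^ (-s) := by
    intro θ hθ
    have hθ0 : (0 : ℝ) < θ := by linarith
    rw [BW_eq_sum K χ wd_wt (by positivity) (X := 8 * X)]
    · apply Finset.sum_congr rfl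
      intro I _
      have : (nm K I / (X / θ)) ^ 2 = (nm K I / X) ^ 2 * θ ^ 2 := by
        field_simp
      rw [this]
    · rw [mul_div_assoc', div_le_iff₀ hθ0]
      nlinarith
  have h2 : BW K χ W1 (X / x) s = ∑ I ∈ (finite_le K (8 * X)).toFinset,
      χ I * (W1 ((nm K I / X) ^ 2 * x ^ 2) : ℂ) * (nm K I : ℂ) ^ (-s) := by
    rw [BW_eq_sum K χ w1_wt (by positivity) (X := 8 * X)]
    · apply Finset.sum_congr rfl
      intro I _
      have : (nm K I / (X / x)) ^ 2 = (nm K I / X) ^ 2 * x ^ 2 := by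
        field_simp
      rw [this]
    · rw [mul_div_assoc', div_le_iff₀ hx0]
      nlinarith
  have h3 : HasDerivAt (fun θ : ℝ => ∑ I ∈ (finite_le K (8 * X)).toFinset,
      χ I * (Wd ((nm K I / X) ^ 2 * θ ^ 2) : ℂ) * (nm K I : ℂ) ^ (-s))
      (((x⁻¹ : ℝ) : ℂ) * BW K χ W1 (X / x) s) x := by
    rw [h2, Finset.mul_sum]
    apply HasDerivAt.fun_sum
    intro I _
    have h4 := ((wd_deriv ((nm K I / X) ^ 2) x hx0.ne').ofReal_comp.const_mul (χ I)).mul_const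
      ((nm K I : ℂ) ^ (-s))
    refine h4.congr_deriv ?_
    push_cast
    ring
  refine h3.congr_of_eventuallyEq ?_
  filter_upwards [Ioi_mem_nhds (show (1 : ℝ) / 2 < x by linarith)] with θ hθ
  exact h1 θ hθ

/-- the arithmetic of the exponents -/
theorem expo (C AH S Q X B r ε θ : ℝ) (hC : 0 ≤ C) (hQ : 1 ≤ Q)
    (hX : 0 < X) (hB : 1 ≤ B) (hBQ : B ≤ Q) (hε : 0 < ε) (hθ : 1 ≤ θ) :
    (C * AH * S ^ 2 * (Q * (X / θ)) ^ ε * (X / θ) ^ (1 - 2 * r)) *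
      ((B * θ) ^ (-(2 * r)) * (AH * (Q * B) ^ ε * (B + B ^ 2 / Q))) ≤
    (Real.sqrt (2 * C) * AH * S * Q ^ ε * (X * B) ^ ((ε + 1 - 2 * r) / 2)) ^ 2 := by
  have hQ0 : 0 < Q := by linarith
  have hB0 : 0 < B := by linarith
  have hθ0 : 0 < θ := by linarith
  have hU : 0 < X * B := by positivity
  have e1 : (Q * (X / θ)) ^ ε * (Q * B) ^ ε ≤ (Q ^ ε) ^ 2 * (X * B) ^ ε := by
    have h1 : (Q ^ ε) ^ 2 * (X * B) ^ ε = (X * B * Q ^ 2) ^ ε := by
      rw [Real.mul_rpow (x := X * B) (y := Q ^ 2) (by positivity) (by positivity),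
        Real.rpow_pow_comm hQ0.le, mul_comm]
    rw [h1, ← Real.mul_rpow (by positivity) (by positivity)]
    apply Real.rpow_le_rpow (by positivity) _ hε.le
    rw [show Q * (X / θ) * (Q * B) = (X * B * Q ^ 2) / θ by ring]
    exact div_le_self (by positivity) hθ
  have e2 : (X / θ) ^ (1 - 2 * r) * (B * θ) ^ (-(2 * r)) * (B + B ^ 2 / Q) ≤
      2 * (X * B) ^ (1 - 2 * r) := by
    have h1 : (X / θ) ^ (1 - 2 * r) * (B * θ) ^ (-(2 * r)) =
        X ^ (1 - 2 * r) * B ^ (-(2 * r)) * θ⁻¹ := by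
      rw [Real.div_rpow hX.le hθ0.le, Real.mul_rpow hB0.le hθ0.le]
      have h2 : θ ^ (-(2 * r)) = θ ^ (1 - 2 * r) * θ⁻¹ := by
        rw [← Real.rpow_neg_one, ← Real.rpow_add hθ0]
        congr 1; ring
      rw [h2]
      have h3 : (0 : ℝ) < θ ^ (1 - 2 * r) := Real.rpow_pos_of_pos hθ0 _
      field_simp
    have h4 : (X * B) ^ (1 - 2 * r) = X ^ (1 - 2 * r) * B ^ (-(2 * r)) * B := by
      rw [Real.mul_rpow hX.le hB0.le, mul_assoc]
      congr 1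
      have : 1 - 2 * r = -(2 * r) + 1 := by ring
      rw [this, Real.rpow_add hB0, Real.rpow_one]
    have h5 : B + B ^ 2 / Q ≤ 2 * B := by
      have : B ^ 2 / Q ≤ B := by
        rw [div_le_iff₀ hQ0]
        nlinarith
      linarith
    have h6 : θ⁻¹ ≤ 1 := inv_le_one_of_one_le₀ hθ
    rw [h1, h4]
    have hp : 0 ≤ X ^ (1 - 2 * r) * B ^ (-(2 * r)) := by positivity
    calc X ^ (1 - 2 * r) * B ^ (-(2 * r)) * θ⁻¹ * (B + B ^ 2 / Q)
        ≤ X ^ (1 - 2 * r) * B ^ (-(2 * r)) * 1 * (2 * B) := by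
          apply mul_le_mul _ h5 (by positivity) (by positivity)
          exact mul_le_mul_of_nonneg_left h6 hp
      _ = _ := by ring
  have e3 : ((X * B) ^ ((ε + 1 - 2 * r) / 2)) ^ 2 = (X * B) ^ ε * (X * B) ^ (1 - 2 * r) := by
    rw [← Real.rpow_natCast, ← Real.rpow_mul hU.le, ← Real.rpow_add hU]
    congr 1
    push_cast
    ring
  have e4 : Real.sqrt (2 * C) ^ 2 = 2 * C := Real.sq_sqrt (by positivity)
  calc (C * AH * S ^ 2 * (Q * (X / θ)) ^ ε * (X / θ) ^ (1 - 2 * r)) *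
      ((B * θ) ^ (-(2 * r)) * (AH * (Q * B) ^ ε * (B + B ^ 2 / Q)))
      = (C * AH ^ 2 * S ^ 2) * (((Q * (X / θ)) ^ ε * (Q * B) ^ ε) *
        ((X / θ) ^ (1 - 2 * r) * (B * θ) ^ (-(2 * r)) * (B + B ^ 2 / Q))) := by ring
    _ ≤ (C * AH ^ 2 * S ^ 2) * (((Q ^ ε) ^ 2 * (X * B) ^ ε) * (2 * (X * B) ^ (1 - 2 * r))) := by
        apply mul_le_mul_of_nonneg_left _ (by positivity)
        apply mul_le_mul e1 e2 (by positivity) (by positivity)
    _ = _ := by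
        rw [mul_pow, mul_pow, mul_pow, mul_pow, e3, e4]
        ring

theorem cs {ι : Type*} (F : Finset ι) (a b : ι → ℝ) (P1 P2 D : ℝ) (hD : 0 ≤ D)
    (h1 : ∑ χ ∈ F, a χ ^ 2 ≤ P1) (h2 : ∑ χ ∈ F, b χ ^ 2 ≤ P2) (h : P1 * P2 ≤ D ^ 2) :
    ∑ χ ∈ F, a χ * b χ ≤ D := by
  have h3 := Finset.sum_mul_sq_le_sq_mul_sq F a b
  have h4 : (∑ χ ∈ F, a χ ^ 2) * (∑ χ ∈ F, b χ ^ 2) ≤ P1 * P2 := by
    apply mul_le_mul h1 h2 (Finset.sum_nonneg fun _ _ => sq_nonneg _)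
    exact (Finset.sum_nonneg fun _ _ => sq_nonneg _).trans h1
  exact le_of_sq_le_sq ((h3.trans h4).trans h) hD

/-- one dyadic piece of the mollifier against one block -/
theorem dyad (F : Finset (Mul K)) (k : ℕ) (ε A H Q C : ℝ) (hA : 0 ≤ A) (hH : 0 ≤ H) (hQ : 1 ≤ Q)
    (hε : 0 < ε) (hC : 0 ≤ C) (hLS : LSI K F ε A H Q)
    (hblk : ∀ W : ℝ → ℝ, W = Wd ∨ W = W1 → ∀ Z : ℝ, 1 ≤ Z → ∀ s : ℂ, 0 ≤ s.re →
      ∑ χ ∈ F, ‖BW K χ W Z s‖ ^ 2 ≤
        C * (A * H) * (1 + ‖s‖) ^ (2 * k) * (Q * Z) ^ ε * Z ^ (1 - 2 * s.re))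
    (s : ℂ) (hs : 0 ≤ s.re) (X B : ℝ) (hX : 2 ≤ X) (hB : 1 ≤ B) (hBQ : B ≤ Q)
    (Bs : Finset (Ideal (𝓞 K))⁰) (hBs : ∀ b ∈ Bs, B < nm K b ∧ nm K b ≤ 2 * B) :
    ∑ χ ∈ F, ‖∑ b ∈ Bs, mt K χ s b * BW K χ Wd (X * B / nm K b) s‖ ≤
      2 * (Real.sqrt (2 * C) * (A * H) * (1 + ‖s‖) ^ k * Q ^ ε *
        (X * B) ^ ((ε + 1 - 2 * s.re) / 2)) := by
  have hX0 : 0 < X := by linarith
  have hB0 : 0 < B := by linarith
  have hQ0 : 0 < Q := by linarith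
  have hAH : 0 ≤ A * H := mul_nonneg hA hH
  set D := Real.sqrt (2 * C) * (A * H) * (1 + ‖s‖) ^ k * Q ^ ε *
    (X * B) ^ ((ε + 1 - 2 * s.re) / 2) with hD
  have hD0 : 0 ≤ D := by positivity
  -- the common estimate
  have main : ∀ W : ℝ → ℝ, W = Wd ∨ W = W1 → ∀ x : ℝ, 1 ≤ x → x < 2 →
      ∀ T : Finset (Ideal (𝓞 K))⁰, (∀ b ∈ T, B < nm K b ∧ nm K b ≤ 2 * B ∧ B * x ≤ nm K b) →
      ∑ χ ∈ F, ‖BW K χ W (X / x) s‖ * ‖∑ b ∈ T, mt K χ s b‖ ≤ D := by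
    intro W hW x hx1 hx2 T hT
    have hx0 : 0 < x := by linarith
    have hXx : 1 ≤ X / x := by
      rw [le_div_iff₀ hx0]
      linarith
    refine cs F _ _ _ _ D hD0 (hblk W hW (X / x) hXx s hs)
      (S_mean K F ε A H Q hLS B hB (B * x) (by positivity) s hs T hT) ?_
    have h := expo C (A * H) ((1 + ‖s‖) ^ k) Q X B s.re ε x hC hQ hX0 hB hBQ hε hx1
    rw [← pow_mul, mul_comm k 2] at h
    exact h
  have hps := abs_ps F Bs (fun χ θ => BW K χ Wd (X / θ) s)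
    (fun χ x => ((x⁻¹ : ℝ) : ℂ) * BW K χ W1 (X / x) s) (fun χ b => mt K χ s b)
    (fun b => nm K b / B)
    (by
      intro b hb
      obtain ⟨h1, h2⟩ := hBs b hb
      constructor
      · rw [lt_div_iff₀ hB0]; linarith
      · rw [div_le_iff₀ hB0]; exact h2)
    (fun χ _ x hx => psi_deriv K χ X hX0 s x hx.1) D D
    (by
      have := main Wd (Or.inl rfl) 1 le_rfl (by norm_num) Bs (fun b hb =>
        ⟨(hBs b hb).1, (hBs b hb).2, by rw [mul_one]; exact (hBs b hb).1.le⟩)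
      simpa using this)
    (by
      intro x hx
      have h1 := main W1 (Or.inr rfl) x hx.1 hx.2 (Bs.filter (fun b => x < nm K b / B)) (by
        intro b hb
        rw [Finset.mem_filter] at hb
        refine ⟨(hBs b hb.1).1, (hBs b hb.1).2, ?_⟩
        have := hb.2
        rw [lt_div_iff₀ hB0] at this
        rw [mul_comm]
        exact this.le)
      refine le_trans (Finset.sum_le_sum fun χ _ => ?_) h1
      apply mul_le_mul_of_nonneg_right _ (norm_nonneg _)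
      rw [norm_mul, Complex.norm_real, Real.norm_eq_abs, abs_of_nonneg (by
        have := hx.1
        positivity)]
      have h2 : x⁻¹ ≤ 1 := inv_le_one_of_one_le₀ hx.1
      calc x⁻¹ * ‖BW K χ W1 (X / x) s‖ ≤ 1 * ‖BW K χ W1 (X / x) s‖ :=
            mul_le_mul_of_nonneg_right h2 (norm_nonneg _)
        _ = _ := one_mul _)
  have heq : ∀ χ : Mul K, ∑ b ∈ Bs, mt K χ s b * BW K χ Wd (X * B / nm K b) s =
      ∑ b ∈ Bs, mt K χ s b * BW K χ Wd (X / (nm K b / B)) s := by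
    intro χ
    apply Finset.sum_congr rfl
    intro b _
    have : X * B / nm K b = X / (nm K b / B) := by
      have := (nm_posP K b).ne'
      field_simp
    rw [this]
  simp only [heq]
  refine hps.trans (le_of_eq ?_)
  ring

theorem log_count (ε : ℝ) (hε : 0 < ε) (z Y : ℝ) (hz : 1 ≤ z) (hzY : z ≤ Y) :
    ((Nat.log 2 ⌊z⌋₊ + 1 : ℕ) : ℝ) ≤ (1 + 1 / (ε * Real.log 2)) * Y ^ ε := by
  have hY : 1 ≤ Y := hz.trans hzY
  have hl2 : 0 < Real.log 2 := Real.log_pos (by norm_num)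
  have hfl : ⌊z⌋₊ ≠ 0 := by
    have : 1 ≤ ⌊z⌋₊ := Nat.le_floor (by simpa using hz)
    omega
  have h1 : (2 : ℝ) ^ (Nat.log 2 ⌊z⌋₊) ≤ Y := by
    have h2 : 2 ^ (Nat.log 2 ⌊z⌋₊) ≤ ⌊z⌋₊ := Nat.pow_log_le_self 2 hfl
    have h3 : ((2 ^ (Nat.log 2 ⌊z⌋₊) : ℕ) : ℝ) ≤ ⌊z⌋₊ := by exact_mod_cast h2
    push_cast at h3
    exact (h3.trans (Nat.floor_le (by linarith))).trans hzY
  have h4 : (Nat.log 2 ⌊z⌋₊ : ℝ) * Real.log 2 ≤ Real.log Y := by
    rw [← Real.log_pow]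
    exact Real.log_le_log (by positivity) h1
  have h5 : Real.log Y ≤ Y ^ ε / ε := Real.log_le_rpow_div (by linarith) hε
  have h6 : (Nat.log 2 ⌊z⌋₊ : ℝ) ≤ 1 / (ε * Real.log 2) * Y ^ ε := by
    rw [div_mul_eq_mul_div, one_mul, le_div_iff₀ (by positivity)]
    have h7 := h4.trans h5
    rw [le_div_iff₀ hε] at h7
    linarith
  have h8 : 1 ≤ Y ^ ε := Real.one_le_rpow hY hε.le
  push_cast
  linarith

theorem scale_bound (ε σ r Y : ℝ) (_hε : 0 < ε) (hσ : 1 / 2 + ε ≤ σ) (hr : σ ≤ r) (hY : 1 ≤ Y)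
    (j : ℕ) : (2 ^ j * Y) ^ ((ε + 1 - 2 * r) / 2) ≤
      ((2 : ℝ) ^ (-(ε / 2))) ^ j * Y ^ (ε / 2 + (1 / 2 - σ)) := by
  rw [Real.mul_rpow (by positivity) (by linarith)]
  apply mul_le_mul _ _ (Real.rpow_nonneg (by linarith) _) (by positivity)
  · rw [← Real.rpow_pow_comm (by norm_num)]
    apply pow_le_pow_left₀ (by positivity)
    apply Real.rpow_le_rpow_of_exponent_le (by norm_num)
    linarith
  · apply Real.rpow_le_rpow_of_exponent_le hY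
    linarith

end BP

open BP in
theorem bpart_mean (k : ℕ) (ε : ℝ) (hε : 0 < ε) (σ : ℝ) (hσ : 1 / 2 + ε ≤ σ) :
    ∃ C : ℝ, 0 < C ∧
    ∀ (K : Type) [Field K] [NumberField K] (F : Finset (Mul K)) (A H Q : ℝ), 0 ≤ A → 0 ≤ H →
      1 ≤ Q → (∀ χ ∈ F, ∀ I, ‖χ I‖ ≤ 1) → LSI K F ε A H Q → LSII K F k ε A H Q →
    ∀ L : Mul K → ℂ → ℂ, (∀ χ ∈ F, IsLf K χ (L χ)) →
    ∀ z Y : ℝ, 1 ≤ z → z ≤ Q → 2 * z ≤ Y → ∀ s : ℂ, σ ≤ s.re →
      ∑ χ ∈ F, ‖bpart K χ (L χ) z Y s‖ ≤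
        C * (A * H) * (1 + ‖s‖) ^ k * Q ^ ε * Y ^ (2 * ε) * Y ^ (1 / 2 - σ) := by
  classical
  obtain ⟨Cd, hCd, hd⟩ := block_mean Wd wd_wt k
  obtain ⟨C1, hC1, h1⟩ := block_mean W1 w1_wt k
  set ρ : ℝ := (2 : ℝ) ^ (-(ε / 2)) with hρ
  have hρ0 : 0 < ρ := by positivity
  have hρ1 : ρ < 1 := Real.rpow_lt_one_of_one_lt_of_neg (by norm_num) (by linarith)
  have hl2 : 0 < Real.log 2 := Real.log_pos (by norm_num)
  set E : ℝ := 1 + 1 / (ε * Real.log 2) with hE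
  have hE0 : 0 < E := by positivity
  set Cs : ℝ := Real.sqrt (2 * (Cd + C1)) with hCs
  have hCs0 : 0 < Cs := Real.sqrt_pos.2 (by positivity)
  refine ⟨E * 2 * Cs / (1 - ρ), by
    have : 0 < 1 - ρ := by linarith
    positivity, ?_⟩
  intro K _ _ F A H Q hA hH hQ hχ hLS hLS2 L hL z Y hz hzQ hzY s hs
  have hAH : 0 ≤ A * H := mul_nonneg hA hH
  have hQ0 : 0 < Q := by linarith
  have hY1 : 1 ≤ Y := by linarith
  have hY0 : 0 < Y := by linarith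
  have hs0 : 0 ≤ s.re := by linarith
  have hblk : ∀ W : ℝ → ℝ, W = Wd ∨ W = W1 → ∀ Z : ℝ, 1 ≤ Z → ∀ s : ℂ, 0 ≤ s.re →
      ∑ χ ∈ F, ‖BW K χ W Z s‖ ^ 2 ≤
        (Cd + C1) * (A * H) * (1 + ‖s‖) ^ (2 * k) * (Q * Z) ^ ε * Z ^ (1 - 2 * s.re) := by
    intro W hW Z hZ s hs
    have hfac : 0 ≤ (A * H) * (1 + ‖s‖) ^ (2 * k) * (Q * Z) ^ ε * Z ^ (1 - 2 * s.re) := by
      have : 0 ≤ Z := by linarith
      positivity
    rcases hW with rfl | rfl
    · refine (hd K F ε A H Q hA hH hQ hLS2 Z hZ s hs).trans ?_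
      nlinarith [mul_nonneg hC1.le hfac]
    · refine (h1 K F ε A H Q hA hH hQ hLS2 Z hZ s hs).trans ?_
      nlinarith [mul_nonneg hCd.le hfac]
  set Bset := (idl K z).filter (fun b => 1 < nm K b) with hBset
  have hmem : ∀ b ∈ Bset, 1 < nm K b ∧ nm K b ≤ z := by
    intro b hb
    rw [hBset, Finset.mem_filter, idl, Set.Finite.mem_toFinset] at hb
    exact ⟨hb.2, hb.1⟩
  set T : ℕ → Mul K → ℂ := fun j χ =>
    ∑ b ∈ Bset, mt K χ s b * BW K χ Wd (2 ^ j * (Y / nm K b)) s with hT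
  -- expansion
  have hsum : ∀ χ ∈ F, HasSum (fun j => T j χ) (bpart K χ (L χ) z Y s) := by
    intro χ hχF
    have : bpart K χ (L χ) z Y s =
        ∑ b ∈ Bset, mt K χ s b * (L χ s - PP K χ (Y / nm K b) s) := by
      unfold bpart
      rw [hBset]
    rw [this]
    apply hasSum_sum
    intro b hb
    apply HasSum.mul_left
    apply cont K F k ε A H Q hε hA hH hQ hLS2 hχ χ hχF (L χ) (hL χ hχF)
    · rw [le_div_iff₀ (nm_posP K b)]
      have := (hmem b hb).2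
      linarith
    · linarith
  -- the bound for one `j`
  set M := Nat.log 2 ⌊z⌋₊ + 1 with hM
  set D0 : ℝ := Cs * (A * H) * (1 + ‖s‖) ^ k * Q ^ ε * Y ^ (ε / 2 + (1 / 2 - σ)) with hD0
  have hD00 : 0 ≤ D0 := by positivity
  have hfl : ⌊z⌋₊ ≠ 0 := by
    have : 1 ≤ ⌊z⌋₊ := Nat.le_floor (by simpa using hz)
    omega
  have hone : ∀ j : ℕ, ∑ χ ∈ F, ‖T j χ‖ ≤ (M : ℝ) * (2 * (D0 * ρ ^ j)) := by
    intro j
    set ind : (Ideal (𝓞 K))⁰ → ℕ := fun b =>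
      Nat.log 2 (Ideal.absNorm (b : Ideal (𝓞 K)) - 1) with hind
    have hmaps : ∀ b ∈ Bset, ind b ∈ Finset.range M := by
      intro b hb
      obtain ⟨h2, h3⟩ := hmem b hb
      rw [Finset.mem_range, hM]
      have h4 : Ideal.absNorm (b : Ideal (𝓞 K)) - 1 ≤ ⌊z⌋₊ := by
        have : Ideal.absNorm (b : Ideal (𝓞 K)) ≤ ⌊z⌋₊ := Nat.le_floor h3
        omega
      have := Nat.log_mono_right (b := 2) h4
      simp only [hind]
      omega
    have hsplit : ∀ χ : Mul K, T j χ = ∑ i ∈ Finset.range M,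
        ∑ b ∈ Bset.filter (fun b => ind b = i),
          mt K χ s b * BW K χ Wd ((2 ^ j * Y / 2 ^ i) * 2 ^ i / nm K b) s := by
      intro χ
      simp only [hT]
      rw [← Finset.sum_fiberwise_of_maps_to hmaps]
      apply Finset.sum_congr rfl
      intro i _
      apply Finset.sum_congr rfl
      intro b _
      have : 2 ^ j * (Y / nm K b) = (2 ^ j * Y / 2 ^ i) * 2 ^ i / nm K b := by
        have := (nm_posP K b).ne'
        field_simp
      rw [this]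
    have hdy : ∀ i ∈ Finset.range M, ∑ χ ∈ F, ‖∑ b ∈ Bset.filter (fun b => ind b = i),
          mt K χ s b * BW K χ Wd ((2 ^ j * Y / 2 ^ i) * 2 ^ i / nm K b) s‖ ≤
        2 * (D0 * ρ ^ j) := by
      intro i hi
      have hiz : (2 : ℝ) ^ i ≤ z := by
        have h2 : i ≤ Nat.log 2 ⌊z⌋₊ := by
          rw [Finset.mem_range, hM] at hi
          omega
        have h3 : 2 ^ i ≤ ⌊z⌋₊ :=
          (Nat.pow_le_pow_right (by norm_num) h2).trans (Nat.pow_log_le_self 2 hfl)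
        have h4 : ((2 ^ i : ℕ) : ℝ) ≤ ⌊z⌋₊ := by exact_mod_cast h3
        push_cast at h4
        exact h4.trans (Nat.floor_le (by linarith))
      have hX : 2 ≤ 2 ^ j * Y / 2 ^ i := by
        rw [le_div_iff₀ (by positivity)]
        have h2 : (1 : ℝ) ≤ 2 ^ j := one_le_pow₀ (by norm_num)
        nlinarith
      have h2 := dyad K F k ε A H Q (Cd + C1) hA hH hQ hε (by positivity) hLS hblk s hs0
        (2 ^ j * Y / 2 ^ i) (2 ^ i) hX (one_le_pow₀ (by norm_num)) (hiz.trans hzQ)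
        (Bset.filter (fun b => ind b = i)) (by
          intro b hb
          rw [Finset.mem_filter] at hb
          obtain ⟨hb1, hb2⟩ := hb
          have h3 := (hmem b hb1).1
          have h4 : 1 < Ideal.absNorm (b : Ideal (𝓞 K)) := by
            have : (1 : ℝ) < (Ideal.absNorm (b : Ideal (𝓞 K)) : ℝ) := h3
            exact_mod_cast this
          have h5 : 2 ^ i ≤ Ideal.absNorm (b : Ideal (𝓞 K)) - 1 := by
            rw [← hb2]
            exact Nat.pow_log_le_self 2 (by omega)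
          have h6 : Ideal.absNorm (b : Ideal (𝓞 K)) - 1 < 2 ^ (i + 1) := by
            rw [← hb2]
            exact Nat.lt_pow_succ_log_self (by norm_num) _
          constructor
          · have h7 : 2 ^ i < Ideal.absNorm (b : Ideal (𝓞 K)) := by omega
            have h8 : ((2 ^ i : ℕ) : ℝ) < (Ideal.absNorm (b : Ideal (𝓞 K)) : ℝ) := by
              exact_mod_cast h7
            push_cast at h8
            exact h8
          · have h7 : Ideal.absNorm (b : Ideal (𝓞 K)) ≤ 2 * 2 ^ i := by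
              rw [pow_succ] at h6
              omega
            have h8 : (Ideal.absNorm (b : Ideal (𝓞 K)) : ℝ) ≤ ((2 * 2 ^ i : ℕ) : ℝ) := by
              exact_mod_cast h7
            push_cast at h8
            exact h8)
      refine h2.trans ?_
      have h9 : 2 ^ j * Y / 2 ^ i * 2 ^ i = 2 ^ j * Y := by
        field_simp
      rw [h9]
      have h10 := scale_bound ε σ s.re Y hε hσ hs hY1 j
      apply mul_le_mul_of_nonneg_left _ (by norm_num)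
      calc Cs * (A * H) * (1 + ‖s‖) ^ k * Q ^ ε * (2 ^ j * Y) ^ ((ε + 1 - 2 * s.re) / 2)
          ≤ Cs * (A * H) * (1 + ‖s‖) ^ k * Q ^ ε * (ρ ^ j * Y ^ (ε / 2 + (1 / 2 - σ))) := by
            apply mul_le_mul_of_nonneg_left h10 (by positivity)
        _ = _ := by rw [hD0]; ring
    calc ∑ χ ∈ F, ‖T j χ‖ ≤ ∑ χ ∈ F, ∑ i ∈ Finset.range M,
          ‖∑ b ∈ Bset.filter (fun b => ind b = i),
            mt K χ s b * BW K χ Wd ((2 ^ j * Y / 2 ^ i) * 2 ^ i / nm K b) s‖ := by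
          apply Finset.sum_le_sum
          intro χ _
          rw [hsplit χ]
          exact norm_sum_le _ _
      _ = ∑ i ∈ Finset.range M, ∑ χ ∈ F, ‖∑ b ∈ Bset.filter (fun b => ind b = i),
            mt K χ s b * BW K χ Wd ((2 ^ j * Y / 2 ^ i) * 2 ^ i / nm K b) s‖ :=
          Finset.sum_comm
      _ ≤ ∑ i ∈ Finset.range M, 2 * (D0 * ρ ^ j) := Finset.sum_le_sum hdy
      _ = _ := by rw [Finset.sum_const, Finset.card_range, nsmul_eq_mul]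
  -- summation over `j`
  have hpart : ∀ N : ℕ, ∑ χ ∈ F, ‖∑ j ∈ Finset.range N, T j χ‖ ≤
      (M : ℝ) * (2 * D0) / (1 - ρ) := by
    intro N
    calc ∑ χ ∈ F, ‖∑ j ∈ Finset.range N, T j χ‖
        ≤ ∑ χ ∈ F, ∑ j ∈ Finset.range N, ‖T j χ‖ :=
          Finset.sum_le_sum fun χ _ => norm_sum_le _ _
      _ = ∑ j ∈ Finset.range N, ∑ χ ∈ F, ‖T j χ‖ := Finset.sum_comm
      _ ≤ ∑ j ∈ Finset.range N, (M : ℝ) * (2 * (D0 * ρ ^ j)) :=
          Finset.sum_le_sum fun j _ => hone j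
      _ = (M : ℝ) * (2 * D0) * ∑ j ∈ Finset.range N, ρ ^ j := by
          rw [Finset.mul_sum]
          apply Finset.sum_congr rfl
          intro j _
          ring
      _ ≤ (M : ℝ) * (2 * D0) * (1 - ρ)⁻¹ := by
          apply mul_le_mul_of_nonneg_left _ (by positivity)
          rw [← tsum_geometric_of_lt_one hρ0.le hρ1]
          exact (summable_geometric_of_lt_one hρ0.le hρ1).sum_le_tsum _
            (fun _ _ => by positivity)
      _ = _ := by rw [div_eq_mul_inv]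
  have hlim : Filter.Tendsto (fun N => ∑ χ ∈ F, ‖∑ j ∈ Finset.range N, T j χ‖) Filter.atTop
      (nhds (∑ χ ∈ F, ‖bpart K χ (L χ) z Y s‖)) := by
    apply tendsto_finsetSum
    intro χ hχF
    exact (hsum χ hχF).tendsto_sum_nat.norm
  have hfin := le_of_tendsto' hlim hpart
  refine hfin.trans ?_
  have h1ρ : 0 < 1 - ρ := by linarith
  have hMle := log_count ε hε z Y hz (by linarith)
  have hYexp : Y ^ ε * Y ^ (ε / 2 + (1 / 2 - σ)) ≤ Y ^ (2 * ε) * Y ^ (1 / 2 - σ) := by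
    rw [← Real.rpow_add hY0, ← Real.rpow_add hY0]
    apply Real.rpow_le_rpow_of_exponent_le hY1
    linarith
  calc (M : ℝ) * (2 * D0) / (1 - ρ) ≤ (E * Y ^ ε) * (2 * D0) / (1 - ρ) := by
        apply div_le_div_of_nonneg_right _ h1ρ.le
        exact mul_le_mul_of_nonneg_right hMle (by positivity)
    _ = (E * 2 * Cs / (1 - ρ) * (A * H) * (1 + ‖s‖) ^ k * Q ^ ε) *
        (Y ^ ε * Y ^ (ε / 2 + (1 / 2 - σ))) := by rw [hD0]; ring
    _ ≤ (E * 2 * Cs / (1 - ρ) * (A * H) * (1 + ‖s‖) ^ k * Q ^ ε) *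
        (Y ^ (2 * ε) * Y ^ (1 / 2 - σ)) :=
        mul_le_mul_of_nonneg_left hYexp (by positivity)
    _ = _ := by ring

end Pool.DM
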