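import Pool.Agent.DM.Defs

/-!
# Module BLOCKW: the block functions with a general smooth weight

PAPER PROOF. Same as `Pool.HDZ.block_nice` (`Pool/Agent/HDZ/Block.lean`, by helper66), which is the case
`W = Wd`; only smoothness of `W` and its support in `[3/2,10]` are used.
`wd_wt`, `w1_wt`: `SS` is smooth (`Real.smoothTransition.contDiff`), `Wd` vanishes for `v ≤ 3/2` (both terms are `1`)
and for `v ≥ 10` (both are `0`); the derivative of a smooth function is smooth, and it vanishes where the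
function is locally constant; at the end points `3/2` and `10` use that the derivative of `Wd` at `3/2` equals its
left derivative, which is `0` (or continuity of `deriv Wd`).
-/

namespace Pool.DM

open Pool.HDZ Pool.HDZ.BlockAux

theorem wd_wt : Wt Wd := by
  have hSS : ContDiff ℝ (⊤ : ℕ∞) SS :=
    Real.smoothTransition.contDiff.comp (contDiff_const.sub contDiff_id)
  refine ⟨(hSS.comp (contDiff_id.div_const 4)).sub hSS, ?_⟩
  rintro u (hu | hu)
  · show SS (u / 4) - SS u = 0
    by_cases hu' : 0 ≤ u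
    · rw [SS_one hu, SS_one (by linarith)]; ring
    · rw [SS_one hu, SS_one (by linarith)]; ring
  · show SS (u / 4) - SS u = 0
    rw [SS_zero (by linarith), SS_zero (by linarith)]; ring

private theorem wt_nw {W : ℝ → ℝ} (hW : Wt W) : NW W :=
  ⟨hW.1, fun u hu => hW.2 u (hu.imp le_of_lt le_of_lt)⟩

theorem w1_wt : Wt W1 := by
  have h := NW_deriv (wt_nw wd_wt)
  have hc : Continuous (deriv Wd) := h.1.continuous
  have hcl : IsClosed {v : ℝ | deriv Wd v = 0} := isClosed_eq hc continuous_const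
  have h1 : Set.Iic (3 / 2 : ℝ) ⊆ {v : ℝ | deriv Wd v = 0} := by
    rw [← closure_Iio]
    exact hcl.closure_subset_iff.mpr fun v hv => h.2 v (Or.inl hv)
  have h2 : Set.Ici (10 : ℝ) ⊆ {v : ℝ | deriv Wd v = 0} := by
    rw [← closure_Ioi]
    exact hcl.closure_subset_iff.mpr fun v hv => h.2 v (Or.inr hv)
  refine ⟨(contDiff_const.mul contDiff_id).mul h.1, ?_⟩
  rintro u (hu | hu)
  · have : deriv Wd u = 0 := h1 hu
    simp [W1, this]
  · have : deriv Wd u = 0 := h2 hu
    simp [W1, this]

theorem blockW_nice (W : ℝ → ℝ) (hW : Wt W) (k : ℕ) : ∃ C : ℝ, 0 < C ∧ ∀ s : ℂ, 0 ≤ s.re →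
    Pool.HDZ.NiceI k (C * (1 + ‖s‖) ^ k) (fun v : ℝ => (W v : ℂ) * (v : ℂ) ^ (-s / 2)) := by
  have hN := wt_nw hW
  choose C hC H using fun j => bound j _ hN
  refine ⟨∑ j ∈ Finset.range (k + 1), C j, Finset.sum_pos (fun j _ => hC j) (by simp), ?_⟩
  intro s hs
  refine ⟨(FW_contDiff hN s).of_le (by exact_mod_cast le_top), ?_, ?_⟩
  · intro j hj u
    rw [norm_iteratedFDeriv_eq_norm_iteratedDeriv]
    refine (H j s hs u).trans ?_
    have h1 : C j ≤ ∑ i ∈ Finset.range (k + 1), C i :=
      Finset.single_le_sum (f := C) (fun i _ => (hC i).le) (Finset.mem_range.2 (by omega))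
    have h2 : (1 + ‖s‖) ^ j ≤ (1 + ‖s‖) ^ k :=
      pow_le_pow_right₀ (by linarith [norm_nonneg s]) hj
    have h3 : 0 < (1 + ‖s‖) ^ j := by positivity
    have h4 := hC j
    exact mul_le_mul h1 h2 h3.le (h4.le.trans h1)
  · intro u hu
    have := hW.2 u hu
    simp only []
    rw [this]; simp

end Pool.DM
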