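import Pool.Agent.DM.Defs
import Pool.Agent.HDZ.HR
import Pool.Agent.ZD.Parseval

/-!
# Module CLASSLS: the two inequalities for the characters of the class group

PAPER PROOF. `chm χ` is the multiplicative function `I ↦ χ ([I])`; `‖chm χ I‖ = 1` (`norm_char`), and `χ ↦ chm χ` is injective
(`ClassGroup.mk0_surjective`). Let `X` be a finite set of characters, `h = classNumber K = card (ClassGroup)`.
`class_LSI`: `∑' I, c I * chm χ I = ∑_A χ(A) ∑_{I ∈ A} c(I)` (finite support), so by `Pool.ZD.bessel`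
`∑_{χ ∈ X} ‖…‖² ≤ h ∑_A ‖∑_{I ∈ A} c(I)‖² ≤ h ∑_A (#{I ∈ A : x < N I ≤ 2x})²`, and `Pool.HDZ.class_count` bounds it by
`C h RK K (DK K x)^ε (x + x² (DK K)^{-1/2})`; `(DK K)^{-1/2} = 1/√(DK K)` and `(DK K · x)^ε ≤ (√(DK K) x)^{2ε}`.
`class_LSII`: for nontrivial `χ`, `∑' I, chm χ I * g ((N I/Z)^2) = ∑_A χ(A) (∑_{I ∈ A} g(…) - rho (∫ g((max 0 u)^2)) Z)` because
`∑_A χ(A) = 0` (`Pool.ZD.sum_char`); `bessel` and `Pool.HDZ.class_mean`. (Compare `block_mean` in `Pool/Agent/ZD/Tail.lean` and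
`Pool/Agent/HDZ/Tail.lean`, `tsum_fibers` in `Pool/Agent/HDZ/Mean.lean`.)
-/

open scoped NumberField nonZeroDivisors
open NumberField Pool.ZD Pool.HDZ

namespace Pool.DM

/-- The multiplicative function attached to a class group character. -/
noncomputable def chm (K : Type) [Field K] [NumberField K] (χ : Chr K) : Mul K :=
  (Units.coeHom ℂ).comp (χ.comp ClassGroup.mk0)

theorem chm_apply (K : Type) [Field K] [NumberField K] (χ : Chr K) (I : (Ideal (𝓞 K))⁰) :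
    chm K χ I = ((χ (ClassGroup.mk0 I) : ℂˣ) : ℂ) := rfl

theorem chm_injective (K : Type) [Field K] [NumberField K] : Function.Injective (chm K) := by
  intro χ ψ h
  apply MonoidHom.ext
  intro A
  obtain ⟨I, rfl⟩ := ClassGroup.mk0_surjective A
  have h1 : chm K χ I = chm K ψ I := by rw [h]
  rw [chm_apply, chm_apply] at h1
  exact Units.ext h1

namespace ClassLSAux

variable (K : Type) [Field K] [NumberField K]

/-- A finitely supported sum against a character, split over the classes. -/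
theorem tsum_classes (χ : Chr K) (f : (Ideal (𝓞 K))⁰ → ℂ) (z : ℝ)
    (hf : ∀ I, z < nm K I → f I = 0) :
    ∑' I, f I * chm K χ I =
      ∑ A : ClassGroup (𝓞 K), ((χ A : ℂˣ) : ℂ) * ∑' I : Cls K A, f I := by
  classical
  have hsupp : ∀ I ∉ (finite_le K z).toFinset, f I * chm K χ I = 0 := by
    intro I hI
    rw [Set.Finite.mem_toFinset, Set.mem_setOf_eq, not_le] at hI
    rw [hf I hI, zero_mul]
  have hsum : Summable (fun I : (Ideal (𝓞 K))⁰ => f I * chm K χ I) :=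
    summable_of_ne_finset_zero hsupp
  let e := Equiv.sigmaFiberEquiv (fun I : (Ideal (𝓞 K))⁰ => ClassGroup.mk0 I)
  rw [← e.tsum_eq]
  have hsum' : Summable (fun c : (Σ A : ClassGroup (𝓞 K), Cls K A) =>
      f (e c) * chm K χ (e c)) := (e.summable_iff).mpr hsum
  rw [hsum'.tsum_sigma, tsum_fintype]
  apply Finset.sum_congr rfl
  intro A _
  rw [← tsum_mul_left]
  apply tsum_congr
  intro I
  have h3 : chm K χ (I : (Ideal (𝓞 K))⁰) = ((χ A : ℂˣ) : ℂ) := by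
    rw [chm_apply, I.2]
  change f (I : (Ideal (𝓞 K))⁰) * chm K χ (I : (Ideal (𝓞 K))⁰) = _
  rw [h3, mul_comm]

theorem norm_class_le (x : ℝ) (c : (Ideal (𝓞 K))⁰ → ℂ) (hc : ∀ I, ‖c I‖ ≤ 1)
    (hs : ∀ I, c I ≠ 0 → x < nm K I ∧ nm K I ≤ 2 * x) (A : ClassGroup (𝓞 K)) :
    ‖∑' I : Cls K A, c I‖ ≤
      (Nat.card {I : Cls K A // x < nm K I ∧ nm K I ≤ 2 * x} : ℝ) := by
  classical
  have hfin : {I : Cls K A | x < nm K I ∧ nm K I ≤ 2 * x}.Finite := by
    apply Set.Finite.of_finite_image (f := fun I : Cls K A => (I : (Ideal (𝓞 K))⁰))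
    · apply (finite_le K (2 * x)).subset
      rintro _ ⟨I, hI, rfl⟩
      exact hI.2
    · exact Subtype.val_injective.injOn
  have h1 : ∑' I : Cls K A, c I = ∑ I ∈ hfin.toFinset, c I := by
    apply tsum_eq_sum
    intro I hI
    rw [Set.Finite.mem_toFinset, Set.mem_setOf_eq] at hI
    by_contra h
    exact hI (hs I h)
  rw [h1]
  calc ‖∑ I ∈ hfin.toFinset, c I‖ ≤ ∑ I ∈ hfin.toFinset, ‖c I‖ := norm_sum_le _ _
    _ ≤ ∑ I ∈ hfin.toFinset, (1 : ℝ) := Finset.sum_le_sum fun I _ => hc I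
    _ = (hfin.toFinset.card : ℝ) := by simp
    _ = (Nat.card {I : Cls K A // x < nm K I ∧ nm K I ≤ 2 * x} : ℝ) := by
        congr 1
        rw [← Set.ncard_eq_toFinset_card _ hfin]
        rfl

theorem one_le_sqrt : 1 ≤ Real.sqrt (DK K) :=
  Real.one_le_sqrt.2 (HRaux.one_le_DK K)

theorem rpow_bound {x ε : ℝ} (hx : 1 ≤ x) (hε : 0 < ε) :
    (DK K * x) ^ (ε / 2) ≤ (Real.sqrt (DK K) * x) ^ ε := by
  have hD : 1 ≤ DK K := HRaux.one_le_DK K
  have h1 : DK K * x ≤ (Real.sqrt (DK K) * x) ^ (2 : ℝ) := by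
    have : (Real.sqrt (DK K) * x) ^ (2 : ℝ) = DK K * x ^ 2 := by
      norm_cast
      rw [mul_pow, Real.sq_sqrt (by linarith)]
    rw [this]
    have h2 : x ≤ x ^ 2 := by nlinarith
    exact mul_le_mul_of_nonneg_left h2 (by linarith)
  calc (DK K * x) ^ (ε / 2) ≤ ((Real.sqrt (DK K) * x) ^ (2 : ℝ)) ^ (ε / 2) := by
        apply Real.rpow_le_rpow _ h1 (by linarith)
        exact mul_nonneg (by linarith) (by linarith)
    _ = (Real.sqrt (DK K) * x) ^ ε := by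
        rw [← Real.rpow_mul (mul_nonneg (Real.sqrt_nonneg _) (by linarith))]
        congr 1
        ring

end ClassLSAux

open ClassLSAux

open scoped Classical in
theorem class_LSI (m : ℕ) (hm : 2 ≤ m) (ε : ℝ) (hε : 0 < ε) : ∃ C : ℝ, 0 < C ∧
    ∀ (K : Type) [Field K] [NumberField K], Module.finrank ℚ K = m →
    ∀ X : Finset (Chr K),
      LSI K (X.image (chm K)) ε C (classNumber K * RK K) (Real.sqrt (DK K)) := by
  obtain ⟨C, hC, hcount⟩ := Pool.HDZ.class_count m hm (ε / 2) (by positivity)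
  refine ⟨C, hC, ?_⟩
  intro K _ _ hK X x hx c hc hs
  have hD : 1 ≤ DK K := HRaux.one_le_DK K
  have hR : 0 ≤ RK K := HRaux.RK_nonneg K
  rw [Finset.sum_image (fun χ _ ψ _ h => chm_injective K h)]
  have h1 : ∀ χ ∈ X, ‖∑' I, c I * chm K χ I‖ ^ 2 =
      ‖∑ A : ClassGroup (𝓞 K), ((χ A : ℂˣ) : ℂ) * ∑' I : Cls K A, c I‖ ^ 2 := by
    intro χ _
    rw [tsum_classes K χ c (2 * x)]
    intro I hI
    by_contra h
    exact absurd (hs I h).2 (not_le.2 hI)
  rw [Finset.sum_congr rfl h1]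
  have h2 := bessel X (fun A : ClassGroup (𝓞 K) => ∑' I : Cls K A, c I)
  have hcard : (Fintype.card (ClassGroup (𝓞 K)) : ℝ) = classNumber K := rfl
  rw [hcard] at h2
  refine h2.trans ?_
  have h3 : ∑ A : ClassGroup (𝓞 K), ‖∑' I : Cls K A, c I‖ ^ 2 ≤
      C * RK K * (DK K * x) ^ (ε / 2) * (x + x ^ 2 * DK K ^ (-(1 / 2) : ℝ)) := by
    refine le_trans (Finset.sum_le_sum fun A _ => ?_) (hcount K hK x hx)
    exact pow_le_pow_left₀ (norm_nonneg _) (norm_class_le K x c hc hs A) 2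
  have h4 : x ^ 2 * DK K ^ (-(1 / 2) : ℝ) = x ^ 2 / Real.sqrt (DK K) := by
    rw [Real.rpow_neg (by linarith), ← Real.sqrt_eq_rpow]
    rfl
  rw [h4] at h3
  calc (classNumber K : ℝ) * ∑ A : ClassGroup (𝓞 K), ‖∑' I : Cls K A, c I‖ ^ 2
      ≤ classNumber K * (C * RK K * (DK K * x) ^ (ε / 2) * (x + x ^ 2 / Real.sqrt (DK K))) :=
        mul_le_mul_of_nonneg_left h3 (Nat.cast_nonneg _)
    _ ≤ classNumber K * (C * RK K * (Real.sqrt (DK K) * x) ^ ε * (x + x ^ 2 / Real.sqrt (DK K))) := by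
        have := rpow_bound K hx hε
        have h6 : 0 ≤ x + x ^ 2 / Real.sqrt (DK K) := by positivity
        gcongr
    _ = _ := by ring

open scoped Classical in
theorem class_LSII (m : ℕ) (hm : 2 ≤ m) (k : ℕ) (hk : m + 1 ≤ 2 * k) (ε : ℝ) (hε : 0 < ε) :
    ∃ C : ℝ, 0 < C ∧
    ∀ (K : Type) [Field K] [NumberField K], Module.finrank ℚ K = m →
    ∀ X : Finset (Chr K), (∀ χ ∈ X, χ ≠ 1) →
      LSII K (X.image (chm K)) k ε C (classNumber K * RK K) (Real.sqrt (DK K)) := by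
  obtain ⟨C, hC, hmean⟩ := Pool.HDZ.class_mean m hm k hk (ε / 2) (by positivity)
  refine ⟨C, hC, ?_⟩
  intro K _ _ hK X hX G g hg Z hZ
  have hD : 1 ≤ DK K := HRaux.one_le_DK K
  have hR : 0 ≤ RK K := HRaux.RK_nonneg K
  have hZ0 : 0 < Z := by linarith
  rw [Finset.sum_image (fun χ _ ψ _ h => chm_injective K h)]
  set T : ClassGroup (𝓞 K) → ℂ := fun A => ∑' I : Cls K A, g ((nm K I / Z) ^ 2) with hT
  set c : ℂ := (rho K : ℂ) * (∫ u, g ((max 0 u) ^ 2)) * (Z : ℂ) with hc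
  have h1 : ∀ χ ∈ X, ‖∑' I, chm K χ I * g ((nm K I / Z) ^ 2)‖ ^ 2 =
      ‖∑ A : ClassGroup (𝓞 K), ((χ A : ℂˣ) : ℂ) * (T A - c)‖ ^ 2 := by
    intro χ hχ
    have e1 : ∑' I, chm K χ I * g ((nm K I / Z) ^ 2) =
        ∑ A : ClassGroup (𝓞 K), ((χ A : ℂˣ) : ℂ) * T A := by
      rw [hT]
      simp only
      rw [← tsum_classes K χ (fun I => g ((nm K I / Z) ^ 2)) (4 * Z)]
      · exact tsum_congr fun I => mul_comm _ _
      · intro I hI
        apply hg.2.2
        right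
        have h5 : 4 < nm K I / Z := by rwa [lt_div_iff₀ hZ0]
        nlinarith
    have h2 : ∑ A : ClassGroup (𝓞 K), ((χ A : ℂˣ) : ℂ) * (T A - c) =
        ∑ A : ClassGroup (𝓞 K), ((χ A : ℂˣ) : ℂ) * T A -
          (∑ A : ClassGroup (𝓞 K), ((χ A : ℂˣ) : ℂ)) * c := by
      rw [Finset.sum_mul, ← Finset.sum_sub_distrib]
      apply Finset.sum_congr rfl
      intro A _
      ring
    rw [h2, sum_char χ (hX χ hχ), zero_mul, sub_zero, e1]
  rw [Finset.sum_congr rfl h1]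
  have h3 := bessel X (fun A => T A - c)
  have h4 := hmean K hK G g hg Z hZ
  have hcard : (Fintype.card (ClassGroup (𝓞 K)) : ℝ) = classNumber K := rfl
  rw [hcard] at h3
  refine h3.trans ?_
  calc (classNumber K : ℝ) * ∑ A : ClassGroup (𝓞 K), ‖T A - c‖ ^ 2
      ≤ classNumber K * (C * G ^ 2 * RK K * Z * (DK K * Z) ^ (ε / 2)) :=
        mul_le_mul_of_nonneg_left h4 (Nat.cast_nonneg _)
    _ ≤ classNumber K * (C * G ^ 2 * RK K * Z * (Real.sqrt (DK K) * Z) ^ ε) := by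
        have := rpow_bound K hZ hε
        gcongr
    _ = _ := by ring

end Pool.DM
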