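import Pool.Agent.DM.BMean
import Pool.Agent.ZD.Tail

/-!
# Module CONT: the tail of the L-function as a sum of smooth blocks

PAPER PROOF (see `Pool/Agent/ZD/Tail.lean` and `Pool/Agent/HDZ/Tail.lean`, same method). Let `χ ∈ F`. By `block_mean`
with `W = Wd`, `‖BW K χ Wd (2^j Z) s‖ ≤ (C A H (1+‖s‖)^{2k} (Q 2^j Z)^ε (2^j Z)^{1 - 2 re s})^{1/2}`, which for
`re s ≥ (1+ε)/2 + η`, `‖s‖ ≤ B` is `≤ C' 2^{-j η}`: the series `∑_j BW K χ Wd (2^j Z) s` of entire functions (finite sums)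
converges uniformly on such sets, so its sum `R (s)` is analytic on `re s > (1+ε)/2`. Telescoping
(`Wd ((N/(2^j Z))^2) = SS ((N/(2^{j+1} Z))^2) - SS ((N/(2^j Z))^2)`) and dominated convergence (`‖χ I‖ ≤ 1`,
`summable_nm`) give `R s = L s - PP K χ Z s` for `re s > 1`; both sides are analytic on the half plane
`re s > max (1/2) ((1+ε)/2) = (1+ε)/2`, so they agree there (identity theorem, preconnected half plane).

`exists_cont`: given the hypothesis for every `ε`, for `χ` alone; take `L = PP K χ 1 + R`, `R` the sum of the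
blocks (`Z = 1`); it is analytic on `re s > 1/2` since `ε` is arbitrary. Absolute convergence of the Dirichlet series for
`re s > 1` comes from `‖χ I‖ ≤ 1` and `summable_nm`.
-/

open scoped NumberField nonZeroDivisors
open NumberField Pool.ZD Pool.HDZ

namespace Pool.DM

namespace ContAux

section blocks

variable (K : Type) [Field K] [NumberField K]

theorem nm_pos (I : (Ideal (𝓞 K))⁰) : 0 < nm K I := lt_of_lt_of_le zero_lt_one (one_le_nm K I)

theorem sq_ge {a b c : ℝ} (hb : 0 < b) (hc : 0 ≤ c) (h : c * b < a) : c ^ 2 ≤ (a / b) ^ 2 := by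
  refine pow_le_pow_left₀ hc ?_ 2
  rw [le_div_iff₀ hb]
  exact h.le

theorem Wd_zero {v : ℝ} (hv : 16 ≤ v) : Wd v = 0 := by
  unfold Wd
  rw [SS_zero (by linarith), SS_zero (by linarith), sub_zero]

theorem Wd_out {Y : ℝ} (hY : 0 < Y) (I : (Ideal (𝓞 K))⁰)
    (hI : I ∉ (finite_le K (4 * Y)).toFinset) : Wd ((nm K I / Y) ^ 2) = 0 := by
  rw [Set.Finite.mem_toFinset, Set.mem_ofPred_eq, not_le] at hI
  apply Wd_zero
  have := sq_ge (c := 4) hY (by norm_num) hI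
  norm_num at this
  exact this

theorem SS_out {Y : ℝ} (hY : 0 < Y) (I : (Ideal (𝓞 K))⁰)
    (hI : I ∉ (finite_le K (2 * Y)).toFinset) : SS ((nm K I / Y) ^ 2) = 0 := by
  rw [Set.Finite.mem_toFinset, Set.mem_ofPred_eq, not_le] at hI
  apply SS_zero
  have := sq_ge (c := 2) hY (by norm_num) hI
  norm_num at this
  linarith

theorem diff_term (I : (Ideal (𝓞 K))⁰) (c : ℂ) :
    Differentiable ℂ (fun s : ℂ => c * (nm K I : ℂ) ^ (-s)) := by
  apply Differentiable.const_mul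
  intro s
  have hne : (nm K I : ℂ) ≠ 0 := by
    rw [Complex.ofReal_ne_zero]; exact (nm_pos K I).ne'
  exact (differentiableAt_id.neg).const_cpow (Or.inl hne)

theorem BW_differentiable (χ : Mul K) {Y : ℝ} (hY : 0 < Y) : Differentiable ℂ (BW K χ Wd Y) := by
  have h : BW K χ Wd Y = fun s => ∑ I ∈ (finite_le K (4 * Y)).toFinset,
      χ I * (Wd ((nm K I / Y) ^ 2) : ℂ) * (nm K I : ℂ) ^ (-s) := by
    funext s
    unfold BW
    apply tsum_eq_sum
    intro I hI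
    rw [Wd_out K hY I hI]
    simp
  rw [h]
  apply Differentiable.fun_sum
  intro I _
  exact diff_term K I _

theorem PP_differentiable (χ : Mul K) {Y : ℝ} (hY : 0 < Y) : Differentiable ℂ (PP K χ Y) := by
  have h : PP K χ Y = fun s => ∑ I ∈ (finite_le K (2 * Y)).toFinset,
      χ I * (SS ((nm K I / Y) ^ 2) : ℂ) * (nm K I : ℂ) ^ (-s) := by
    funext s
    unfold PP BW
    apply tsum_eq_sum
    intro I hI
    rw [SS_out K hY I hI]
    simp
  rw [h]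
  apply Differentiable.fun_sum
  intro I _
  exact diff_term K I _

theorem PP_summable (χ : Mul K) {Z : ℝ} (hZ : 0 < Z) (s : ℂ) :
    Summable (fun I : (Ideal (𝓞 K))⁰ =>
      χ I * (SS ((nm K I / Z) ^ 2) : ℂ) * (nm K I : ℂ) ^ (-s)) := by
  apply summable_of_ne_finset_zero (s := (finite_le K (2 * Z)).toFinset)
  intro I hI
  rw [SS_out K hZ I hI]
  simp

theorem PP_step (χ : Mul K) {Z : ℝ} (hZ : 0 < Z) (s : ℂ) :
    PP K χ (2 * Z) s = PP K χ Z s + BW K χ Wd Z s := by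
  unfold PP BW
  rw [← Summable.tsum_add (PP_summable K χ hZ s)]
  · apply tsum_congr
    intro I
    have h1 : (nm K I / (2 * Z)) ^ 2 = (nm K I / Z) ^ 2 / 4 := by field_simp; ring
    unfold Wd
    rw [h1]
    push_cast
    ring
  · apply summable_of_ne_finset_zero (s := (finite_le K (4 * Z)).toFinset)
    intro I hI
    rw [Wd_out K hZ I hI]
    simp

theorem PP_pow (χ : Mul K) {Z : ℝ} (hZ : 0 < Z) (s : ℂ) (J : ℕ) :
    PP K χ (2 ^ J * Z) s = PP K χ Z s + ∑ j ∈ Finset.range J, BW K χ Wd (2 ^ j * Z) s := by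
  induction J with
  | zero => simp
  | succ J ih =>
    rw [Finset.sum_range_succ, ← add_assoc, ← ih, ← PP_step K χ (by positivity) s]
    congr 1
    ring

theorem PP_tendsto (χ : Mul K) (hb : ∀ I, ‖χ I‖ ≤ 1) {Z : ℝ} (hZ : 0 < Z) {s : ℂ}
    (hs : 1 < s.re) :
    Filter.Tendsto (fun J : ℕ => PP K χ (2 ^ J * Z) s) Filter.atTop
      (nhds (∑' I : (Ideal (𝓞 K))⁰, χ I * (nm K I : ℂ) ^ (-s))) := by
  unfold PP BW
  apply tendsto_tsum_of_dominated_convergence (summable_nm K s.re hs)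
  · intro I
    apply tendsto_const_nhds.congr'
    have h1 : ∀ᶠ J : ℕ in Filter.atTop, nm K I / Z ≤ 2 ^ J :=
      (tendsto_pow_atTop_atTop_of_one_lt (one_lt_two : (1 : ℝ) < 2)).eventually_ge_atTop _
    filter_upwards [h1] with J hJ
    rw [SS_one]
    · simp
    · rw [div_le_iff₀ hZ] at hJ
      have h2 : nm K I / (2 ^ J * Z) ≤ 1 := by
        rw [div_le_one (by positivity)]
        exact hJ
      have h3 : 0 ≤ nm K I / (2 ^ J * Z) := div_nonneg (nm_pos K I).le (by positivity)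
      nlinarith
  · apply Filter.Eventually.of_forall
    intro J I
    rw [norm_mul, norm_mul, Complex.norm_real, Real.norm_eq_abs,
      abs_of_nonneg (SS_nonneg _), Complex.norm_cpow_eq_rpow_re_of_pos (nm_pos K I),
      Complex.neg_re]
    have h4 : ‖χ I‖ * SS ((nm K I / (2 ^ J * Z)) ^ 2) ≤ 1 * 1 :=
      mul_le_mul (hb I) (SS_le_one _) (SS_nonneg _) zero_le_one
    calc ‖χ I‖ * SS ((nm K I / (2 ^ J * Z)) ^ 2) * nm K I ^ (-s.re) ≤
          1 * 1 * nm K I ^ (-s.re) := by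
          apply mul_le_mul_of_nonneg_right h4
          exact Real.rpow_nonneg (nm_pos K I).le _
      _ = nm K I ^ (-s.re) := by rw [one_mul, one_mul]

theorem L_summable (χ : Mul K) (hb : ∀ I, ‖χ I‖ ≤ 1) {s : ℂ} (hs : 1 < s.re) :
    Summable (fun I : (Ideal (𝓞 K))⁰ => χ I * (nm K I : ℂ) ^ (-s)) := by
  apply Summable.of_norm_bounded (summable_nm K s.re hs)
  intro I
  rw [norm_mul, Complex.norm_cpow_eq_rpow_re_of_pos (nm_pos K I), Complex.neg_re]
  calc ‖χ I‖ * nm K I ^ (-s.re) ≤ 1 * nm K I ^ (-s.re) := by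
        apply mul_le_mul_of_nonneg_right (hb I)
        exact Real.rpow_nonneg (nm_pos K I).le _
    _ = nm K I ^ (-s.re) := one_mul _

end blocks

theorem pow_rpow {Z : ℝ} (hZ : 0 < Z) (j : ℕ) (a : ℝ) :
    ((2 : ℝ) ^ j * Z) ^ a = ((2 : ℝ) ^ a) ^ j * Z ^ a := by
  rw [Real.mul_rpow (by positivity) hZ.le, ← Real.rpow_natCast, ← Real.rpow_natCast,
    ← Real.rpow_mul (by norm_num), ← Real.rpow_mul (by norm_num), mul_comm (j : ℝ) a]

/-- Bound of one block. -/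
theorem one_block (K : Type) [Field K] [NumberField K] (F : Finset (Mul K)) (k : ℕ)
    (ε A H Q : ℝ) (hA : 0 ≤ A) (hH : 0 ≤ H) (hQ : 1 ≤ Q) (hLS : LSII K F k ε A H Q) :
    ∃ M : ℝ, 0 ≤ M ∧ ∀ χ ∈ F, ∀ s : ℂ, 0 ≤ s.re → ∀ Y : ℝ, 1 ≤ Y →
      ‖BW K χ Wd Y s‖ ≤ M * (1 + ‖s‖) ^ k * Y ^ ((1 + ε) / 2 - s.re) := by
  obtain ⟨C, hC, hblock⟩ := block_mean Wd wd_wt k
  set M : ℝ := C * (A * H) * Q ^ ε with hM
  have hM0 : 0 ≤ M := by
    have : 0 ≤ Q ^ ε := Real.rpow_nonneg (by linarith) _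
    positivity
  refine ⟨Real.sqrt M, Real.sqrt_nonneg _, ?_⟩
  intro χ hχ s hs Y hY
  have hY0 : 0 < Y := by linarith
  have h1 := hblock K F ε A H Q hA hH hQ hLS Y hY s hs
  have h0 : ‖BW K χ Wd Y s‖ ^ 2 ≤ ∑ χ ∈ F, ‖BW K χ Wd Y s‖ ^ 2 :=
    Finset.single_le_sum (f := fun χ => ‖BW K χ Wd Y s‖ ^ 2) (fun _ _ => sq_nonneg _) hχ
  have h2 : C * (A * H) * (1 + ‖s‖) ^ (2 * k) * (Q * Y) ^ ε * Y ^ (1 - 2 * s.re) =
      (Real.sqrt M * (1 + ‖s‖) ^ k * Y ^ ((1 + ε) / 2 - s.re)) ^ 2 := by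
    rw [mul_pow, mul_pow, Real.sq_sqrt hM0, hM, ← pow_mul, mul_comm k 2,
      ← Real.rpow_natCast (Y ^ _), ← Real.rpow_mul hY0.le, Real.mul_rpow (by linarith) hY0.le]
    have : ((1 + ε) / 2 - s.re) * ((2 : ℕ) : ℝ) = ε + (1 - 2 * s.re) := by push_cast; ring
    rw [this, Real.rpow_add hY0]
    ring
  rw [h2] at h1
  exact abs_le_of_sq_le_sq' (h0.trans h1) (by positivity) |>.2

section series

variable (K : Type) [Field K] [NumberField K]

/-- The bound of the blocks. -/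
def Bd (χ : Mul K) (k : ℕ) (ε M : ℝ) : Prop :=
  ∀ s : ℂ, 0 ≤ s.re → ∀ Y : ℝ, 1 ≤ Y →
    ‖BW K χ Wd Y s‖ ≤ M * (1 + ‖s‖) ^ k * Y ^ ((1 + ε) / 2 - s.re)

theorem two_pow_mul {Z : ℝ} (hZ : 1 ≤ Z) (j : ℕ) : (1 : ℝ) ≤ 2 ^ j * Z := by
  have : (1 : ℝ) ≤ 2 ^ j := one_le_pow₀ (by norm_num)
  nlinarith

theorem blocks_summable (χ : Mul K) (k : ℕ) (ε M : ℝ) (hε : 0 < ε) (h : Bd K χ k ε M)
    {Z : ℝ} (hZ : 1 ≤ Z) {s : ℂ} (hs : (1 + ε) / 2 < s.re) :
    Summable (fun j : ℕ => BW K χ Wd (2 ^ j * Z) s) := by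
  have hZ0 : 0 < Z := by linarith
  apply Summable.of_norm_bounded (g := fun j : ℕ =>
    M * (1 + ‖s‖) ^ k * (2 ^ j * Z) ^ ((1 + ε) / 2 - s.re)) _
      (fun j => h s (by linarith) _ (two_pow_mul hZ j))
  apply Summable.mul_left
  simp only [pow_rpow hZ0]
  apply Summable.mul_right
  apply summable_geometric_of_lt_one (Real.rpow_nonneg (by norm_num) _)
  exact Real.rpow_lt_one_of_one_lt_of_neg one_lt_two (by linarith)

theorem blocks_analytic (χ : Mul K) (k : ℕ) (ε M : ℝ) (hε : 0 < ε) (hM : 0 ≤ M)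
    (h : Bd K χ k ε M) {Z : ℝ} (hZ : 1 ≤ Z) {s₀ : ℂ} (hs₀ : (1 + ε) / 2 < s₀.re) :
    AnalyticAt ℂ (fun s => ∑' j : ℕ, BW K χ Wd (2 ^ j * Z) s) s₀ := by
  have hZ0 : 0 < Z := by linarith
  set c : ℝ := (s₀.re - (1 + ε) / 2) / 2 with hc
  have hc0 : 0 < c := by rw [hc]; linarith
  set B : ℝ := ‖s₀‖ + 1 with hB
  have hB0 : 0 ≤ B := by positivity
  set U : Set ℂ := {s | (1 + ε) / 2 + c < s.re} ∩ {s | ‖s‖ < B} with hU
  have hUo : IsOpen U :=
    (isOpen_lt continuous_const Complex.continuous_re).inter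
      (isOpen_lt continuous_norm continuous_const)
  have hs₀U : s₀ ∈ U := by
    constructor
    · rw [Set.mem_ofPred_eq, hc]; linarith
    · rw [Set.mem_ofPred_eq, hB]; linarith
  have hdiff : DifferentiableOn ℂ (fun s => ∑' j : ℕ, BW K χ Wd (2 ^ j * Z) s) U := by
    apply Complex.differentiableOn_tsum_of_summable_norm
      (u := fun j : ℕ => M * (1 + B) ^ k * (2 ^ j * Z) ^ (-c))
    · apply Summable.mul_left
      simp only [pow_rpow hZ0]
      apply Summable.mul_right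
      apply summable_geometric_of_lt_one (Real.rpow_nonneg (by norm_num) _)
      exact Real.rpow_lt_one_of_one_lt_of_neg one_lt_two (by linarith)
    · intro j
      exact (BW_differentiable K χ (by positivity)).differentiableOn
    · exact hUo
    · intro j s hs
      obtain ⟨hs1, hs2⟩ := hs
      rw [Set.mem_ofPred_eq] at hs1 hs2
      refine (h s (by linarith) _ (two_pow_mul hZ j)).trans ?_
      have h1 : (2 ^ j * Z) ^ ((1 + ε) / 2 - s.re) ≤ (2 ^ j * Z) ^ (-c) :=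
        Real.rpow_le_rpow_of_exponent_le (two_pow_mul hZ j) (by linarith)
      have h2 : 0 ≤ (2 ^ j * Z) ^ ((1 + ε) / 2 - s.re) := by positivity
      gcongr
  exact hdiff.analyticAt (hUo.mem_nhds hs₀U)

theorem blocks_eq (χ : Mul K) (hb : ∀ I, ‖χ I‖ ≤ 1) (k : ℕ) (ε M : ℝ) (hε : 0 < ε)
    (h : Bd K χ k ε M) {Z : ℝ} (hZ : 1 ≤ Z) {s : ℂ} (hs : (1 + ε) / 2 < s.re) (hs1 : 1 < s.re) :
    (∑' I : (Ideal (𝓞 K))⁰, χ I * (nm K I : ℂ) ^ (-s)) =
      PP K χ Z s + ∑' j : ℕ, BW K χ Wd (2 ^ j * Z) s := by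
  have hZ0 : 0 < Z := by linarith
  have h1 := PP_tendsto K χ hb hZ0 hs1
  have h2 : Filter.Tendsto (fun J : ℕ => PP K χ Z s +
      ∑ j ∈ Finset.range J, BW K χ Wd (2 ^ j * Z) s) Filter.atTop
      (nhds (PP K χ Z s + ∑' j : ℕ, BW K χ Wd (2 ^ j * Z) s)) :=
    tendsto_const_nhds.add (blocks_summable K χ k ε M hε h hZ hs).hasSum.tendsto_sum_nat
  have h3 : (fun J : ℕ => PP K χ (2 ^ J * Z) s) = (fun J : ℕ => PP K χ Z s +
      ∑ j ∈ Finset.range J, BW K χ Wd (2 ^ j * Z) s) := by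
    funext J; exact PP_pow K χ hZ0 s J
  rw [h3] at h1
  exact tendsto_nhds_unique h1 h2

end series

end ContAux

open ContAux

theorem cont (K : Type) [Field K] [NumberField K] (F : Finset (Mul K)) (k : ℕ) (ε A H Q : ℝ)
    (hε : 0 < ε) (hA : 0 ≤ A) (hH : 0 ≤ H) (hQ : 1 ≤ Q) (hLS : LSII K F k ε A H Q)
    (hb : ∀ χ ∈ F, ∀ I, ‖χ I‖ ≤ 1) : ∀ χ ∈ F, ∀ L : ℂ → ℂ, IsLf K χ L → ∀ Z : ℝ, 1 ≤ Z →
      ∀ s : ℂ, (1 + ε) / 2 < s.re →
        HasSum (fun j : ℕ => BW K χ Wd (2 ^ j * Z) s) (L s - PP K χ Z s) := by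
  intro χ hχ L hL Z hZ s hs
  have hZ0 : 0 < Z := by linarith
  obtain ⟨M, hM, hone⟩ := one_block K F k ε A H Q hA hH hQ hLS
  have hBd : Bd K χ k ε M := hone χ hχ
  set U : Set ℂ := {s | (1 + ε) / 2 < s.re} with hU
  have hUc : IsPreconnected U :=
    (convex_halfSpace_re_gt ((1 + ε) / 2)).isPreconnected
  have hfa : AnalyticOnNhd ℂ (fun s => ∑' j : ℕ, BW K χ Wd (2 ^ j * Z) s) U :=
    fun s hs => blocks_analytic K χ k ε M hε hM hBd hZ hs
  have hga : AnalyticOnNhd ℂ (fun s => L s - PP K χ Z s) U := by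
    intro s hs
    have h1 : s ∈ {s : ℂ | 1 / 2 < s.re} := by
      rw [Set.mem_ofPred_eq]
      rw [hU, Set.mem_ofPred_eq] at hs
      linarith
    exact (hL.1 s h1).sub ((PP_differentiable K χ hZ0).analyticAt s)
  -- a point in the region of absolute convergence
  set p : ℂ := ((2 + ε : ℝ) : ℂ) with hp
  have hpre : p.re = 2 + ε := by rw [hp, Complex.ofReal_re]
  have hpU : p ∈ U := by rw [hU, Set.mem_ofPred_eq, hpre]; linarith
  have hev : (fun s => ∑' j : ℕ, BW K χ Wd (2 ^ j * Z) s) =ᶠ[nhds p]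
      (fun s => L s - PP K χ Z s) := by
    have hopen : IsOpen ({s : ℂ | (1 + ε) / 2 < s.re} ∩ {s : ℂ | 1 < s.re}) :=
      (isOpen_lt continuous_const Complex.continuous_re).inter
        (isOpen_lt continuous_const Complex.continuous_re)
    have hmem : p ∈ {s : ℂ | (1 + ε) / 2 < s.re} ∩ {s : ℂ | 1 < s.re} := by
      refine ⟨hpU, ?_⟩
      rw [Set.mem_ofPred_eq, hpre]; linarith
    filter_upwards [hopen.mem_nhds hmem] with t ht
    have h1 := blocks_eq K χ (hb χ hχ) k ε M hε hBd hZ ht.1 ht.2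
    have h2 := (hL.2 t ht.2).tsum_eq
    rw [← h2, h1]
    ring
  have heq := hfa.eqOn_of_preconnected_of_eventuallyEq hga hUc hpU hev
  have h3 : L s - PP K χ Z s = ∑' j : ℕ, BW K χ Wd (2 ^ j * Z) s := (heq hs).symm
  rw [h3]
  exact (blocks_summable K χ k ε M hε hBd hZ hs).hasSum

theorem exists_cont (K : Type) [Field K] [NumberField K] (χ : Mul K) (hb : ∀ I, ‖χ I‖ ≤ 1) (k : ℕ)
    (Q : ℝ) (hQ : 1 ≤ Q) (hLS : ∀ ε : ℝ, 0 < ε → ∃ A : ℝ, 0 ≤ A ∧ LSII K {χ} k ε A 1 Q) :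
    ∃ L : ℂ → ℂ, IsLf K χ L := by
  have hbd : ∀ ε : ℝ, 0 < ε → ∃ M : ℝ, 0 ≤ M ∧ Bd K χ k ε M := by
    intro ε hε
    obtain ⟨A, hA, hA2⟩ := hLS ε hε
    obtain ⟨M, hM, hone⟩ := one_block K {χ} k ε A 1 Q hA zero_le_one hQ hA2
    exact ⟨M, hM, hone χ (Finset.mem_singleton_self χ)⟩
  refine ⟨fun s => PP K χ 1 s + ∑' j : ℕ, BW K χ Wd (2 ^ j * 1) s, ?_, ?_⟩
  · intro s hs
    rw [Set.mem_ofPred_eq] at hs
    obtain ⟨M, hM, h⟩ := hbd (s.re - 1 / 2) (by linarith)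
    exact ((PP_differentiable K χ one_pos).analyticAt s).add
      (blocks_analytic K χ k _ M (by linarith) hM h le_rfl (by linarith))
  · intro s hs
    obtain ⟨M, hM, h⟩ := hbd 1 one_pos
    have h1 := blocks_eq K χ hb k 1 M one_pos h le_rfl (s := s) (by linarith) hs
    beta_reduce
    rw [← h1]
    exact (L_summable K χ hb hs).hasSum

end Pool.DM
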