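import Pool.Agent.HDZ.Block
import Pool.Agent.HDZ.LDefsS

/-!
# Density machine: common definitions

`K` is a number field, `Mul K` the completely multiplicative functions on the non-zero integral ideals.
-/

open scoped NumberField nonZeroDivisors
open NumberField Pool.ZD Pool.HDZ

namespace Pool.DM

noncomputable section

variable (K : Type) [Field K] [NumberField K]

/-- Completely multiplicative functions on the non-zero ideals. -/
abbrev Mul : Type := (Ideal (𝓞 K))⁰ →* ℂ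

/-- Large sieve inequality for short sums with arbitrary coefficients. -/
def LSI (F : Finset (Mul K)) (ε A H Q : ℝ) : Prop :=
  ∀ x : ℝ, 1 ≤ x → ∀ c : (Ideal (𝓞 K))⁰ → ℂ, (∀ I, ‖c I‖ ≤ 1) →
    (∀ I, c I ≠ 0 → x < nm K I ∧ nm K I ≤ 2 * x) →
    ∑ χ ∈ F, ‖∑' I, c I * χ I‖ ^ 2 ≤ A * H * (Q * x) ^ ε * (x + x ^ 2 / Q)

/-- Mean square of smooth sums of any length. -/
def LSII (F : Finset (Mul K)) (k : ℕ) (ε A H Q : ℝ) : Prop :=
  ∀ (G : ℝ) (g : ℝ → ℂ), NiceI k G g → ∀ Z : ℝ, 1 ≤ Z →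
    ∑ χ ∈ F, ‖∑' I, χ I * g ((nm K I / Z) ^ 2)‖ ^ 2 ≤ A * H * G ^ 2 * Z * (Q * Z) ^ ε

/-- `L` is the analytic continuation to `Re s > 1/2` of the Dirichlet series of `χ`. -/
def IsLf (χ : Mul K) (L : ℂ → ℂ) : Prop :=
  AnalyticOnNhd ℂ L {s | 1 / 2 < s.re} ∧ ∀ s : ℂ, 1 < s.re →
    HasSum (fun I : (Ideal (𝓞 K))⁰ => χ I * (nm K I : ℂ) ^ (-s)) (L s)

/-- Smooth block of the Dirichlet series with weight function `W` of `(N(I)/Z)^2`. -/
def BW (χ : Mul K) (W : ℝ → ℝ) (Z : ℝ) (s : ℂ) : ℂ :=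
  ∑' I : (Ideal (𝓞 K))⁰, χ I * (W ((nm K I / Z) ^ 2) : ℂ) * (nm K I : ℂ) ^ (-s)

/-- Smoothly truncated Dirichlet series. -/
def PP (χ : Mul K) (Z : ℝ) (s : ℂ) : ℂ := BW K χ SS Z s

/-- The weight function of the dyadic blocks. -/
def Wd (v : ℝ) : ℝ := SS (v / 4) - SS v

/-- The derived weight function. -/
def W1 (v : ℝ) : ℝ := 2 * v * deriv Wd v

/-- The weight functions that occur: smooth and supported in `[3/2,10]`. -/
def Wt (W : ℝ → ℝ) : Prop := ContDiff ℝ (⊤ : ℕ∞) W ∧ ∀ v, (v ≤ 3 / 2 ∨ 10 ≤ v) → W v = 0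

/-- The ideals of norm at most `z`, as a finite set. -/
def idl (z : ℝ) : Finset (Ideal (𝓞 K))⁰ := (finite_le K z).toFinset

/-- One term of the mollifier. -/
def mt (χ : Mul K) (s : ℂ) (b : (Ideal (𝓞 K))⁰) : ℂ :=
  (Pool.Hhelper85.CZ.mob K b : ℂ) * χ b * (nm K b : ℂ) ^ (-s)

/-- The mollifier. -/
def MM (χ : Mul K) (z : ℝ) (s : ℂ) : ℂ := ∑ b ∈ idl K z, mt K χ s b

open scoped Classical in
/-- The coefficients of the product of the Dirichlet series and the mollifier. -/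
def cz (z : ℝ) (I : (Ideal (𝓞 K))⁰) : ℂ :=
  ∑ b ∈ (idl K z).filter (fun b => b ∣ I), (Pool.Hhelper85.CZ.mob K b : ℂ)

/-- First part: the smoothly truncated product minus one. -/
def apart (χ : Mul K) (z Y : ℝ) (s : ℂ) : ℂ :=
  (∑' I : (Ideal (𝓞 K))⁰, cz K z I * χ I * (SS ((nm K I / Y) ^ 2) : ℂ) * (nm K I : ℂ) ^ (-s)) - 1

open scoped Classical in
/-- Last part: the tails of the Dirichlet series against the terms of the mollifier. -/
def bpart (χ : Mul K) (L : ℂ → ℂ) (z Y : ℝ) (s : ℂ) : ℂ :=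
  ∑ b ∈ (idl K z).filter (fun b => 1 < nm K b), mt K χ s b * (L s - PP K χ (Y / nm K b) s)

end

end Pool.DM
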