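import Pool.Agent.Hhelper85.CZ.Zeros

/-!
# Module DETECT: counting zeros from a mean square and a first moment (pure complex analysis)

PAPER PROOF. Let `r = (σ₂ - σ₁)/4`. Cover the rectangle `σ₂ ≤ re ≤ σ₀`, `|im| ≤ T` by at most `C T` closed discs
`B(c, r)` with `re c ∈ [σ₂, σ₀]`, `|im c| ≤ T` (grid of centres with mesh `r`). There are no zeros of `L i` with
`re s ≥ σ₀`.

(1) Local bound (Jensen). Let `w = σ₀ + i im c`, `R₁ = σ₀ - σ₂ + r`, `R₂ = σ₀ - σ₁ - r` (`R₁ < R₂`; the closed disc `B(w,R₂)` lies in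
`re ≥ σ₁ + r`). `B(c, r) ⊆ B(w, R₁)`... (`|c - w| = σ₀ - re c ≤ σ₀ - σ₂`). Since `‖L i w‖ ≥ 1/2` and `‖L i‖ ≤ e^N` on `B(w,R₂)`, Jensen's formula
(or: divide by the Blaschke factors) gives: the number of zeros of `L i` in `B(w, R₁)`, with multiplicity, is
`≤ (N + log 2)/log (R₂/R₁) ≤ C (1 + N)`. (See `Pool/Agent/Hhelper85/CZ/Zeros.lean`, helper57, for a Jensen type argument; Mathlib
has `MeromorphicOn.circleAverage_log_norm`.) In particular `L i` is not identically `0` near any point of `re ≥ σ₁`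
(identity theorem on the half plane; it is `≠ 0` at `re = σ₀`).

(2) If the disc `B(c, r)` contains a zero `ρ` of `L i` then `0 = 1 + a i ρ + b i ρ`, so `‖a i ρ‖ ≥ 1/2` or `‖b i ρ‖ ≥ 1/2`. In the first
case `1/4 ≤ ‖a i ρ‖² ≤ (1/(π r²)) ∫∫_{B(ρ, r)} ‖a i‖² ≤ (1/(π r²)) ∫∫_{B(c, 2r)} ‖a i‖²` (mean value property of the analytic function
`(a i)^2`; `B(c,2r) ⊆ {re ≥ σ₁}`), in the second `1/2 ≤ ‖b i ρ‖ ≤ (1/(π r²)) ∫∫_{B(c, 2r)} ‖b i‖`. (Instead of area integrals one may use
circle averages over all radii in `[r/2, r]`, or integrals over squares.) Summing over `i`, with the pointwise hypotheses: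
the number of `i` such that `L i` has a zero in `B(c, r)` is `≤ 4 · 4 Ma + 2 · 4 Mb`.

(3) Multiply (1), (2) and the number of discs. `R` can be taken as `σ₀ + 1 + |σ₁| + (σ₂ - σ₁)`, say, so that all discs used
lie in `re ≤ R`, `|im| ≤ T + R` (they have radius `≤ R₂ ≤ σ₀ - σ₁`; take `R` large enough).
-/

namespace Pool.DM.DetectAux

open Metric MeromorphicOn Real Pool.Hhelper85.CZ.ZeroAux

lemma point_le {c : ℂ} {r R : ℝ} (hr : 0 < r) (hrR : r < R) {f : ℂ → ℂ}
    (hf : AnalyticOnNhd ℂ f (closedBall c R)) {w : ℂ} (hw : w ∈ closedBall c r) :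
    ‖f w‖ ≤ R / (R - r) * circleAverage (fun z => ‖f z‖) c R := by
  have hR : 0 < R := hr.trans hrR
  have habs : |R| = R := abs_of_pos hR
  have hd : DiffContOnCl ℂ f (ball c |R|) := by
    rw [habs]
    exact hf.differentiableOn.diffContOnCl_ball subset_rfl
  have hwb : w ∈ ball c |R| := by
    rw [habs, mem_ball]
    exact (mem_closedBall.1 hw).trans_lt hrR
  have h1 := DiffContOnCl.circleAverage_smul_div hd hwb
  have hzw : ∀ z ∈ sphere c R, R - r ≤ ‖z - w‖ := by
    intro z hz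
    have h2 : ‖z - c‖ = R := by rw [← dist_eq_norm]; exact hz
    have h3 : ‖w - c‖ ≤ r := by rw [← dist_eq_norm]; exact hw
    have h4 : ‖z - c‖ ≤ ‖z - w‖ + ‖w - c‖ := by
      have : z - c = (z - w) + (w - c) := by ring
      rw [this]
      exact norm_add_le _ _
    linarith
  have hne : ∀ z ∈ sphere c R, z - w ≠ 0 := by
    intro z hz h0
    have := hzw z hz
    rw [h0, norm_zero] at this
    linarith
  have hcf : ContinuousOn f (sphere c R) := (hf.mono sphere_subset_closedBall).continuousOn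
  have hcg : ContinuousOn (fun z => ((z - c) / (z - w)) • f z) (sphere c R) := by
    simp only [smul_eq_mul]
    exact (ContinuousOn.div (by fun_prop) (by fun_prop) hne).mul hcf
  have h5 : ‖circleAverage (fun z => ((z - c) / (z - w)) • f z) c R‖ ≤
      circleAverage (fun z => ‖((z - c) / (z - w)) • f z‖) c R := by
    rw [circleAverage, circleAverage, smul_eq_mul, norm_smul, Real.norm_of_nonneg (by positivity)]
    exact mul_le_mul_of_nonneg_left
      (intervalIntegral.norm_integral_le_integral_norm (le_of_lt two_pi_pos)) (by positivity)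
  have h6 : circleAverage (fun z => ‖((z - c) / (z - w)) • f z‖) c R ≤
      circleAverage (fun z => R / (R - r) * ‖f z‖) c R := by
    apply circleAverage_mono
    · exact ContinuousOn.circleIntegrable hR.le hcg.norm
    · exact ContinuousOn.circleIntegrable hR.le (continuousOn_const.mul hcf.norm)
    · intro z hz
      rw [habs] at hz
      rw [norm_smul, norm_div]
      have h2 : ‖z - c‖ = R := by rw [← dist_eq_norm]; exact hz
      rw [h2]
      have h7 : 0 < R - r := by linarith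
      gcongr
      exact hzw z hz
  have h8 : circleAverage (fun z => R / (R - r) * ‖f z‖) c R =
      R / (R - r) * circleAverage (fun z => ‖f z‖) c R :=
    circleAverage_fun_smul (a := R / (R - r)) (f := fun z => ‖f z‖)
  rw [h1] at h5
  rw [← h8]
  exact h5.trans h6

/-- one function, one disc -/
lemma disc_bound2 {c : ℂ} {r R N : ℝ} (hr : 0 < r) (hrR : r < R) (hN : 0 ≤ N) {L M a b : ℂ → ℂ}
    (hL : AnalyticOnNhd ℂ L (closedBall c R)) (ha : AnalyticOnNhd ℂ a (closedBall c R))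
    (hb : AnalyticOnNhd ℂ b (closedBall c R))
    (hid : ∀ z ∈ closedBall c R, L z * M z = 1 + a z + b z)
    (hc : 1 / 2 ≤ ‖L c‖) (hg : ∀ z ∈ closedBall c R, ‖L z‖ ≤ Real.exp N) (S : Finset ℂ)
    (hS : ∀ s ∈ S, s ∈ closedBall c r) :
    (∑ s ∈ S, (analyticOrderNatAt L s : ℝ)) * Real.log (R / r) ≤
      (N + 1) * (R / (R - r) * (4 * circleAverage (fun z => ‖a z‖ ^ 2) c R +
        2 * circleAverage (fun z => ‖b z‖) c R)) := by
  have hR : 0 < R := hr.trans hrR
  have hκ : 0 < R / (R - r) := div_pos hR (by linarith)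
  have ha0 : 0 ≤ circleAverage (fun z => ‖a z‖ ^ 2) c R :=
    circleAverage_nonneg_of_nonneg (fun z _ => by positivity)
  have hb0 : 0 ≤ circleAverage (fun z => ‖b z‖) c R :=
    circleAverage_nonneg_of_nonneg (fun z _ => by positivity)
  have hlog : 0 < Real.log (R / r) := Real.log_pos ((one_lt_div hr).2 hrR)
  by_cases h0 : ∀ s ∈ S, analyticOrderNatAt L s = 0
  · rw [Finset.sum_eq_zero (fun s hs => by rw [h0 s hs]; simp), zero_mul]
    positivity
  push Not at h0
  obtain ⟨w, hwS, hw0⟩ := h0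
  have hwr := hS w hwS
  have hwR : w ∈ closedBall c R := closedBall_subset_closedBall hrR.le hwr
  have hLw : L w = 0 := by
    by_contra hne
    apply hw0
    simp [analyticOrderNatAt, (hL w hwR).analyticOrderAt_eq_zero.mpr hne]
  have hone : (1 : ℝ) ≤ R / (R - r) * (4 * circleAverage (fun z => ‖a z‖ ^ 2) c R +
        2 * circleAverage (fun z => ‖b z‖) c R) := by
    have h1 := hid w hwR
    rw [hLw, zero_mul] at h1
    have h2 : (1 : ℝ) ≤ ‖a w‖ + ‖b w‖ := by
      have h3 : (1 : ℂ) = -(a w + b w) := by linear_combination -h1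
      calc (1 : ℝ) = ‖(1 : ℂ)‖ := by simp
        _ = ‖a w + b w‖ := by rw [h3, norm_neg]
        _ ≤ _ := norm_add_le _ _
    have h4 : (1 : ℝ) ≤ 4 * ‖a w‖ ^ 2 + 2 * ‖b w‖ := by
      by_cases h5 : 1 / 2 ≤ ‖b w‖
      · nlinarith [sq_nonneg ‖a w‖]
      · push Not at h5
        nlinarith [sq_nonneg (2 * ‖a w‖ - 1), norm_nonneg (a w), norm_nonneg (b w)]
    have h6 : ‖a w‖ ^ 2 ≤ R / (R - r) * circleAverage (fun z => ‖a z‖ ^ 2) c R := by
      have h7 := point_le hr hrR (ha.pow 2) hwr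
      simpa [norm_pow] using h7
    have h8 := point_le hr hrR hb hwr
    nlinarith
  have hc0 : L c ≠ 0 := by
    intro h
    rw [h, norm_zero] at hc
    linarith
  have hJ := jensen_finset hr hrR hL hc0 S hS
  have havg : circleAverage (fun z => Real.log ‖L z‖) c R ≤ N := by
    apply circleAverage_mono_on_of_le_circle
    · have := (hL.mono (sphere_subset_closedBall (x := c) (ε := R))).meromorphicOn
      rw [← abs_of_pos hR] at this
      exact this.circleIntegrable_log_norm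
    · intro z hz
      rw [abs_of_pos hR] at hz
      by_cases hz0 : L z = 0
      · rw [hz0, norm_zero, Real.log_zero]; exact hN
      · rw [Real.log_le_iff_le_exp (norm_pos_iff.2 hz0)]
        exact hg z (sphere_subset_closedBall hz)
  have hlc : -Real.log ‖L c‖ ≤ 1 := by
    have h1 : Real.log (1 / 2) ≤ Real.log ‖L c‖ := Real.log_le_log (by norm_num) hc
    have h2 : Real.log (1 / 2) = -Real.log 2 := by
      rw [one_div, Real.log_inv]
    have h3 : Real.log 2 < 0.6931471808 := Real.log_two_lt_d9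
    linarith
  have h9 : (∑ s ∈ S, (analyticOrderNatAt L s : ℝ)) * Real.log (R / r) ≤ N + 1 := by linarith
  refine h9.trans ?_
  have h10 : 0 ≤ N + 1 := by linarith
  calc N + 1 = (N + 1) * 1 := by ring
    _ ≤ _ := mul_le_mul_of_nonneg_left hone h10

lemma order_ne_top2 {σ₁ σ₀ : ℝ} (h10 : σ₁ < σ₀) {L : ℂ → ℂ}
    (hf : ∀ s : ℂ, σ₁ ≤ s.re → AnalyticAt ℂ L s)
    (hb : ∀ s : ℂ, σ₀ ≤ s.re → 1 / 2 ≤ ‖L s‖) (s : ℂ) (hs : σ₁ ≤ s.re) :
    analyticOrderAt L s ≠ ⊤ := by
  intro htop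
  rw [analyticOrderAt_eq_top] at htop
  have hA : AnalyticOnNhd ℂ L {z : ℂ | σ₁ ≤ z.re} := hf
  have h1 := hA.eqOn_zero_of_preconnected_of_eventuallyEq_zero
    (convex_halfSpace_re_ge σ₁).isPreconnected hs htop
  have h2 : L (σ₀ : ℂ) = 0 := h1 (by simp [h10.le])
  have h3 := hb (σ₀ : ℂ) (by simp)
  rw [h2, norm_zero] at h3
  norm_num at h3

theorem main (σ₁ σ₂ σ₀ : ℝ) (h12 : σ₁ < σ₂) (h20 : σ₂ < σ₀) : ∃ C R : ℝ, 0 < C ∧ 0 < R ∧
    ∀ (ι : Type) [Fintype ι] (L M a b : ι → ℂ → ℂ) (Ma Mb N T : ℝ), 1 ≤ T → 0 ≤ Ma → 0 ≤ Mb →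
      0 ≤ N →
      (∀ i, ∀ s : ℂ, σ₁ ≤ s.re → AnalyticAt ℂ (L i) s) →
      (∀ i, ∀ s : ℂ, σ₁ ≤ s.re → AnalyticAt ℂ (a i) s) →
      (∀ i, ∀ s : ℂ, σ₁ ≤ s.re → AnalyticAt ℂ (b i) s) →
      (∀ i, ∀ s : ℂ, σ₁ ≤ s.re → L i s * M i s = 1 + a i s + b i s) →
      (∀ i, ∀ s : ℂ, σ₀ ≤ s.re → 1 / 2 ≤ ‖L i s‖) →
      (∀ i, ∀ s : ℂ, σ₁ ≤ s.re → s.re ≤ R → |s.im| ≤ T + R → ‖L i s‖ ≤ Real.exp N) →
      (∀ s : ℂ, σ₁ ≤ s.re → s.re ≤ R → |s.im| ≤ T + R → ∑ i, ‖a i s‖ ^ 2 ≤ Ma) →
      (∀ s : ℂ, σ₁ ≤ s.re → s.re ≤ R → |s.im| ≤ T + R → ∑ i, ‖b i s‖ ≤ Mb) →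
      (∀ i, ∀ s : ℂ, σ₁ ≤ s.re → analyticOrderAt (L i) s ≠ ⊤) ∧
      ∀ S : ι → Finset ℂ, (∀ i, ∀ s ∈ S i, σ₂ ≤ s.re ∧ |s.im| ≤ T) →
        ∑ i, ∑ s ∈ S i, ((analyticOrderNatAt (L i) s : ℕ) : ℝ) ≤
          C * (1 + N) * T * (Ma + Mb) := by
  classical
  set R : ℝ := σ₀ - σ₁ with hR
  set ρ : ℝ := σ₀ - σ₂ with hρ
  set η : ℝ := σ₂ - σ₁ with hη
  set r : ℝ := ρ + η / 2 with hr
  have hη0 : 0 < η := by rw [hη]; linarith
  have hρ0 : 0 < ρ := by rw [hρ]; linarith
  have hr0 : 0 < r := by rw [hr]; linarith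
  have hrR : r < R := by rw [hr, hR, hρ, hη]; linarith
  have hR0 : 0 < R := hr0.trans hrR
  have hlog : 0 < Real.log (R / r) := Real.log_pos ((one_lt_div hr0).2 hrR)
  have hκ0 : 0 < R / (R - r) := div_pos hR0 (by linarith)
  set B : ℝ := 1 + |σ₀| + R + 2 * η with hB
  have hB0 : 0 < B := by rw [hB]; positivity
  refine ⟨(2 / η + 5) * (R / (R - r) * 4) / Real.log (R / r), B, by positivity, hB0, ?_⟩
  intro ι _ L M a b Ma Mb N T hT hMa hMb hN hLa haa hba hid hbig hgr hma hmb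
  refine ⟨fun i s hs => order_ne_top2 (h12.trans h20) (hLa i) (hbig i) s hs, ?_⟩
  intro S hS
  set K : ℤ := ((⌈T / η⌉₊ + 1 : ℕ) : ℤ) with hK
  have hK1 : T / η + 1 ≤ (K : ℝ) := by
    rw [hK]; push_cast
    have := Nat.le_ceil (T / η)
    linarith
  have hK2 : (K : ℝ) ≤ T / η + 2 := by
    rw [hK]; push_cast
    have := Nat.ceil_lt_add_one (a := T / η) (by positivity)
    linarith
  have hK0 : 0 ≤ K := by rw [hK]; positivity
  set c : ℤ → ℂ := fun k => (σ₀ : ℂ) + ((η * k : ℝ) : ℂ) * Complex.I with hc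
  have hcre : ∀ k, (c k).re = σ₀ := by intro k; simp [hc]
  have hcim : ∀ k, (c k).im = η * k := by intro k; simp [hc]
  have hball : ∀ k, ∀ z ∈ closedBall (c k) R, σ₁ ≤ z.re := by
    intro k z hz
    rw [mem_closedBall, dist_eq_norm'] at hz
    have h1 := (Complex.abs_re_le_norm (c k - z)).trans hz
    rw [Complex.sub_re, hcre, abs_le] at h1
    rw [hR] at h1
    linarith [h1.2]
  set I : Finset ℤ := Finset.Icc (-K) K with hI
  have hball2 : ∀ k ∈ I, ∀ z ∈ closedBall (c k) R, z.re ≤ B ∧ |z.im| ≤ T + B := by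
    intro k hk z hz
    rw [mem_closedBall, dist_eq_norm'] at hz
    have h1 := (Complex.abs_re_le_norm (c k - z)).trans hz
    rw [Complex.sub_re, hcre, abs_le] at h1
    have h2 := (Complex.abs_im_le_norm (c k - z)).trans hz
    rw [Complex.sub_im, hcim, abs_le] at h2
    have h5 : |(k : ℝ)| ≤ (K : ℝ) := by
      rw [hI, Finset.mem_Icc, ← abs_le] at hk
      exact_mod_cast hk
    have h4 : |η * (k : ℝ)| ≤ η * K := by
      rw [abs_mul, abs_of_pos hη0]
      gcongr
    have h6 : η * K ≤ T + 2 * η := by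
      have : η * (K : ℝ) ≤ η * (T / η + 2) := by gcongr
      have h7 : η * (T / η + 2) = T + 2 * η := by field_simp
      linarith
    have h8 := le_abs_self σ₀
    have h9 := abs_nonneg σ₀
    rw [abs_le] at h4
    constructor
    · rw [hB]; linarith [h1.1]
    · rw [hB, abs_le]; constructor <;> linarith [h2.1, h2.2, h4.1, h4.2]
  -- each zero lies in one of the discs
  have hcover : ∀ i, ∀ s ∈ S i, analyticOrderNatAt (L i) s ≠ 0 →
      ∃ k ∈ I, s ∈ closedBall (c k) r := by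
    intro i s hs hne
    obtain ⟨h1, h2⟩ := hS i s hs
    have h3 : s.re < σ₀ := by
      by_contra hcon
      push Not at hcon
      apply hne
      have h4 := hbig i s hcon
      have h5 : L i s ≠ 0 := by
        intro h0
        rw [h0, norm_zero] at h4
        norm_num at h4
      simp [analyticOrderNatAt, (hLa i s (h12.le.trans h1)).analyticOrderAt_eq_zero.mpr h5]
    refine ⟨round (s.im / η), ?_, ?_⟩
    · rw [hI, Finset.mem_Icc, ← abs_le]
      have h4 := abs_sub_round (s.im / η)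
      have h5 : |s.im / η| ≤ T / η := by
        rw [abs_div, abs_of_pos hη0]; gcongr
      have h6 : |((round (s.im / η) : ℤ) : ℝ)| ≤ T / η + 1 / 2 := by
        have h7 : ((round (s.im / η) : ℤ) : ℝ) = s.im / η - (s.im / η - round (s.im / η)) := by
          ring
        rw [h7]
        exact (abs_sub _ _).trans (by linarith)
      have h8 : |((round (s.im / η) : ℤ) : ℝ)| ≤ (K : ℝ) := by linarith
      exact_mod_cast h8
    · rw [mem_closedBall, dist_eq_norm]
      have h4 := Complex.norm_le_abs_re_add_abs_im (s - c (round (s.im / η)))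
      rw [Complex.sub_re, Complex.sub_im, hcre, hcim] at h4
      have h5 : |s.re - σ₀| ≤ ρ := by
        rw [abs_le]; constructor <;> rw [hρ] <;> linarith
      have h6 : |s.im - η * (round (s.im / η) : ℤ)| ≤ η / 2 := by
        have h7 := abs_sub_round (s.im / η)
        have h8 : s.im - η * (round (s.im / η) : ℤ) = η * (s.im / η - (round (s.im / η) : ℤ)) := by
          field_simp
        rw [h8, abs_mul, abs_of_pos hη0]
        nlinarith
      rw [hr]
      linarith
  have hnat : ∀ i, (∑ s ∈ S i, ((analyticOrderNatAt (L i) s : ℕ) : ℝ)) ≤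
      ∑ k ∈ I, ∑ s ∈ (S i).filter (fun s => s ∈ closedBall (c k) r),
        ((analyticOrderNatAt (L i) s : ℕ) : ℝ) := by
    intro i
    have h1 : ∀ k ∈ I, ∑ s ∈ (S i).filter (fun s => s ∈ closedBall (c k) r),
        ((analyticOrderNatAt (L i) s : ℕ) : ℝ) =
        ∑ s ∈ S i, if s ∈ closedBall (c k) r then
          ((analyticOrderNatAt (L i) s : ℕ) : ℝ) else 0 := by
      intro k _
      rw [Finset.sum_filter]
    rw [Finset.sum_congr rfl h1, Finset.sum_comm]
    apply Finset.sum_le_sum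
    intro s hs
    by_cases h0 : analyticOrderNatAt (L i) s = 0
    · rw [h0]; simp
    · obtain ⟨k, hk, hsk⟩ := hcover i s hs h0
      have h2 := Finset.single_le_sum (s := I) (f := fun k => if s ∈ closedBall (c k) r then
          ((analyticOrderNatAt (L i) s : ℕ) : ℝ) else 0)
          (fun k _ => by split_ifs <;> positivity) hk
      simp only [hsk, if_true] at h2
      exact h2
  -- one centre
  have hone : ∀ k ∈ I, (∑ i, ∑ s ∈ (S i).filter (fun s => s ∈ closedBall (c k) r),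
        ((analyticOrderNatAt (L i) s : ℕ) : ℝ)) * Real.log (R / r) ≤
        (N + 1) * (R / (R - r) * (4 * (Ma + Mb))) := by
    intro k hk
    have hLk : ∀ i, AnalyticOnNhd ℂ (L i) (closedBall (c k) R) :=
      fun i z hz => hLa i z (hball k z hz)
    have hak : ∀ i, AnalyticOnNhd ℂ (a i) (closedBall (c k) R) :=
      fun i z hz => haa i z (hball k z hz)
    have hbk : ∀ i, AnalyticOnNhd ℂ (b i) (closedBall (c k) R) :=
      fun i z hz => hba i z (hball k z hz)
    rw [Finset.sum_mul]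
    have h1 : ∑ i, (∑ s ∈ (S i).filter (fun s => s ∈ closedBall (c k) r),
        ((analyticOrderNatAt (L i) s : ℕ) : ℝ)) * Real.log (R / r) ≤
        ∑ i, (N + 1) * (R / (R - r) * (4 * circleAverage (fun z => ‖a i z‖ ^ 2) (c k) R +
          2 * circleAverage (fun z => ‖b i z‖) (c k) R)) := by
      apply Finset.sum_le_sum
      intro i _
      exact disc_bound2 hr0 hrR hN (hLk i) (hak i) (hbk i)
        (fun z hz => hid i z (hball k z hz)) (hbig i (c k) (by rw [hcre]))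
        (fun z hz => hgr i z (hball k z hz) (hball2 k hk z hz).1 (hball2 k hk z hz).2) _
        (fun s hs => (Finset.mem_filter.1 hs).2)
    refine h1.trans ?_
    have hinta : ∀ i, CircleIntegrable (fun z => ‖a i z‖ ^ 2) (c k) R := by
      intro i
      apply ContinuousOn.circleIntegrable hR0.le
      exact (((hak i).mono sphere_subset_closedBall).continuousOn.norm).pow 2
    have hintb : ∀ i, CircleIntegrable (fun z => ‖b i z‖) (c k) R := by
      intro i
      apply ContinuousOn.circleIntegrable hR0.le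
      exact ((hbk i).mono sphere_subset_closedBall).continuousOn.norm
    rw [← Finset.mul_sum, ← Finset.mul_sum, Finset.sum_add_distrib, ← Finset.mul_sum,
      ← Finset.mul_sum, ← circleAverage_fun_sum (fun i _ => hinta i),
      ← circleAverage_fun_sum (fun i _ => hintb i)]
    have h2 : circleAverage (fun z => ∑ i, ‖a i z‖ ^ 2) (c k) R ≤ Ma := by
      apply circleAverage_mono_on_of_le_circle
      · apply ContinuousOn.circleIntegrable hR0.le
        apply continuousOn_finsetSum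
        intro i _
        exact (((hak i).mono sphere_subset_closedBall).continuousOn.norm).pow 2
      · intro z hz
        rw [abs_of_pos hR0] at hz
        have hz' := sphere_subset_closedBall hz
        exact hma z (hball k z hz') (hball2 k hk z hz').1 (hball2 k hk z hz').2
    have h3 : circleAverage (fun z => ∑ i, ‖b i z‖) (c k) R ≤ Mb := by
      apply circleAverage_mono_on_of_le_circle
      · apply ContinuousOn.circleIntegrable hR0.le
        apply continuousOn_finsetSum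
        intro i _
        exact ((hbk i).mono sphere_subset_closedBall).continuousOn.norm
      · intro z hz
        rw [abs_of_pos hR0] at hz
        have hz' := sphere_subset_closedBall hz
        exact hmb z (hball k z hz') (hball2 k hk z hz').1 (hball2 k hk z hz').2
    have h4 : 0 ≤ N + 1 := by linarith
    refine mul_le_mul_of_nonneg_left (mul_le_mul_of_nonneg_left ?_ hκ0.le) h4
    linarith
  have hcard : ((I.card : ℕ) : ℝ) ≤ (2 / η + 5) * T := by
    have h1 : (I.card : ℤ) = 2 * K + 1 := by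
      rw [hI, Int.card_Icc, Int.toNat_of_nonneg (by linarith)]
      ring
    have h2 : ((I.card : ℕ) : ℝ) = 2 * (K : ℝ) + 1 := by exact_mod_cast h1
    rw [h2]
    have h3 : (2 / η + 5) * T = 2 * (T / η) + 5 * T := by ring
    linarith
  have hX0 : 0 ≤ (N + 1) * (R / (R - r) * (4 * (Ma + Mb))) := by positivity
  have htotal : (∑ i, ∑ s ∈ S i, ((analyticOrderNatAt (L i) s : ℕ) : ℝ)) *
      Real.log (R / r) ≤ (2 / η + 5) * T * ((N + 1) * (R / (R - r) * (4 * (Ma + Mb)))) := by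
    calc (∑ i, ∑ s ∈ S i, ((analyticOrderNatAt (L i) s : ℕ) : ℝ)) *
        Real.log (R / r)
        ≤ (∑ i, ∑ k ∈ I, ∑ s ∈ (S i).filter (fun s => s ∈ closedBall (c k) r),
        ((analyticOrderNatAt (L i) s : ℕ) : ℝ)) * Real.log (R / r) := by
          exact mul_le_mul_of_nonneg_right (Finset.sum_le_sum (fun i _ => hnat i)) hlog.le
      _ = ∑ k ∈ I, (∑ i, ∑ s ∈ (S i).filter (fun s => s ∈ closedBall (c k) r),
        ((analyticOrderNatAt (L i) s : ℕ) : ℝ)) * Real.log (R / r) := by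
          rw [Finset.sum_comm, Finset.sum_mul]
      _ ≤ ∑ k ∈ I, (N + 1) * (R / (R - r) * (4 * (Ma + Mb))) := Finset.sum_le_sum hone
      _ = (I.card : ℝ) * ((N + 1) * (R / (R - r) * (4 * (Ma + Mb)))) := by
          rw [Finset.sum_const, nsmul_eq_mul]
      _ ≤ _ := mul_le_mul_of_nonneg_right hcard hX0
  rw [← le_div_iff₀ hlog] at htotal
  refine htotal.trans (le_of_eq ?_)
  ring

end Pool.DM.DetectAux

namespace Pool.DM

theorem zero_count2 (σ₁ σ₂ σ₀ : ℝ) (h12 : σ₁ < σ₂) (h20 : σ₂ < σ₀) : ∃ C R : ℝ, 0 < C ∧ 0 < R ∧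
    ∀ (ι : Type) [Fintype ι] (L M a b : ι → ℂ → ℂ) (Ma Mb N T : ℝ), 1 ≤ T → 0 ≤ Ma → 0 ≤ Mb →
      0 ≤ N →
      (∀ i, ∀ s : ℂ, σ₁ ≤ s.re → AnalyticAt ℂ (L i) s) →
      (∀ i, ∀ s : ℂ, σ₁ ≤ s.re → AnalyticAt ℂ (a i) s) →
      (∀ i, ∀ s : ℂ, σ₁ ≤ s.re → AnalyticAt ℂ (b i) s) →
      (∀ i, ∀ s : ℂ, σ₁ ≤ s.re → L i s * M i s = 1 + a i s + b i s) →
      (∀ i, ∀ s : ℂ, σ₀ ≤ s.re → 1 / 2 ≤ ‖L i s‖) →
      (∀ i, ∀ s : ℂ, σ₁ ≤ s.re → s.re ≤ R → |s.im| ≤ T + R → ‖L i s‖ ≤ Real.exp N) →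
      (∀ s : ℂ, σ₁ ≤ s.re → s.re ≤ R → |s.im| ≤ T + R → ∑ i, ‖a i s‖ ^ 2 ≤ Ma) →
      (∀ s : ℂ, σ₁ ≤ s.re → s.re ≤ R → |s.im| ≤ T + R → ∑ i, ‖b i s‖ ≤ Mb) →
      (∀ i, ∀ s : ℂ, σ₁ ≤ s.re → analyticOrderAt (L i) s ≠ ⊤) ∧
      ∀ S : ι → Finset ℂ, (∀ i, ∀ s ∈ S i, σ₂ ≤ s.re ∧ |s.im| ≤ T) →
        ∑ i, ∑ s ∈ S i, ((analyticOrderNatAt (L i) s : ℕ) : ℝ) ≤
          C * (1 + N) * T * (Ma + Mb) := by
  exact DetectAux.main σ₁ σ₂ σ₀ h12 h20

end Pool.DM
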