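import Pool.Agent.DM.Machine
import Pool.Agent.DM.ClassLS

/-!
# Density theorem for the class group L-functions (helper46)
-/

open scoped NumberField nonZeroDivisors
open NumberField NumberField.Units Pool.ZD Pool.HDZ

namespace Pool.DM

/-- `F` is the analytic continuation to `Re s > 1/2` of the L-function
`∑_I χ(I) N(I)^(-s)` of the class group character `χ`. -/
def IsL (K : Type) [Field K] [NumberField K] (χ : ClassGroup (𝓞 K) →* ℂˣ) (F : ℂ → ℂ) : Prop :=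
  AnalyticOnNhd ℂ F {s | 1 / 2 < s.re} ∧ ∀ s : ℂ, 1 < s.re →
    HasSum (fun I : (Ideal (𝓞 K))⁰ => ((χ (ClassGroup.mk0 I) : ℂˣ) : ℂ) *
      (Ideal.absNorm (I : Ideal (𝓞 K)) : ℂ) ^ (-s)) (F s)

theorem isL_iff (K : Type) [Field K] [NumberField K] (χ : ClassGroup (𝓞 K) →* ℂˣ)
    (F : ℂ → ℂ) : IsL K χ F ↔ IsLf K (chm K χ) F := by
  unfold IsL IsLf
  simp only [chm_apply, nm, Complex.ofReal_natCast]

theorem norm_chm (K : Type) [Field K] [NumberField K] (χ : Chr K) (I : (Ideal (𝓞 K))⁰) :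
    ‖chm K χ I‖ ≤ 1 := by
  rw [chm_apply]
  exact (norm_char χ _).le

theorem HRK_nonneg (K : Type) [Field K] [NumberField K] : 0 ≤ (classNumber K : ℝ) * RK K := by
  have : 0 ≤ RK K := div_nonneg (regulator_pos K).le (Nat.cast_nonneg _)
  positivity

theorem one_le_sqrt (K : Type) [Field K] [NumberField K] : 1 ≤ Real.sqrt (DK K) := by
  rw [Real.one_le_sqrt]
  exact Pool.HDZ.HRaux.one_le_DK K

theorem exists_L (K : Type) [Field K] [NumberField K] (hK : 2 ≤ Module.finrank ℚ K)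
    (χ : ClassGroup (𝓞 K) →* ℂˣ) (hχ : χ ≠ 1) : ∃ F : ℂ → ℂ, IsL K χ F := by
  classical
  obtain ⟨F, hF⟩ := exists_cont K (chm K χ) (norm_chm K χ) (Module.finrank ℚ K)
    (Real.sqrt (DK K)) (one_le_sqrt K) (fun ε hε => by
      obtain ⟨C, hC, h⟩ := class_LSII (Module.finrank ℚ K) hK (Module.finrank ℚ K) (by omega) ε hε
      refine ⟨C * (classNumber K * RK K), mul_nonneg hC.le (HRK_nonneg K), ?_⟩
      have h1 := h K rfl {χ} (by simpa using hχ)
      rw [Finset.image_singleton] at h1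
      intro G g hg Z hZ
      rw [mul_one]
      exact h1 G g hg Z hZ)
  exact ⟨F, (isL_iff K χ F).mpr hF⟩

theorem main (m : ℕ) (hm : 2 ≤ m) (σ : ℝ) (hσ : 1 / 2 < σ) (hσ1 : σ < 1) (ε₀ : ℝ)
    (hε₀ : 0 < ε₀) : ∃ C : ℝ, 0 < C ∧
    ∀ (K : Type) [Field K] [NumberField K], Module.finrank ℚ K = m →
    ∀ L : (ClassGroup (𝓞 K) →* ℂˣ) → ℂ → ℂ, (∀ χ, χ ≠ 1 → IsL K χ (L χ)) →
      ∀ T : ℝ, 1 ≤ T → ∀ (S : Finset ((ClassGroup (𝓞 K) →* ℂˣ) × ℂ)),
        (∀ p ∈ S, p.1 ≠ 1 ∧ σ ≤ p.2.re ∧ |p.2.im| ≤ T) →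
        (∀ p ∈ S, analyticOrderAt (L p.1) p.2 ≠ ⊤) ∧
        ∑ p ∈ S, (analyticOrderNatAt (L p.1) p.2 : ℝ) ≤
          C * T ^ (m + 4) * (classNumber K * RK K) * DK K ^ (ε₀ - (σ - 1 / 2) / (3 - 2 * σ)) := by
  classical
  set k : ℕ := m / 2 + 1 with hkdef
  have hk : m + 1 ≤ 2 * k := by omega
  have hk2 : 2 * k + 2 ≤ m + 4 := by omega
  set ε₁ : ℝ := min (ε₀ / 4) 1 with hε₁
  have hε₁0 : 0 < ε₁ := lt_min (by linarith) one_pos
  have hε₁a : ε₁ ≤ ε₀ / 4 := min_le_left _ _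
  have hε₁b : ε₁ ≤ 1 := min_le_right _ _
  obtain ⟨ε, hε, CM, hCM, hmach⟩ := machine m k σ hσ hσ1 ε₁ hε₁0
  obtain ⟨C1, hC1, h1⟩ := class_LSI m hm ε hε
  obtain ⟨C2, hC2, h2⟩ := class_LSII m hm k hk ε hε
  obtain ⟨CH, hCH, hH⟩ := Pool.HDZ.hR_le m hm (1 / 2) (by norm_num)
  set A : ℝ := max C1 C2 with hA
  have hA0 : 0 < A := lt_max_of_lt_left hC1
  refine ⟨CM * A * (1 + A * CH) ^ ε₁, by positivity, ?_⟩
  intro K _ _ hK L hL T hT S hS
  set H : ℝ := classNumber K * RK K with hHdef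
  have hH0 : 0 ≤ H := HRK_nonneg K
  set Q : ℝ := Real.sqrt (DK K) with hQ
  have hQ1 : 1 ≤ Q := one_le_sqrt K
  have hD1 : 1 ≤ DK K := Pool.HDZ.HRaux.one_le_DK K
  have hD0 : 0 < DK K := by linarith
  let X : Finset (Chr K) := S.image Prod.fst
  have hX : ∀ χ ∈ X, χ ≠ 1 := by
    intro χ hχ
    obtain ⟨p, hp, rfl⟩ := Finset.mem_image.mp hχ
    exact (hS p hp).1
  have hinv : ∀ χ : Chr K, Function.invFun (chm K) (chm K χ) = χ :=
    Function.leftInverse_invFun (chm_injective K)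
  have hXi : LSI K (X.image (chm K)) ε A H Q := by
    intro x hx c hc1 hc2
    refine (h1 K hK X x hx c hc1 hc2).trans ?_
    have : 0 ≤ x ^ 2 / Q := by positivity
    gcongr
    exact le_max_left _ _
  have hXii : LSII K (X.image (chm K)) k ε A H Q := by
    intro G g hg Z hZ
    refine (h2 K hK X hX G g hg Z hZ).trans ?_
    gcongr
    exact le_max_right _ _
  obtain ⟨hz1, hz2⟩ := hmach K hK (X.image (chm K)) A H Q hA0.le hH0 hQ1
    (fun f hf I => by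
      obtain ⟨χ, _, rfl⟩ := Finset.mem_image.mp hf
      exact norm_chm K χ I) hXi hXii
    (fun f => L (Function.invFun (chm K) f))
    (fun f hf => by
      obtain ⟨χ, hχ, rfl⟩ := Finset.mem_image.mp hf
      rw [hinv]
      exact (isL_iff K χ _).mp (hL χ (hX χ hχ))) T hT
    (fun f => (S.filter (fun p => p.1 = Function.invFun (chm K) f)).image Prod.snd)
    (fun f _ s hs => by
      obtain ⟨p, hp, rfl⟩ := Finset.mem_image.mp hs
      exact (hS p (Finset.mem_filter.mp hp).1).2)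
  refine ⟨fun p hp => ?_, ?_⟩
  · have h3 := hz1 (chm K p.1) (Finset.mem_image_of_mem _ (Finset.mem_image_of_mem _ hp)) p.2
      (hS p hp).2.1
    rwa [hinv] at h3
  have h6 : ∑ p ∈ S, (analyticOrderNatAt (L p.1) p.2 : ℝ) =
      ∑ f ∈ X.image (chm K), ∑ s ∈ (S.filter (fun p => p.1 = Function.invFun (chm K) f)).image
        Prod.snd, ((analyticOrderNatAt (L (Function.invFun (chm K) f)) s : ℕ) : ℝ) := by
    rw [Finset.sum_image (fun x _ y _ h => chm_injective K h)]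
    simp only [hinv]
    rw [← Finset.sum_fiberwise_of_maps_to (g := Prod.fst) (t := X)
      (fun p hp => Finset.mem_image_of_mem _ hp)]
    refine Finset.sum_congr rfl fun χ hχ => ?_
    rw [Finset.sum_image]
    · refine Finset.sum_congr rfl fun p hp => ?_
      rw [(Finset.mem_filter.mp hp).2]
    · intro p hp q hq hpq
      have h8 := (Finset.mem_filter.mp hp).2
      have h9 := (Finset.mem_filter.mp hq).2
      exact Prod.ext (h8.trans h9.symm) hpq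
  rw [h6]
  refine hz2.trans ?_
  have hH1 : H ≤ CH * DK K := by
    have h3 := hH K hK
    norm_num at h3
    exact h3
  have g1 : (1 + A * H) ^ ε₁ ≤ (1 + A * CH) ^ ε₁ * DK K ^ ε₁ := by
    rw [← Real.mul_rpow (by positivity) hD0.le]
    refine Real.rpow_le_rpow (by positivity) ?_ hε₁0.le
    have : A * H ≤ A * (CH * DK K) := mul_le_mul_of_nonneg_left hH1 hA0.le
    nlinarith
  have g2 : Q ^ (ε₁ + (1 - 2 * σ) / (3 - 2 * σ)) =
      DK K ^ (ε₁ / 2 - (σ - 1 / 2) / (3 - 2 * σ)) := by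
    rw [hQ, Real.sqrt_eq_rpow, ← Real.rpow_mul hD0.le]
    congr 1
    have : (3 - 2 * σ) ≠ 0 := by linarith
    field_simp
    ring
  have g3 : DK K ^ ε₁ * DK K ^ (ε₁ / 2 - (σ - 1 / 2) / (3 - 2 * σ)) ≤
      DK K ^ (ε₀ - (σ - 1 / 2) / (3 - 2 * σ)) := by
    rw [← Real.rpow_add hD0]
    refine Real.rpow_le_rpow_of_exponent_le hD1 ?_
    linarith
  rw [g2]
  have hT0 : 0 < T := by linarith
  calc CM * (A * H) * (1 + A * H) ^ ε₁ * T ^ (2 * k + 2) *
      DK K ^ (ε₁ / 2 - (σ - 1 / 2) / (3 - 2 * σ)) ≤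
      CM * (A * H) * ((1 + A * CH) ^ ε₁ * DK K ^ ε₁) * T ^ (m + 4) *
        DK K ^ (ε₁ / 2 - (σ - 1 / 2) / (3 - 2 * σ)) := by
        gcongr
    _ = CM * A * (1 + A * CH) ^ ε₁ * T ^ (m + 4) * H *
        (DK K ^ ε₁ * DK K ^ (ε₁ / 2 - (σ - 1 / 2) / (3 - 2 * σ))) := by ring
    _ ≤ _ := mul_le_mul_of_nonneg_left g3 (by positivity)

/-- Density theorem for the class group L-functions of the number fields of degree `m`. -/
theorem density (m : ℕ) (hm : 2 ≤ m) (σ : ℝ) (hσ : 1 / 2 < σ) (hσ1 : σ < 1) (ε : ℝ)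
    (hε : 0 < ε) : ∃ C : ℝ, 0 < C ∧
    ∀ (K : Type) [Field K] [NumberField K], Module.finrank ℚ K = m →
    ∀ L : (ClassGroup (𝓞 K) →* ℂˣ) → ℂ → ℂ, (∀ χ, χ ≠ 1 → IsL K χ (L χ)) →
      ∀ T : ℝ, 1 ≤ T → ∀ (S : Finset ((ClassGroup (𝓞 K) →* ℂˣ) × ℂ)),
        (∀ p ∈ S, p.1 ≠ 1 ∧ σ ≤ p.2.re ∧ |p.2.im| ≤ T) →
        (∀ p ∈ S, analyticOrderAt (L p.1) p.2 ≠ ⊤) ∧
        ∑ p ∈ S, (analyticOrderNatAt (L p.1) p.2 : ℝ) ≤
          C * T ^ (m + 4) * classNumber K * regulator K *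
            |(discr K : ℝ)| ^ (ε - (σ - 1 / 2) / (3 - 2 * σ)) ∧
        ∑ p ∈ S, (analyticOrderNatAt (L p.1) p.2 : ℝ) ≤
          C * T ^ (m + 4) * |(discr K : ℝ)| ^ (2 * (1 - σ) / (3 - 2 * σ) + ε) := by
  obtain ⟨C1, hC1, h1⟩ := main m hm σ hσ hσ1 (ε / 2) (by linarith)
  obtain ⟨C2, hC2, h2⟩ := Pool.HDZ.hR_le m hm (ε / 2) (by linarith)
  refine ⟨max C1 (C1 * C2), lt_max_of_lt_left hC1, ?_⟩
  intro K _ _ hK L hL T hT S hS
  obtain ⟨h3, h4⟩ := h1 K hK L hL T hT S hS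
  have hD1 : 1 ≤ DK K := Pool.HDZ.HRaux.one_le_DK K
  have hD0 : 0 < DK K := by linarith
  have hRpos := regulator_pos K
  have hw : (1 : ℝ) ≤ torsionOrder K := by
    exact_mod_cast Nat.one_le_iff_ne_zero.mpr (NeZero.ne _)
  have hT0 : 0 < T := by linarith
  refine ⟨h3, ?_, ?_⟩
  · refine h4.trans ?_
    have h5 : classNumber K * RK K ≤ classNumber K * regulator K := by
      refine mul_le_mul_of_nonneg_left ?_ (by positivity)
      exact div_le_self hRpos.le hw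
    have h6 : DK K ^ (ε / 2 - (σ - 1 / 2) / (3 - 2 * σ)) ≤
        DK K ^ (ε - (σ - 1 / 2) / (3 - 2 * σ)) :=
      Real.rpow_le_rpow_of_exponent_le hD1 (by linarith)
    calc C1 * T ^ (m + 4) * (classNumber K * RK K) * DK K ^ (ε / 2 - (σ - 1 / 2) / (3 - 2 * σ)) ≤
        max C1 (C1 * C2) * T ^ (m + 4) * (classNumber K * regulator K) *
          DK K ^ (ε - (σ - 1 / 2) / (3 - 2 * σ)) := by
          refine mul_le_mul ?_ h6 (by positivity) (by positivity)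
          refine mul_le_mul ?_ h5 ?_ (by positivity)
          · exact mul_le_mul_of_nonneg_right (le_max_left _ _) (by positivity)
          · have : 0 ≤ RK K := div_nonneg hRpos.le (Nat.cast_nonneg _)
            positivity
      _ = _ := by
          unfold DK
          ring
  · refine h4.trans ?_
    have h5 := h2 K hK
    calc C1 * T ^ (m + 4) * (classNumber K * RK K) * DK K ^ (ε / 2 - (σ - 1 / 2) / (3 - 2 * σ)) ≤
        C1 * T ^ (m + 4) * (C2 * DK K ^ (1 / 2 + ε / 2)) *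
          DK K ^ (ε / 2 - (σ - 1 / 2) / (3 - 2 * σ)) := by
          refine mul_le_mul_of_nonneg_right ?_ (by positivity)
          exact mul_le_mul_of_nonneg_left h5 (by positivity)
      _ = (C1 * C2) * T ^ (m + 4) *
          (DK K ^ (1 / 2 + ε / 2) * DK K ^ (ε / 2 - (σ - 1 / 2) / (3 - 2 * σ))) := by ring
      _ = (C1 * C2) * T ^ (m + 4) * DK K ^ (2 * (1 - σ) / (3 - 2 * σ) + ε) := by
          rw [← Real.rpow_add hD0]
          congr 2
          have : (3 - 2 * σ) ≠ 0 := by linarith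
          field_simp
          ring
      _ ≤ _ := by
          refine mul_le_mul_of_nonneg_right ?_ (by positivity)
          exact mul_le_mul_of_nonneg_right (le_max_right _ _) (by positivity)

end Pool.DM
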