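import Pool.Agent.DM.Cont
import Pool.Agent.ZD.Far

/-!
# Module GROWTH: size of the L-functions, tail mean square, lower bound far to the right

PAPER PROOF. `tail_mean`: `cont` and Minkowski: `(∑_χ ‖L s - PP Y s‖²)^{1/2} ≤ ∑_j (∑_χ ‖BW Wd (2^j Y) s‖²)^{1/2}`, with
`block_mean`: `≤ ∑_j (C A H (1+‖s‖)^{2k} (Q 2^j Y)^ε (2^j Y)^{1-2 re s})^{1/2}`, geometric series with ratio
`2^{(1 + ε - 2 re s)/2} ≤ 2^{-ε/2}` as `re s ≥ 1/2 + ε`; and `Y^{1 + ε - 2 re s} ≤ Y^{ε + 1 - 2σ}`. (Compare the end of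
`Pool/Agent/HDZ/Tail.lean`. Note `∑ over χ ∈ F` of a square of a convergent series: use partial sums and the triangle
inequality in `ℓ²(F)`, or `ENNReal`/`tsum` versions, as there.)
`growth`: apply `tail_mean` with `Y = 1`: `‖L s‖ ≤ ‖PP 1 s‖ + (C A H (1+‖s‖)^{2k} Q^ε)^{1/2}`; `PP 1 s` has only the term
`I = 1` with norm `< 2` (`SS ((N I)^2) = 0` if `N I ≥ 2`), of norm `≤ 1`.
`far_lower`: `‖L s - 1‖ ≤ ∑_{I ≠ 1} (N I)^{-σ₀} ≤ 1/5` (`Pool.ZD.tail_small`, `Pool.ZD.series_near_one`).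
-/

open scoped NumberField nonZeroDivisors
open NumberField Pool.ZD Pool.HDZ

namespace Pool.DM

namespace GrowthAux

theorem pow_rpow {Z : ℝ} (hZ : 0 < Z) (j : ℕ) (a : ℝ) :
    ((2 : ℝ) ^ j * Z) ^ a = ((2 : ℝ) ^ a) ^ j * Z ^ a := by
  rw [Real.mul_rpow (by positivity) hZ.le, ← Real.rpow_natCast, ← Real.rpow_natCast,
    ← Real.rpow_mul (by norm_num), ← Real.rpow_mul (by norm_num), mul_comm (j : ℝ) a]

/-- The smoothly truncated series with parameter `1` has only one term. -/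
theorem norm_PP_one (K : Type) [Field K] [NumberField K] (χ : Mul K) (s : ℂ) :
    ‖PP K χ 1 s‖ ≤ 1 := by
  unfold PP BW
  rw [tsum_eq_single 1]
  · rw [map_one, Far.nm_one, one_mul, norm_mul, Complex.norm_real, Real.norm_eq_abs,
      abs_of_nonneg (SS_nonneg _), Complex.ofReal_one, Complex.one_cpow, norm_one, mul_one]
    exact SS_le_one _
  · intro I hI
    have h1 : (2 : ℝ) ≤ nm K I := by
      unfold nm
      have h2 : Ideal.absNorm (I : Ideal (𝓞 K)) ≠ 1 := by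
        intro h3
        rw [Ideal.absNorm_eq_one_iff] at h3
        apply hI
        apply Subtype.ext
        rw [h3, OneMemClass.coe_one, Ideal.one_eq_top]
      have h4 : Ideal.absNorm (I : Ideal (𝓞 K)) ≠ 0 := Ideal.absNorm_ne_zero_of_nonZeroDivisors I
      have h5 : 2 ≤ Ideal.absNorm (I : Ideal (𝓞 K)) := by omega
      exact_mod_cast h5
    rw [SS_zero (by rw [div_one]; nlinarith)]
    simp

end GrowthAux

open GrowthAux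

theorem tail_mean (k : ℕ) (ε : ℝ) (hε : 0 < ε) (σ : ℝ) (hσ : 1 / 2 + ε ≤ σ) :
    ∃ C : ℝ, 0 < C ∧
    ∀ (K : Type) [Field K] [NumberField K] (F : Finset (Mul K)) (A H Q : ℝ), 0 ≤ A → 0 ≤ H →
      1 ≤ Q → (∀ χ ∈ F, ∀ I, ‖χ I‖ ≤ 1) → LSII K F k ε A H Q →
    ∀ L : Mul K → ℂ → ℂ, (∀ χ ∈ F, IsLf K χ (L χ)) →
    ∀ Y : ℝ, 1 ≤ Y → ∀ s : ℂ, σ ≤ s.re →
      ∑ χ ∈ F, ‖L χ s - PP K χ Y s‖ ^ 2 ≤
        C * (A * H) * (1 + ‖s‖) ^ (2 * k) * Q ^ ε * Y ^ (ε + 1 - 2 * σ) := by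
  obtain ⟨C₀, hC₀, hblock⟩ := block_mean Wd wd_wt k
  set w : ℝ := (2 : ℝ) ^ ((ε + 1 - 2 * σ) / 2) with hw
  have hw0 : 0 < w := Real.rpow_pos_of_pos two_pos _
  have hw1 : w < 1 := Real.rpow_lt_one_of_one_lt_of_neg one_lt_two (by linarith)
  have hw2 : 0 < 1 - w := by linarith
  refine ⟨C₀ / (1 - w) ^ 2, by positivity, ?_⟩
  intro K _ _ F A H Q hA hH hQ hb hLS L hL Y hY s hs
  have hY0 : 0 < Y := by linarith
  have hQ0 : 0 < Q := by linarith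
  have hAH : 0 ≤ A * H := mul_nonneg hA hH
  classical
  set E : ℝ := C₀ * (A * H) * (1 + ‖s‖) ^ (2 * k) * Q ^ ε with hE
  have hE0 : 0 ≤ E := by positivity
  have h2Y : ∀ j : ℕ, (1 : ℝ) ≤ 2 ^ j * Y := by
    intro j
    have : (1 : ℝ) ≤ 2 ^ j := one_le_pow₀ (by norm_num)
    nlinarith
  have hs0 : 0 ≤ s.re := by linarith
  have hhas : ∀ χ ∈ F, HasSum (fun j : ℕ => BW K χ Wd (2 ^ j * Y) s) (L χ s - PP K χ Y s) :=
    fun χ hχ => cont K F k ε A H Q hε hA hH hQ hLS hb χ hχ (L χ) (hL χ hχ) Y hY s (by linarith)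
  have hlim : Filter.Tendsto (fun J : ℕ => ∑ χ ∈ F,
      ‖∑ j ∈ Finset.range J, BW K χ Wd (2 ^ j * Y) s‖ ^ 2) Filter.atTop
      (nhds (∑ χ ∈ F, ‖L χ s - PP K χ Y s‖ ^ 2)) := by
    apply tendsto_finsetSum
    intro χ hχ
    exact ((hhas χ hχ).tendsto_sum_nat.norm).pow 2
  apply le_of_tendsto hlim
  apply Filter.Eventually.of_forall
  intro J
  -- Cauchy-Schwarz
  have hgeo : ∀ J : ℕ, ∑ j ∈ Finset.range J, w ^ j ≤ 1 / (1 - w) := by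
    intro J
    have h1 := (summable_geometric_of_lt_one hw0.le hw1).sum_le_tsum (Finset.range J)
      (fun j _ => by positivity)
    rw [tsum_geometric_of_lt_one hw0.le hw1] at h1
    rw [one_div]; exact h1
  have hcs : ∀ χ ∈ F, ‖∑ j ∈ Finset.range J, BW K χ Wd (2 ^ j * Y) s‖ ^ 2 ≤
      1 / (1 - w) * ∑ j ∈ Finset.range J, (w ^ j)⁻¹ * ‖BW K χ Wd (2 ^ j * Y) s‖ ^ 2 := by
    intro χ _
    have h1 : (∑ j ∈ Finset.range J, ‖BW K χ Wd (2 ^ j * Y) s‖) ^ 2 ≤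
        (∑ j ∈ Finset.range J, w ^ j) *
          ∑ j ∈ Finset.range J, (w ^ j)⁻¹ * ‖BW K χ Wd (2 ^ j * Y) s‖ ^ 2 := by
      apply Finset.sum_sq_le_sum_mul_sum_of_sq_le_mul
      · intro j _; positivity
      · intro j _; positivity
      · intro j _
        apply le_of_eq
        field_simp
    have h2 : ‖∑ j ∈ Finset.range J, BW K χ Wd (2 ^ j * Y) s‖ ^ 2 ≤
        (∑ j ∈ Finset.range J, ‖BW K χ Wd (2 ^ j * Y) s‖) ^ 2 := by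
      apply pow_le_pow_left₀ (norm_nonneg _)
      exact norm_sum_le _ _
    refine h2.trans (h1.trans ?_)
    apply mul_le_mul_of_nonneg_right (hgeo J)
    apply Finset.sum_nonneg
    intro j _; positivity
  have hblk : ∀ j : ℕ, ∑ χ ∈ F, ‖BW K χ Wd (2 ^ j * Y) s‖ ^ 2 ≤
      E * Y ^ (ε + 1 - 2 * σ) * (w ^ j * w ^ j) := by
    intro j
    have hZ0 : 0 < 2 ^ j * Y := by positivity
    refine (hblock K F ε A H Q hA hH hQ hLS (2 ^ j * Y) (h2Y j) s hs0).trans ?_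
    have h3 : (2 ^ j * Y) ^ ε * (2 ^ j * Y) ^ (1 - 2 * s.re) ≤
        Y ^ (ε + 1 - 2 * σ) * (w ^ j * w ^ j) := by
      calc (2 ^ j * Y) ^ ε * (2 ^ j * Y) ^ (1 - 2 * s.re)
          = (2 ^ j * Y) ^ (ε + (1 - 2 * s.re)) := by rw [← Real.rpow_add hZ0]
        _ ≤ (2 ^ j * Y) ^ (ε + 1 - 2 * σ) :=
            Real.rpow_le_rpow_of_exponent_le (h2Y j) (by linarith)
        _ = Y ^ (ε + 1 - 2 * σ) * (w ^ j * w ^ j) := by
            have hww : (2 : ℝ) ^ (ε + 1 - 2 * σ) = w * w := by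
              rw [hw, ← Real.rpow_add two_pos]
              congr 1
              ring
            rw [pow_rpow hY0, hww, mul_pow]
            ring
    calc C₀ * (A * H) * (1 + ‖s‖) ^ (2 * k) * (Q * (2 ^ j * Y)) ^ ε *
          (2 ^ j * Y) ^ (1 - 2 * s.re)
        = E * ((2 ^ j * Y) ^ ε * (2 ^ j * Y) ^ (1 - 2 * s.re)) := by
          rw [hE, Real.mul_rpow hQ0.le hZ0.le]
          ring
      _ ≤ E * (Y ^ (ε + 1 - 2 * σ) * (w ^ j * w ^ j)) := mul_le_mul_of_nonneg_left h3 hE0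
      _ = E * Y ^ (ε + 1 - 2 * σ) * (w ^ j * w ^ j) := by ring
  calc ∑ χ ∈ F, ‖∑ j ∈ Finset.range J, BW K χ Wd (2 ^ j * Y) s‖ ^ 2
      ≤ ∑ χ ∈ F, 1 / (1 - w) * ∑ j ∈ Finset.range J, (w ^ j)⁻¹ *
          ‖BW K χ Wd (2 ^ j * Y) s‖ ^ 2 := Finset.sum_le_sum hcs
    _ = 1 / (1 - w) * ∑ j ∈ Finset.range J, (w ^ j)⁻¹ *
          ∑ χ ∈ F, ‖BW K χ Wd (2 ^ j * Y) s‖ ^ 2 := by
        rw [← Finset.mul_sum, Finset.sum_comm]
        congr 1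
        apply Finset.sum_congr rfl
        intro j _
        rw [Finset.mul_sum]
    _ ≤ 1 / (1 - w) * ∑ j ∈ Finset.range J, (w ^ j)⁻¹ *
          (E * Y ^ (ε + 1 - 2 * σ) * (w ^ j * w ^ j)) := by
        gcongr with j _
        exact hblk j
    _ = 1 / (1 - w) * (E * Y ^ (ε + 1 - 2 * σ)) * ∑ j ∈ Finset.range J, w ^ j := by
        rw [Finset.mul_sum, Finset.mul_sum]
        apply Finset.sum_congr rfl
        intro j _
        field_simp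
    _ ≤ 1 / (1 - w) * (E * Y ^ (ε + 1 - 2 * σ)) * (1 / (1 - w)) := by
        apply mul_le_mul_of_nonneg_left (hgeo J) (by positivity)
    _ = C₀ / (1 - w) ^ 2 * (A * H) * (1 + ‖s‖) ^ (2 * k) * Q ^ ε * Y ^ (ε + 1 - 2 * σ) := by
        rw [hE]
        field_simp

theorem growth (k : ℕ) (ε : ℝ) (hε : 0 < ε) (σ : ℝ) (hσ : 1 / 2 + ε ≤ σ) :
    ∃ C : ℝ, 0 < C ∧
    ∀ (K : Type) [Field K] [NumberField K] (F : Finset (Mul K)) (A H Q : ℝ), 0 ≤ A → 0 ≤ H →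
      1 ≤ Q → (∀ χ ∈ F, ∀ I, ‖χ I‖ ≤ 1) → LSII K F k ε A H Q →
    ∀ L : Mul K → ℂ → ℂ, (∀ χ ∈ F, IsLf K χ (L χ)) →
    ∀ χ ∈ F, ∀ s : ℂ, σ ≤ s.re →
      ‖L χ s‖ ≤ 1 + C * (1 + A * H) * (1 + ‖s‖) ^ k * Q ^ ε := by
  obtain ⟨C, hC, htail⟩ := tail_mean k ε hε σ hσ
  refine ⟨1 + C, by linarith, ?_⟩
  intro K _ _ F A H Q hA hH hQ hb hLS L hL χ hχ s hs
  have hAH : 0 ≤ A * H := mul_nonneg hA hH
  have hQε : 1 ≤ Q ^ ε := Real.one_le_rpow hQ hε.le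
  have hN : 0 < (1 + ‖s‖) ^ k := by positivity
  have h1 := htail K F A H Q hA hH hQ hb hLS L hL 1 le_rfl s hs
  rw [Real.one_rpow, mul_one] at h1
  have h2 : ‖L χ s - PP K χ 1 s‖ ^ 2 ≤ C * (A * H) * (1 + ‖s‖) ^ (2 * k) * Q ^ ε :=
    le_trans (Finset.single_le_sum (f := fun χ => ‖L χ s - PP K χ 1 s‖ ^ 2)
      (fun χ _ => by positivity) hχ) h1
  have h3 : ‖L χ s - PP K χ 1 s‖ ≤ (1 + C) * (1 + A * H) * (1 + ‖s‖) ^ k * Q ^ ε := by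
    apply le_of_sq_le_sq _ (by positivity)
    refine h2.trans ?_
    have e1 : ((1 + C) * (1 + A * H) * (1 + ‖s‖) ^ k * Q ^ ε) ^ 2 =
        ((1 + C) ^ 2 * (1 + A * H) ^ 2) * ((1 + ‖s‖) ^ (2 * k) * (Q ^ ε * Q ^ ε)) := by
      rw [mul_comm 2 k, pow_mul]
      ring
    have e2 : C * (A * H) * (1 + ‖s‖) ^ (2 * k) * Q ^ ε =
        (C * (A * H)) * ((1 + ‖s‖) ^ (2 * k) * (Q ^ ε * 1)) := by ring
    rw [e1, e2]
    have f1 : C ≤ (1 + C) ^ 2 := by nlinarith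
    have f2 : A * H ≤ (1 + A * H) ^ 2 := by nlinarith
    gcongr
  calc ‖L χ s‖ = ‖PP K χ 1 s + (L χ s - PP K χ 1 s)‖ := by congr 1; ring
    _ ≤ ‖PP K χ 1 s‖ + ‖L χ s - PP K χ 1 s‖ := norm_add_le _ _
    _ ≤ 1 + (1 + C) * (1 + A * H) * (1 + ‖s‖) ^ k * Q ^ ε :=
        add_le_add (norm_PP_one K χ s) h3

theorem far_lower (m : ℕ) : ∃ σ₀ : ℝ, 2 ≤ σ₀ ∧
    ∀ (K : Type) [Field K] [NumberField K], Module.finrank ℚ K = m →
    ∀ χ : Mul K, (∀ I, ‖χ I‖ ≤ 1) → ∀ L : ℂ → ℂ, IsLf K χ L → ∀ s : ℂ, σ₀ ≤ s.re →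
      1 / 2 ≤ ‖L s‖ := by
  obtain ⟨σ₀, hσ, h⟩ := tail_small m
  refine ⟨σ₀, hσ, ?_⟩
  intro K _ _ hK χ hχ L hL s hs
  have h1 := Far.series_near_one K (fun I => χ I) hχ (map_one χ) σ₀ hσ (h K hK) s hs
  rw [(hL.2 s (by linarith)).tsum_eq] at h1
  have h2 : ‖(1 : ℂ)‖ ≤ ‖L s‖ + ‖L s - 1‖ := by
    have e : (1 : ℂ) = L s - (L s - 1) := by ring
    conv_lhs => rw [e]
    exact norm_sub_le _ _
  rw [norm_one] at h2
  linarith

end Pool.DM
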