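import Pool.Agent.DM.Defs
import Pool.Agent.ZD.Far
import Pool.Agent.ZD.Moll

/-!
# Module IDENT: the decomposition of the mollified L-function, analyticity

PAPER PROOF. `ident` is algebra, for every `s` (no convergence question: all sums are finite, `SS ((N I/Y)^2) = 0` for
`N I ≥ 2Y`): `L M = ∑_{N b ≤ z} m_b (L - PP (Y/N b)) + ∑_{N b ≤ z} m_b PP (Y/N b)`, `m_b = mt K χ s b`. In the first sum the
term `b = 1` (the only one with `N b ≤ 1`; `m_1 = 1`, `nm K 1 = 1`, `mob 1 = 1`) is `L - PP Y`, the others are `bpart`. The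
second sum is `∑_{N b ≤ z} ∑_a mob(b) χ(b) χ(a) (N b)^{-s} (N a)^{-s} SS ((N a N b/Y)^2)`; sort by `I = a b`
(`nm_mul`, `χ` multiplicative; for fixed `b` the map `a ↦ a b` is injective with image the multiples of `b`):
it equals `∑_I cz(I) χ(I) SS ((N I/Y)^2) (N I)^{-s} = 1 + apart`. (Compare `PZ_mul_MZ` in `Pool/Agent/ZD/Moll.lean`.)
Analyticity: finite sums of the entire functions `(N I)^{-s}` (and of `L`). Compare `MZ_analytic`, `PZ_analytic` in
`Pool/Agent/ZD/Far.lean`.
-/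

open scoped NumberField nonZeroDivisors
open NumberField Pool.ZD Pool.HDZ

namespace Pool.DM

namespace IdentAux

variable (K : Type) [Field K] [NumberField K]

theorem nm_pos (I : (Ideal (𝓞 K))⁰) : 0 < nm K I := lt_of_lt_of_le zero_lt_one (one_le_nm K I)

theorem SS_out {Y : ℝ} (hY : 0 < Y) (I : (Ideal (𝓞 K))⁰)
    (hI : I ∉ (finite_le K (2 * Y)).toFinset) : SS ((nm K I / Y) ^ 2) = 0 := by
  rw [Set.Finite.mem_toFinset, Set.mem_ofPred_eq, not_le] at hI
  apply SS_zero
  have h : 2 ≤ nm K I / Y := by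
    rw [le_div_iff₀ hY]
    exact hI.le
  nlinarith

theorem eq_one_of_nm_le {I : (Ideal (𝓞 K))⁰} (h : nm K I ≤ 1) : I = 1 := by
  have h0 : Ideal.absNorm (I : Ideal (𝓞 K)) ≤ 1 := by
    unfold nm at h
    exact_mod_cast h
  have h1 : 0 < Ideal.absNorm (I : Ideal (𝓞 K)) :=
    Nat.pos_of_ne_zero (Ideal.absNorm_ne_zero_of_nonZeroDivisors I)
  have h2 : Ideal.absNorm (I : Ideal (𝓞 K)) = 1 := by omega
  rw [Ideal.absNorm_eq_one_iff] at h2
  apply Subtype.ext
  rw [h2, ← Ideal.one_eq_top]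
  rfl

/-- One term of the smoothly truncated Dirichlet series. -/
noncomputable def ht (χ : Mul K) (Y : ℝ) (s : ℂ) (I : (Ideal (𝓞 K))⁰) : ℂ :=
  χ I * (SS ((nm K I / Y) ^ 2) : ℂ) * (nm K I : ℂ) ^ (-s)

theorem ht_out (χ : Mul K) {Y : ℝ} (hY : 0 < Y) (s : ℂ) (I : (Ideal (𝓞 K))⁰)
    (hI : I ∉ (finite_le K (2 * Y)).toFinset) : ht K χ Y s I = 0 := by
  unfold ht
  rw [SS_out K hY I hI]
  simp

open Classical in
theorem PP_shift (χ : Mul K) (Y : ℝ) (s : ℂ) (b : (Ideal (𝓞 K))⁰) :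
    χ b * (nm K b : ℂ) ^ (-s) * PP K χ (Y / nm K b) s =
      ∑' I : (Ideal (𝓞 K))⁰, if b ∣ I then ht K χ Y s I else 0 := by
  have hb := nm_pos K b
  have h1 : ∀ a : (Ideal (𝓞 K))⁰, χ b * (nm K b : ℂ) ^ (-s) *
      (χ a * (SS ((nm K a / (Y / nm K b)) ^ 2) : ℂ) * (nm K a : ℂ) ^ (-s)) =
      ht K χ Y s (a * b) := by
    intro a
    unfold ht
    have h2 : nm K a / (Y / nm K b) = nm K (a * b) / Y := by
      rw [nm_mul, div_div_eq_mul_div]
    have h3 : (nm K (a * b) : ℂ) ^ (-s) = (nm K a : ℂ) ^ (-s) * (nm K b : ℂ) ^ (-s) :=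
      Pool.ZD.Moll.w_mul s a b
    rw [h2, h3, map_mul]
    ring
  unfold PP BW
  rw [← tsum_mul_left, tsum_congr h1]
  have hinj : Function.Injective (fun a : (Ideal (𝓞 K))⁰ => a * b) := by
    intro a a' h
    exact Pool.ZD.Moll.ideal_cancel h
  have h4 := hinj.tsum_eq (f := fun I : (Ideal (𝓞 K))⁰ => if b ∣ I then ht K χ Y s I else 0) (by
    intro I hI
    rw [Function.mem_support] at hI
    by_cases hd : b ∣ I
    · obtain ⟨a, ha⟩ := hd
      exact ⟨a, by simp only; rw [ha, mul_comm]⟩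
    · rw [if_neg hd] at hI
      exact absurd rfl hI)
  rw [← h4]
  apply tsum_congr
  intro a
  rw [if_pos (Dvd.intro_left a rfl)]

open Classical in
theorem sum_PP (χ : Mul K) (z Y : ℝ) (hY : 0 < Y) (s : ℂ) :
    ∑ b ∈ idl K z, mt K χ s b * PP K χ (Y / nm K b) s =
      ∑' I : (Ideal (𝓞 K))⁰, cz K z I * χ I * (SS ((nm K I / Y) ^ 2) : ℂ) * (nm K I : ℂ) ^ (-s) := by
  have h1 : ∀ b ∈ idl K z, mt K χ s b * PP K χ (Y / nm K b) s =
      ∑' I : (Ideal (𝓞 K))⁰, (Pool.Hhelper85.CZ.mob K b : ℂ) *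
        (if b ∣ I then ht K χ Y s I else 0) := by
    intro b _
    rw [tsum_mul_left, ← PP_shift K χ Y s b]
    unfold mt
    ring
  rw [Finset.sum_congr rfl h1, ← Summable.tsum_finsetSum]
  · apply tsum_congr
    intro I
    unfold cz
    rw [Finset.sum_filter, mul_assoc, mul_assoc, ← mul_assoc (χ I), Finset.sum_mul]
    apply Finset.sum_congr rfl
    intro b _
    by_cases hd : b ∣ I
    · rw [if_pos hd, if_pos hd]
      rfl
    · rw [if_neg hd, if_neg hd, mul_zero, zero_mul]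
  · intro b _
    apply summable_of_ne_finset_zero (s := (finite_le K (2 * Y)).toFinset)
    intro I hI
    rw [ht_out K χ hY s I hI]
    simp

end IdentAux

open IdentAux

variable (K : Type) [Field K] [NumberField K]

theorem ident (χ : Mul K) (L : ℂ → ℂ) (z Y : ℝ) (hz : 1 ≤ z) (hY : 1 ≤ Y) (s : ℂ) :
    L s * MM K χ z s =
      1 + (apart K χ z Y s + (L s - PP K χ Y s)) + bpart K χ L z Y s := by
  classical
  have hY0 : 0 < Y := by linarith
  have h1 : L s * MM K χ z s = ∑ b ∈ idl K z, mt K χ s b * (L s - PP K χ (Y / nm K b) s) +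
      ∑ b ∈ idl K z, mt K χ s b * PP K χ (Y / nm K b) s := by
    rw [← Finset.sum_add_distrib, MM, Finset.mul_sum]
    apply Finset.sum_congr rfl
    intro b _
    ring
  have h2 : ∑ b ∈ idl K z, mt K χ s b * (L s - PP K χ (Y / nm K b) s) =
      bpart K χ L z Y s + (L s - PP K χ Y s) := by
    rw [← Finset.sum_filter_add_sum_filter_not (idl K z) (fun b => 1 < nm K b)]
    have h4 : ∑ b ∈ (idl K z).filter (fun b => 1 < nm K b),
        mt K χ s b * (L s - PP K χ (Y / nm K b) s) = bpart K χ L z Y s := by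
      unfold bpart
      congr!
    rw [h4]
    congr 1
    · rw [Finset.sum_eq_single (1 : (Ideal (𝓞 K))⁰)]
      · have h3 : mt K χ s 1 = 1 := by
          unfold mt
          rw [Pool.ZD.Far.mob_one, map_one, Pool.ZD.Far.nm_one]
          simp
        rw [h3, Pool.ZD.Far.nm_one, div_one, one_mul]
      · intro b hb hb1
        exfalso
        apply hb1
        exact eq_one_of_nm_le K (not_lt.1 (Finset.mem_filter.1 hb).2)
      · intro h
        exfalso
        apply h
        rw [Finset.mem_filter, Pool.ZD.Far.nm_one, idl, Set.Finite.mem_toFinset,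
          Set.mem_ofPred_eq, Pool.ZD.Far.nm_one]
        exact ⟨hz, lt_irrefl _⟩
  rw [h1, h2, sum_PP K χ z Y hY0 s]
  unfold apart
  ring

theorem MM_analytic (χ : Mul K) (z : ℝ) : AnalyticOnNhd ℂ (MM K χ z) Set.univ := by
  have h : Differentiable ℂ (MM K χ z) := by
    unfold MM mt
    exact Differentiable.fun_sum fun I _ => (Pool.ZD.Far.diff_pow K I).const_mul _
  exact fun s _ => h.analyticAt s

theorem PP_analytic (χ : Mul K) (Z : ℝ) (hZ : 0 < Z) : AnalyticOnNhd ℂ (PP K χ Z) Set.univ := by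
  have h : Differentiable ℂ (PP K χ Z) := by
    have : PP K χ Z = fun s => ∑ I ∈ (finite_le K (2 * Z)).toFinset,
        χ I * (SS ((nm K I / Z) ^ 2) : ℂ) * (nm K I : ℂ) ^ (-s) := by
      funext s
      unfold PP BW
      exact tsum_eq_sum fun I hI => ht_out K χ hZ s I hI
    rw [this]
    exact Differentiable.fun_sum fun I _ => (Pool.ZD.Far.diff_pow K I).const_mul _
  exact fun s _ => h.analyticAt s

theorem apart_analytic (χ : Mul K) (z Y : ℝ) (hY : 0 < Y) :
    AnalyticOnNhd ℂ (apart K χ z Y) Set.univ := by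
  have h : Differentiable ℂ (apart K χ z Y) := by
    have : apart K χ z Y = fun s => (∑ I ∈ (finite_le K (2 * Y)).toFinset,
        cz K z I * χ I * (SS ((nm K I / Y) ^ 2) : ℂ) * (nm K I : ℂ) ^ (-s)) - 1 := by
      funext s
      unfold apart
      rw [tsum_eq_sum (s := (finite_le K (2 * Y)).toFinset)]
      intro I hI
      rw [SS_out K hY I hI]
      simp
    rw [this]
    exact (Differentiable.fun_sum fun I _ => (Pool.ZD.Far.diff_pow K I).const_mul _).sub_const _
  exact fun s _ => h.analyticAt s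

theorem bpart_analytic (χ : Mul K) (L : ℂ → ℂ) (z Y : ℝ) (hY : 0 < Y) (s : ℂ)
    (hL : AnalyticAt ℂ L s) : AnalyticAt ℂ (bpart K χ L z Y) s := by
  classical
  unfold bpart
  apply Finset.analyticAt_fun_sum
  intro b _
  have hb := nm_pos K b
  apply AnalyticAt.mul
  · unfold mt
    exact ((Pool.ZD.Far.diff_pow K b).const_mul _).analyticAt s
  · exact hL.sub (PP_analytic K χ (Y / nm K b) (div_pos hY hb) s (Set.mem_univ s))

end Pool.DM
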