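import Pool.Agent.DM.BPart
import Pool.Agent.DM.APart
import Pool.Agent.DM.Ident
import Pool.Agent.DM.Growth
import Pool.Agent.DM.Detect

/-!
# The density theorem for families with the two large sieve type inequalities (helper46)
-/

open scoped NumberField nonZeroDivisors
open NumberField Pool.ZD Pool.HDZ

namespace Pool.DM

theorem expo (σ η : ℝ) (hσ : 1 / 2 < σ) (hσ1 : σ < 1) (hη : 0 ≤ η) :
    (1 - 2 * (σ - η)) / (3 - 2 * (σ - η)) ≤ (1 - 2 * σ) / (3 - 2 * σ) + 4 * η := by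
  have h1 : 0 < 3 - 2 * σ := by linarith
  have h2 : 0 < 3 - 2 * (σ - η) := by linarith
  have h3 : (1 - 2 * (σ - η)) / (3 - 2 * (σ - η)) - (1 - 2 * σ) / (3 - 2 * σ) =
      4 * η / ((3 - 2 * (σ - η)) * (3 - 2 * σ)) := by
    field_simp
    ring
  have h4 : 4 * η / ((3 - 2 * (σ - η)) * (3 - 2 * σ)) ≤ 4 * η := by
    apply div_le_self (by linarith)
    nlinarith
  linarith

theorem pow_a (Q σ₁ ε τ e : ℝ) (hQ : 1 ≤ Q) (hε : 0 < ε) (h1 : 1 / 2 ≤ σ₁)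
    (hτ2 : τ ≤ 2) (he : 1 - 2 * σ₁ ≤ e) (he' : τ * (2 - 2 * σ₁) - 1 = e) :
    (Q * (2 * Q ^ τ)) ^ ε * (2 * Q ^ τ) ^ (3 * ε) *
      (Q ^ (1 - 2 * σ₁) + (2 * Q ^ τ) ^ (2 - 2 * σ₁) / Q) ≤ 3 * 16 ^ ε * Q ^ (9 * ε + e) := by
  have hQ0 : 0 < Q := by linarith
  have hQt : 0 < Q ^ τ := Real.rpow_pos_of_pos hQ0 _
  have e1 : (Q * (2 * Q ^ τ)) ^ ε ≤ 2 ^ ε * Q ^ (3 * ε) := by
    have h : Q * (2 * Q ^ τ) ≤ 2 * Q ^ (3 : ℝ) := by
      have h3 : Q ^ τ ≤ Q ^ (2 : ℝ) := Real.rpow_le_rpow_of_exponent_le hQ hτ2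
      have h4 : Q ^ (3 : ℝ) = Q * Q ^ (2 : ℝ) := by
        rw [show (3 : ℝ) = 1 + 2 by norm_num, Real.rpow_add hQ0, Real.rpow_one]
      rw [h4]
      nlinarith
    refine (Real.rpow_le_rpow (by positivity) h hε.le).trans ?_
    rw [Real.mul_rpow (by norm_num) (by positivity), ← Real.rpow_mul hQ0.le]
  have e2 : (2 * Q ^ τ) ^ (3 * ε) ≤ 8 ^ ε * Q ^ (6 * ε) := by
    have h : 2 * Q ^ τ ≤ 2 * Q ^ (2 : ℝ) :=
      mul_le_mul_of_nonneg_left (Real.rpow_le_rpow_of_exponent_le hQ hτ2) (by norm_num)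
    refine (Real.rpow_le_rpow (by positivity) h (by positivity)).trans ?_
    rw [Real.mul_rpow (by norm_num) (by positivity), ← Real.rpow_mul hQ0.le,
      Real.rpow_mul (by norm_num : (0 : ℝ) ≤ 2)]
    norm_num
    rw [show 2 * (3 * ε) = 6 * ε by ring]
  have e3 : Q ^ (1 - 2 * σ₁) ≤ Q ^ e := Real.rpow_le_rpow_of_exponent_le hQ he
  have e4 : (2 * Q ^ τ) ^ (2 - 2 * σ₁) / Q ≤ 2 * Q ^ e := by
    rw [Real.mul_rpow (by norm_num) hQt.le, ← Real.rpow_mul hQ0.le, ← he']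
    have h : Q ^ (τ * (2 - 2 * σ₁) - 1) = Q ^ (τ * (2 - 2 * σ₁)) / Q := by
      rw [Real.rpow_sub hQ0, Real.rpow_one]
    rw [h, mul_div_assoc]
    refine mul_le_mul_of_nonneg_right ?_ (by positivity)
    calc (2 : ℝ) ^ (2 - 2 * σ₁) ≤ 2 ^ (1 : ℝ) :=
          Real.rpow_le_rpow_of_exponent_le (by norm_num) (by linarith)
      _ = 2 := Real.rpow_one _
  calc (Q * (2 * Q ^ τ)) ^ ε * (2 * Q ^ τ) ^ (3 * ε) *
        (Q ^ (1 - 2 * σ₁) + (2 * Q ^ τ) ^ (2 - 2 * σ₁) / Q) ≤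
      (2 ^ ε * Q ^ (3 * ε)) * (8 ^ ε * Q ^ (6 * ε)) * (Q ^ e + 2 * Q ^ e) := by
        refine mul_le_mul (mul_le_mul e1 e2 (by positivity) (by positivity)) (add_le_add e3 e4)
          (by positivity) (by positivity)
    _ = 3 * (2 ^ ε * 8 ^ ε) * (Q ^ (3 * ε) * Q ^ (6 * ε) * Q ^ e) := by ring
    _ = _ := by
        rw [← Real.mul_rpow (by norm_num) (by norm_num), ← Real.rpow_add hQ0, ← Real.rpow_add hQ0]
        norm_num
        left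
        congr 1
        ring

theorem pow_t (Q σ₁ ε τ e : ℝ) (hQ : 1 ≤ Q) (hε : 0 < ε) (h1 : 1 / 2 + ε ≤ σ₁)
    (hτ2 : τ ≤ 2) (he0 : e ≤ 0) (he' : τ * (1 - 2 * σ₁) = 2 * e) :
    Q ^ ε * (2 * Q ^ τ) ^ (ε + 1 - 2 * σ₁) ≤ Q ^ (9 * ε + e) := by
  have hQ0 : 0 < Q := by linarith
  have hQt : 0 < Q ^ τ := Real.rpow_pos_of_pos hQ0 _
  have h2 : (2 : ℝ) ^ (ε + 1 - 2 * σ₁) ≤ 1 :=
    Real.rpow_le_one_of_one_le_of_nonpos (by norm_num) (by linarith)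
  rw [Real.mul_rpow (by norm_num) hQt.le, ← Real.rpow_mul hQ0.le]
  calc Q ^ ε * (2 ^ (ε + 1 - 2 * σ₁) * Q ^ (τ * (ε + 1 - 2 * σ₁))) ≤
      Q ^ ε * (1 * Q ^ (τ * (ε + 1 - 2 * σ₁))) := by
        refine mul_le_mul_of_nonneg_left ?_ (by positivity)
        exact mul_le_mul_of_nonneg_right h2 (by positivity)
    _ = Q ^ (ε + τ * (ε + 1 - 2 * σ₁)) := by rw [one_mul, ← Real.rpow_add hQ0]
    _ ≤ _ := by
        refine Real.rpow_le_rpow_of_exponent_le hQ ?_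
        have h3 : τ * (ε + 1 - 2 * σ₁) = τ * ε + 2 * e := by rw [← he']; ring
        rw [h3]
        nlinarith

theorem pow_b (Q σ₁ ε τ e : ℝ) (hQ : 1 ≤ Q) (hε : 0 < ε) (h1 : 1 / 2 + ε ≤ σ₁)
    (hτ2 : τ ≤ 2) (he' : τ * (1 - 2 * σ₁) = 2 * e) :
    Q ^ ε * (2 * Q ^ τ) ^ (2 * ε) * (2 * Q ^ τ) ^ (1 / 2 - σ₁) ≤ 4 ^ ε * Q ^ (9 * ε + e) := by
  have hQ0 : 0 < Q := by linarith
  have hQt : 0 < Q ^ τ := Real.rpow_pos_of_pos hQ0 _
  have h2 : (2 : ℝ) ^ (1 / 2 - σ₁) ≤ 1 :=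
    Real.rpow_le_one_of_one_le_of_nonpos (by norm_num) (by linarith)
  have h4 : (2 : ℝ) ^ (2 * ε) = 4 ^ ε := by
    rw [Real.rpow_mul (by norm_num)]
    norm_num
  rw [Real.mul_rpow (by norm_num) hQt.le, ← Real.rpow_mul hQ0.le,
    Real.mul_rpow (by norm_num) hQt.le, ← Real.rpow_mul hQ0.le, h4]
  calc Q ^ ε * (4 ^ ε * Q ^ (τ * (2 * ε))) * (2 ^ (1 / 2 - σ₁) * Q ^ (τ * (1 / 2 - σ₁))) ≤
      Q ^ ε * (4 ^ ε * Q ^ (τ * (2 * ε))) * (1 * Q ^ (τ * (1 / 2 - σ₁))) := by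
        refine mul_le_mul_of_nonneg_left ?_ (by positivity)
        exact mul_le_mul_of_nonneg_right h2 (by positivity)
    _ = 4 ^ ε * Q ^ (ε + τ * (2 * ε) + τ * (1 / 2 - σ₁)) := by
        rw [one_mul, Real.rpow_add hQ0, Real.rpow_add hQ0]
        ring
    _ ≤ _ := by
        refine mul_le_mul_of_nonneg_left ?_ (by positivity)
        refine Real.rpow_le_rpow_of_exponent_le hQ ?_
        have h3 : τ * (1 / 2 - σ₁) = e := by linarith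
        rw [h3]
        nlinarith

/-- The number of zeros of the L-functions of a family. -/
theorem machine (m k : ℕ) (σ : ℝ) (hσ : 1 / 2 < σ) (hσ1 : σ < 1) (ε₀ : ℝ) (hε₀ : 0 < ε₀) :
    ∃ ε : ℝ, 0 < ε ∧ ∃ C : ℝ, 0 < C ∧
    ∀ (K : Type) [Field K] [NumberField K], Module.finrank ℚ K = m →
    ∀ (F : Finset (Mul K)) (A H Q : ℝ), 0 ≤ A → 0 ≤ H → 1 ≤ Q →
      (∀ χ ∈ F, ∀ I, ‖χ I‖ ≤ 1) → LSI K F ε A H Q → LSII K F k ε A H Q →
    ∀ L : Mul K → ℂ → ℂ, (∀ χ ∈ F, IsLf K χ (L χ)) →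
    ∀ T : ℝ, 1 ≤ T → ∀ S : Mul K → Finset ℂ,
      (∀ χ ∈ F, ∀ s ∈ S χ, σ ≤ s.re ∧ |s.im| ≤ T) →
      (∀ χ ∈ F, ∀ s : ℂ, σ ≤ s.re → analyticOrderAt (L χ) s ≠ ⊤) ∧
      ∑ χ ∈ F, ∑ s ∈ S χ, ((analyticOrderNatAt (L χ) s : ℕ) : ℝ) ≤
        C * (A * H) * (1 + A * H) ^ ε₀ * T ^ (2 * k + 2) *
          Q ^ (ε₀ + (1 - 2 * σ) / (3 - 2 * σ)) := by
  classical
  set η : ℝ := min ((σ - 1 / 2) / 2) (ε₀ / 16) with hη
  have hη0 : 0 < η := lt_min (by linarith) (by linarith)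
  have hη1 : η ≤ (σ - 1 / 2) / 2 := min_le_left _ _
  have hη2 : η ≤ ε₀ / 16 := min_le_right _ _
  set σ₁ : ℝ := σ - η with hσ₁
  set ε : ℝ := min ((σ - 1 / 2) / 2) (ε₀ / 36) with hε
  have hε0 : 0 < ε := lt_min (by linarith) (by linarith)
  have hε1 : ε ≤ (σ - 1 / 2) / 2 := min_le_left _ _
  have hε2 : ε ≤ ε₀ / 36 := min_le_right _ _
  have hσ₁a : 1 / 2 + ε ≤ σ₁ := by rw [hσ₁]; linarith
  have hσ₁b : σ₁ ≤ 1 := by rw [hσ₁]; linarith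
  have hσ₁c : σ₁ < σ := by rw [hσ₁]; linarith
  set δ : ℝ := min (1 / (k + 1)) (min ε₀ 1) with hδ
  have hδ0 : 0 < δ := lt_min (by positivity) (lt_min hε₀ one_pos)
  have hδ1 : δ ≤ 1 / (k + 1) := min_le_left _ _
  have hδ2 : δ ≤ ε₀ := (min_le_right _ _).trans (min_le_left _ _)
  have hδ3 : δ ≤ 1 := (min_le_right _ _).trans (min_le_right _ _)
  have hkδ : k * δ ≤ 1 := by
    have h1 : (k : ℝ) * δ ≤ k * (1 / (k + 1)) := mul_le_mul_of_nonneg_left hδ1 (by positivity)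
    refine h1.trans ?_
    rw [mul_one_div, div_le_one (by positivity)]
    linarith
  obtain ⟨Ca, hCa, hAp⟩ := apart_mean m ε hε0 σ₁ (by linarith) hσ₁b
  obtain ⟨Cb, hCb, hBp⟩ := bpart_mean k ε hε0 σ₁ hσ₁a
  obtain ⟨Ct, hCt, hTl⟩ := tail_mean k ε hε0 σ₁ hσ₁a
  obtain ⟨Cg, hCg, hGr⟩ := growth k ε hε0 σ₁ hσ₁a
  obtain ⟨σ₀, hσ₀, hFar⟩ := far_lower m
  obtain ⟨CZ, R, hCZ, hR, hZero⟩ := zero_count2 σ₁ σ σ₀ hσ₁c (by linarith)
  set τ : ℝ := 2 / (3 - 2 * σ₁) with hτ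
  have hden : 0 < 3 - 2 * σ₁ := by linarith
  have hτ1 : 1 ≤ τ := by rw [hτ, le_div_iff₀ hden]; linarith
  have hτ2 : τ ≤ 2 := by rw [hτ, div_le_iff₀ hden]; linarith
  set e : ℝ := (1 - 2 * σ₁) / (3 - 2 * σ₁) with he
  have he0 : e ≤ 0 := div_nonpos_of_nonpos_of_nonneg (by linarith) hden.le
  have he1 : 1 - 2 * σ₁ ≤ e := by rw [he, le_div_iff₀ hden]; nlinarith
  have he2 : τ * (2 - 2 * σ₁) - 1 = e := by
    rw [hτ, he]
    field_simp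
    ring
  have he3 : τ * (1 - 2 * σ₁) = 2 * e := by
    rw [hτ, he]
    field_simp
  -- constants
  set W : ℝ := 2 + 2 * R with hW
  have hW0 : 0 < W := by linarith
  have hW1 : 1 ≤ W := by linarith
  set CN : ℝ := 1 + (1 + Cg * W ^ k) ^ δ / δ with hCN
  have hCN0 : 0 < CN := by positivity
  set Da : ℝ := 2 * (Ca * (3 * 16 ^ ε)) + 2 * (Ct * W ^ (2 * k)) with hDa
  have hDa0 : 0 < Da := by positivity
  set Db : ℝ := Cb * W ^ k * 4 ^ ε with hDb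
  have hDb0 : 0 < Db := by positivity
  refine ⟨ε, hε0, CZ * CN * (Da + Db), by positivity, ?_⟩
  intro K _ _ hK F A H Q hA hH hQ hb hI hII L hL T hT S hS
  have hQ0 : 0 < Q := by linarith
  have hT0 : 0 < T := by linarith
  have hAH : 0 ≤ A * H := mul_nonneg hA hH
  set Y : ℝ := 2 * Q ^ τ with hY
  have hQτ : Q ≤ Q ^ τ := by
    calc Q = Q ^ (1 : ℝ) := (Real.rpow_one _).symm
      _ ≤ _ := Real.rpow_le_rpow_of_exponent_le hQ hτ1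
  have hQY : 2 * Q ≤ Y := by rw [hY]; linarith
  have hY1 : 1 ≤ Y := by linarith
  have hY0 : 0 < Y := by linarith
  set X : ℝ := A * H * T ^ (2 * k) * Q ^ (9 * ε + e) with hX
  have hX0 : 0 ≤ X := by positivity
  have hhalf : ∀ s : ℂ, σ₁ ≤ s.re → 1 / 2 < s.re := fun s hs => by linarith
  have hnorm : ∀ s : ℂ, σ₁ ≤ s.re → s.re ≤ R → |s.im| ≤ T + R → 1 + ‖s‖ ≤ W * T := by
    intro s h1 h2 h3
    have h4 : ‖s‖ ≤ |s.re| + |s.im| := Complex.norm_le_abs_re_add_abs_im s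
    have h5 : |s.re| ≤ R := by
      rw [abs_of_nonneg (by linarith [hhalf s h1])]
      exact h2
    have h6 : R ≤ R * T := le_mul_of_one_le_right hR.le hT
    rw [hW]
    nlinarith
  have hTk : (1 : ℝ) ≤ T ^ (2 * k) := one_le_pow₀ hT
  have hTk' : T ^ k ≤ T ^ (2 * k) := pow_le_pow_right₀ hT (by omega)
  -- the first mean square
  have hMa : ∀ s : ℂ, σ₁ ≤ s.re → s.re ≤ R → |s.im| ≤ T + R →
      ∑ χ ∈ F, ‖apart K χ Q Y s + (L χ s - PP K χ Y s)‖ ^ 2 ≤ Da * X := by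
    intro s h1 h2 h3
    have h4 : ∀ χ ∈ F, ‖apart K χ Q Y s + (L χ s - PP K χ Y s)‖ ^ 2 ≤
        2 * ‖apart K χ Q Y s‖ ^ 2 + 2 * ‖L χ s - PP K χ Y s‖ ^ 2 := by
      intro χ _
      have h5 := norm_add_le (apart K χ Q Y s) (L χ s - PP K χ Y s)
      refine (pow_le_pow_left₀ (norm_nonneg _) h5 2).trans ?_
      nlinarith [sq_nonneg (‖apart K χ Q Y s‖ - ‖L χ s - PP K χ Y s‖)]
    refine (Finset.sum_le_sum h4).trans ?_
    rw [Finset.sum_add_distrib, ← Finset.mul_sum, ← Finset.mul_sum]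
    have h6 := hAp K hK F A H Q hA hH hQ hI Q Y hQ (by linarith) s h1
    have h7 := hTl K F A H Q hA hH hQ hb hII L hL Y hY1 s h1
    have h8 := pow_a Q σ₁ ε τ e hQ hε0 (by linarith) hτ2 he1 he2
    have h9 := pow_t Q σ₁ ε τ e hQ hε0 hσ₁a hτ2 he0 he3
    rw [← hY] at h8 h9
    have h10 : (1 + ‖s‖) ^ (2 * k) ≤ (W * T) ^ (2 * k) :=
      pow_le_pow_left₀ (by positivity) (hnorm s h1 h2 h3) _
    have g1 : ∑ χ ∈ F, ‖apart K χ Q Y s‖ ^ 2 ≤ Ca * (3 * 16 ^ ε) * X := by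
      refine h6.trans ?_
      calc Ca * (A * H) * (Q * Y) ^ ε * Y ^ (3 * ε) * (Q ^ (1 - 2 * σ₁) + Y ^ (2 - 2 * σ₁) / Q) =
          Ca * (A * H) * ((Q * Y) ^ ε * Y ^ (3 * ε) *
            (Q ^ (1 - 2 * σ₁) + Y ^ (2 - 2 * σ₁) / Q)) := by ring
        _ ≤ Ca * (A * H) * (3 * 16 ^ ε * Q ^ (9 * ε + e)) :=
            mul_le_mul_of_nonneg_left h8 (by positivity)
        _ = Ca * (3 * 16 ^ ε) * (A * H * 1 * Q ^ (9 * ε + e)) := by ring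
        _ ≤ _ := by
            refine mul_le_mul_of_nonneg_left ?_ (by positivity)
            rw [hX]
            refine mul_le_mul_of_nonneg_right ?_ (by positivity)
            exact mul_le_mul_of_nonneg_left hTk hAH
    have g2 : ∑ χ ∈ F, ‖L χ s - PP K χ Y s‖ ^ 2 ≤ Ct * W ^ (2 * k) * X := by
      refine h7.trans ?_
      calc Ct * (A * H) * (1 + ‖s‖) ^ (2 * k) * Q ^ ε * Y ^ (ε + 1 - 2 * σ₁) =
          Ct * (A * H) * (1 + ‖s‖) ^ (2 * k) * (Q ^ ε * Y ^ (ε + 1 - 2 * σ₁)) := by ring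
        _ ≤ Ct * (A * H) * (W * T) ^ (2 * k) * Q ^ (9 * ε + e) := by
            refine mul_le_mul ?_ h9 (by positivity) (by positivity)
            exact mul_le_mul_of_nonneg_left h10 (by positivity)
        _ = _ := by rw [hX, mul_pow]; ring
    calc 2 * ∑ χ ∈ F, ‖apart K χ Q Y s‖ ^ 2 + 2 * ∑ χ ∈ F, ‖L χ s - PP K χ Y s‖ ^ 2 ≤
        2 * (Ca * (3 * 16 ^ ε) * X) + 2 * (Ct * W ^ (2 * k) * X) := by linarith
      _ = Da * X := by rw [hDa]; ring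
  -- the first moment
  have hMb : ∀ s : ℂ, σ₁ ≤ s.re → s.re ≤ R → |s.im| ≤ T + R →
      ∑ χ ∈ F, ‖bpart K χ (L χ) Q Y s‖ ≤ Db * X := by
    intro s h1 h2 h3
    have h6 := hBp K F A H Q hA hH hQ hb hI hII L hL Q Y hQ le_rfl hQY s h1
    have h8 := pow_b Q σ₁ ε τ e hQ hε0 hσ₁a hτ2 he3
    rw [← hY] at h8
    have h10 : (1 + ‖s‖) ^ k ≤ (W * T) ^ k :=
      pow_le_pow_left₀ (by positivity) (hnorm s h1 h2 h3) _
    refine h6.trans ?_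
    calc Cb * (A * H) * (1 + ‖s‖) ^ k * Q ^ ε * Y ^ (2 * ε) * Y ^ (1 / 2 - σ₁) =
        Cb * (A * H) * (1 + ‖s‖) ^ k * (Q ^ ε * Y ^ (2 * ε) * Y ^ (1 / 2 - σ₁)) := by ring
      _ ≤ Cb * (A * H) * (W * T) ^ k * (4 ^ ε * Q ^ (9 * ε + e)) := by
          refine mul_le_mul ?_ h8 (by positivity) (by positivity)
          exact mul_le_mul_of_nonneg_left h10 (by positivity)
      _ = Db * (A * H * T ^ k * Q ^ (9 * ε + e)) := by rw [hDb, mul_pow]; ring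
      _ ≤ Db * X := by
          refine mul_le_mul_of_nonneg_left ?_ hDb0.le
          rw [hX]
          refine mul_le_mul_of_nonneg_right ?_ (by positivity)
          exact mul_le_mul_of_nonneg_left hTk' hAH
  -- the growth
  set V : ℝ := (1 + Cg * W ^ k) * (1 + A * H) * T ^ k * Q ^ ε with hV
  have hTk1 : (1 : ℝ) ≤ T ^ k := one_le_pow₀ hT
  have hQε : 1 ≤ Q ^ ε := Real.one_le_rpow hQ hε0.le
  have hV1 : 1 ≤ V := by
    have g1 : 1 ≤ 1 + Cg * W ^ k := by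
      have : 0 ≤ Cg * W ^ k := by positivity
      linarith
    have g2 : 1 ≤ 1 + A * H := by linarith
    calc (1 : ℝ) = 1 * 1 * 1 * 1 := by norm_num
      _ ≤ V := by
        rw [hV]
        gcongr
  have hV0 : 0 < V := by linarith
  have hLV : ∀ χ ∈ F, ∀ s : ℂ, σ₁ ≤ s.re → s.re ≤ R → |s.im| ≤ T + R →
      ‖L χ s‖ ≤ Real.exp (Real.log V) := by
    intro χ hχ s h1 h2 h3
    rw [Real.exp_log hV0]
    refine (hGr K F A H Q hA hH hQ hb hII L hL χ hχ s h1).trans ?_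
    have h10 : (1 + ‖s‖) ^ k ≤ (W * T) ^ k :=
      pow_le_pow_left₀ (by positivity) (hnorm s h1 h2 h3) _
    have h11 : Cg * (1 + A * H) * (1 + ‖s‖) ^ k * Q ^ ε ≤
        Cg * W ^ k * (1 + A * H) * T ^ k * Q ^ ε := by
      calc Cg * (1 + A * H) * (1 + ‖s‖) ^ k * Q ^ ε ≤ Cg * (1 + A * H) * (W * T) ^ k * Q ^ ε := by
            refine mul_le_mul_of_nonneg_right ?_ (by positivity)
            exact mul_le_mul_of_nonneg_left h10 (by positivity)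
        _ = _ := by rw [mul_pow]; ring
    have h12 : 1 ≤ (1 + A * H) * T ^ k * Q ^ ε := by
      calc (1 : ℝ) = 1 * 1 * 1 := by norm_num
        _ ≤ _ := by
          gcongr
          linarith
    rw [hV]
    nlinarith
  have hN0 : 0 ≤ Real.log V := Real.log_nonneg hV1
  have hN : 1 + Real.log V ≤ CN * (1 + A * H) ^ ε₀ * T * Q ^ ε := by
    have h1 := Real.log_le_rpow_div hV0.le hδ0
    have h2 : V ^ δ ≤ (1 + Cg * W ^ k) ^ δ * (1 + A * H) ^ ε₀ * T * Q ^ ε := by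
      rw [hV, Real.mul_rpow (by positivity) (by positivity),
        Real.mul_rpow (by positivity) (by positivity),
        Real.mul_rpow (by positivity) (by positivity)]
      have g1 : (1 + A * H) ^ δ ≤ (1 + A * H) ^ ε₀ :=
        Real.rpow_le_rpow_of_exponent_le (by linarith) hδ2
      have g2 : (T ^ k) ^ δ ≤ T := by
        rw [← Real.rpow_natCast, ← Real.rpow_mul hT0.le]
        calc T ^ ((k : ℝ) * δ) ≤ T ^ (1 : ℝ) := Real.rpow_le_rpow_of_exponent_le hT hkδ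
          _ = T := Real.rpow_one _
      have g3 : (Q ^ ε) ^ δ ≤ Q ^ ε := by
        rw [← Real.rpow_mul hQ0.le]
        refine Real.rpow_le_rpow_of_exponent_le hQ ?_
        nlinarith
      gcongr
    have h3 : 1 ≤ (1 + A * H) ^ ε₀ * T * Q ^ ε := by
      have g1 : 1 ≤ (1 + A * H) ^ ε₀ := Real.one_le_rpow (by linarith) hε₀.le
      calc (1 : ℝ) = 1 * 1 * 1 := by norm_num
        _ ≤ _ := by gcongr
    calc 1 + Real.log V ≤ (1 + A * H) ^ ε₀ * T * Q ^ ε +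
        ((1 + Cg * W ^ k) ^ δ * (1 + A * H) ^ ε₀ * T * Q ^ ε) / δ := by
          refine add_le_add h3 (h1.trans ?_)
          exact div_le_div_of_nonneg_right h2 hδ0.le
      _ = _ := by rw [hCN]; field_simp
  -- the count
  have hfin : ∀ χ ∈ F, AnalyticOnNhd ℂ (L χ) {s | 1 / 2 < s.re} := fun χ hχ => (hL χ hχ).1
  obtain ⟨hz1, hz2⟩ := hZero {χ // χ ∈ F} (fun χ => L χ.1) (fun χ => MM K χ.1 Q)
    (fun χ s => apart K χ.1 Q Y s + (L χ.1 s - PP K χ.1 Y s)) (fun χ => bpart K χ.1 (L χ.1) Q Y)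
    (Da * X) (Db * X) (Real.log V) T hT (by positivity) (by positivity) hN0
    (fun χ s hs => hfin χ.1 χ.2 s (hhalf s hs))
    (fun χ s hs => (apart_analytic K χ.1 Q Y hY0 s (Set.mem_univ _)).add
      ((hfin χ.1 χ.2 s (hhalf s hs)).sub (PP_analytic K χ.1 Y hY0 s (Set.mem_univ _))))
    (fun χ s hs => bpart_analytic K χ.1 (L χ.1) Q Y hY0 s (hfin χ.1 χ.2 s (hhalf s hs)))
    (fun χ s hs => ident K χ.1 (L χ.1) Q Y hQ hY1 s)
    (fun χ s hs => hFar K hK χ.1 (hb χ.1 χ.2) (L χ.1) (hL χ.1 χ.2) s hs)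
    (fun χ s h1 h2 h3 => hLV χ.1 χ.2 s h1 h2 h3)
    (fun s h1 h2 h3 => by
      rw [Finset.sum_coe_sort F (fun χ => ‖apart K χ Q Y s + (L χ s - PP K χ Y s)‖ ^ 2)]
      exact hMa s h1 h2 h3)
    (fun s h1 h2 h3 => by
      rw [Finset.sum_coe_sort F (fun χ => ‖bpart K χ (L χ) Q Y s‖)]
      exact hMb s h1 h2 h3)
  refine ⟨fun χ hχ s hs => hz1 ⟨χ, hχ⟩ s (hσ₁c.le.trans hs), ?_⟩
  have h5 := hz2 (fun χ => S χ.1) (fun χ s hs => hS χ.1 χ.2 s hs)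
  rw [Finset.sum_coe_sort F (fun χ => ∑ s ∈ S χ, ((analyticOrderNatAt (L χ) s : ℕ) : ℝ))] at h5
  refine h5.trans ?_
  have h6 : Q ^ ε * Q ^ (9 * ε + e) ≤ Q ^ (ε₀ + (1 - 2 * σ) / (3 - 2 * σ)) := by
    rw [← Real.rpow_add hQ0]
    refine Real.rpow_le_rpow_of_exponent_le hQ ?_
    have h7 := expo σ η hσ hσ1 hη0.le
    rw [← hσ₁, ← he] at h7
    linarith
  calc CZ * (1 + Real.log V) * T * (Da * X + Db * X) ≤
      CZ * (CN * (1 + A * H) ^ ε₀ * T * Q ^ ε) * T * (Da * X + Db * X) := by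
        gcongr
    _ = CZ * CN * (Da + Db) * (A * H) * (1 + A * H) ^ ε₀ * T ^ (2 * k + 2) *
        (Q ^ ε * Q ^ (9 * ε + e)) := by
        rw [hX]
        ring
    _ ≤ _ := mul_le_mul_of_nonneg_left h6 (by positivity)

end Pool.DM
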